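import Pool.Agent.H827.SF.Thin
import Pool.Graph.R_seed8.R769.Loc
import Pool.Graph.R_pool_sql_team_seeded_63374d34.N550.KH.Two

/-!
# Tame maps between closed manifolds: basic properties
-/

set_option autoImplicit false
set_option linter.unusedSectionVars false

open Set Filter Topology Metric Function MeasureTheory
open scoped Manifold ContDiff

noncomputable section

namespace Pool.Agent.H827.TM

open Pool.Agent.Y522 Pool.Agent.N550.KH Pool.Agent.H827.SF

section transfer

variable {n : ℕ} {X X' : Type} [TopologicalSpace X] [ChartedSpace (E n) X] [IsManifold (𝓡 n) ∞ X]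
  [TopologicalSpace X'] [ChartedSpace (E n) X'] [IsManifold (𝓡 n) ∞ X']

/-- embeddable sets in open submanifolds -/
theorem emb_of_opens {k : ℕ} {N : Type} [TopologicalSpace N] [ChartedSpace (E k) N]
    [IsManifold (𝓡 k) ∞ N] (O : TopologicalSpace.Opens N) (F : Set N) (hF : F ⊆ O)
    (h : Emb k (Subtype.val ⁻¹' F : Set O)) : Emb k F := by
  classical
  obtain ⟨U, q, hU, hFU, hq, hqL⟩ := h
  obtain ⟨q', hq'⟩ : ∃ q' : N → E k, ∀ z : O, q' z = q z :=
    ⟨fun z => if hz : z ∈ O then q ⟨z, hz⟩ else 0, fun z => dif_pos z.2⟩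
  refine ⟨Subtype.val '' U, q', O.isOpen.isOpenMap_subtype_val _ hU, ?_, ?_, ?_⟩
  · intro x hx
    exact ⟨⟨x, hF hx⟩, hFU hx, rfl⟩
  · rintro _ ⟨a, ha, rfl⟩ _ ⟨b, hb, rfl⟩ hab
    rw [hq', hq'] at hab
    rw [hq ha hb hab]
  · rintro _ ⟨a, ha, rfl⟩
    refine Pool.Agent.R769.LD_of_restrict O ?_
    have e : (fun y : O => q' y.1) = q := funext hq'
    rw [e]
    exact hqL a ha

/-- **Transfer of universal embeddability by a local diffeomorphism.** -/
theorem uemb_transfer {F : Set X} {F' : Set X'} (U : Set X) (hU : IsOpen U) (hFU : F ⊆ U)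
    (φ : X → X') (hφ : InjOn φ U) (hL : ∀ x ∈ U, LD n φ x) (himg : φ '' F = F')
    (h : UEmb n F') : UEmb n F := by
  intro k N _ _ hN i hi his hid hFi
  let O : TopologicalSpace.Opens N := ⟨i ⁻¹' U, hU.preimage hi.continuous⟩
  have hval : ∀ s : O, LD k (Subtype.val : O → N) s := fun s => Pool.Agent.R769.LD_val O s
  have hφc : ContinuousOn φ U := fun x hx => (hL x hx).continuousAt.continuousWithinAt
  -- the composition is an embedding
  have he1 : IsEmbedding (fun s : O => (⟨i s, s.2⟩ : U)) :=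
    (hi.comp IsEmbedding.subtypeVal).codRestrict U (fun s => s.2)
  have he2 : IsOpenEmbedding (fun x : U => φ x) := by
    refine IsOpenEmbedding.of_continuous_injective_isOpenMap ?_ ?_ ?_
    · exact continuousOn_iff_continuous_domRestrict.1 hφc
    · intro x y hxy
      exact Subtype.ext (hφ x.2 y.2 hxy)
    · intro V hV
      have h1 : (fun x : U => φ x) '' V = φ '' (Subtype.val '' V) := by
        rw [image_image]
      rw [h1]
      refine isOpen_image_of_LD (n := n) (hU.isOpenMap_subtype_val _ hV) ?_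
      rintro _ ⟨x, -, rfl⟩
      exact hL x x.2
  have he : IsEmbedding (fun s : O => φ (i s)) := he2.isEmbedding.comp he1
  have hs : ContMDiff (𝓡 k) (𝓡 n) ∞ (fun s : O => φ (i s)) := by
    intro s
    exact ContMDiffAt.comp (g := φ) s (hL _ s.2).contMDiffAt
      (ContMDiffAt.comp (g := i) s his.contMDiffAt (hval s).contMDiffAt)
  have hd : ∀ s : O, Injective (mfderiv (𝓡 k) (𝓡 n) (fun s : O => φ (i s)) s) := by
    intro s
    have e1 : mfderiv (𝓡 k) (𝓡 n) (fun s : O => φ (i s)) s =
        (mfderiv (𝓡 n) (𝓡 n) φ (i s)).comp (mfderiv (𝓡 k) (𝓡 n) (fun s : O => i s) s) :=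
      mfderiv_comp s (hL _ s.2).mdifferentiableAt
        ((ContMDiffAt.comp (g := i) s his.contMDiffAt (hval s).contMDiffAt).mdifferentiableAt
          (by simp))
    have e2 : mfderiv (𝓡 k) (𝓡 n) (fun s : O => i s) s =
        (mfderiv (𝓡 k) (𝓡 n) i s).comp (mfderiv (𝓡 k) (𝓡 k) (Subtype.val : O → N) s) :=
      mfderiv_comp s (his.mdifferentiableAt (by simp)) (hval s).mdifferentiableAt
    rw [e1, e2]
    exact (hL _ s.2).mfderiv_injective.comp ((hid _).comp (hval s).mfderiv_injective)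
  have hr : F' ⊆ range (fun s : O => φ (i s)) := by
    rw [← himg]
    rintro _ ⟨x, hx, rfl⟩
    obtain ⟨z, rfl⟩ := hFi hx
    exact ⟨⟨z, hFU hx⟩, rfl⟩
  have hfin := h k O inferInstance (fun s : O => φ (i s)) he hs hd hr
  refine emb_of_opens O (i ⁻¹' F) (fun z hz => hFU hz) ?_
  have e : (fun s : O => φ (i s)) ⁻¹' F' = (Subtype.val ⁻¹' (i ⁻¹' F) : Set O) := by
    ext s
    rw [← himg]
    constructor
    · rintro ⟨x, hx, hxs⟩
      have h1 : x = i s := hφ (hFU hx) s.2 hxs
      show i s ∈ F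
      rw [← h1]
      exact hx
    · intro hs
      exact ⟨i s, hs, rfl⟩
  rw [← e]
  exact hfin

/-- the same for embeddable sets -/
theorem emb_transfer {F : Set X} {F' : Set X'} (U : Set X) (hU : IsOpen U) (hFU : F ⊆ U)
    (φ : X → X') (hφ : InjOn φ U) (hL : ∀ x ∈ U, LD n φ x) (himg : φ '' F ⊆ F')
    (h : Emb n F') : Emb n F := by
  obtain ⟨V, q, hV, hFV, hq, hqL⟩ := h
  have hφc : ContinuousOn φ U := fun x hx => (hL x hx).continuousAt.continuousWithinAt
  refine ⟨U ∩ φ ⁻¹' V, fun x => q (φ x), hφc.isOpen_inter_preimage hU hV, ?_, ?_, ?_⟩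
  · intro x hx
    exact ⟨hFU hx, hFV (himg ⟨x, hx, rfl⟩)⟩
  · intro x hx y hy hxy
    exact hφ hx.1 hy.1 (hq hx.2 hy.2 hxy)
  · intro x hx
    exact LD.comp_fun (hqL _ hx.2) (hL x hx.1)

/-- points are universally embeddable -/
theorem uemb_singleton [T2Space X] (x : X) : UEmb n ({x} : Set X) := by
  intro k N _ _ hN i hi his hid hFi
  obtain ⟨z, rfl⟩ := hFi (mem_singleton x)
  refine ⟨(chartAt (E k) z).source, chartAt (E k) z, (chartAt (E k) z).open_source, ?_,
    (chartAt (E k) z).injOn, fun y hy => LD_chart' z y hy⟩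
  intro y hy
  have h1 : i y = i z := hy
  rw [hi.injective h1]
  exact mem_chart_source _ z

theorem uemb_of_subsingleton [T2Space X] {F : Set X} (x : X) (h : F = {x}) : UEmb n F := by
  rw [h]
  exact uemb_singleton x

end transfer

variable {n : ℕ} {M N : Type} [TopologicalSpace M] [ChartedSpace (E n) M]
  [TopologicalSpace N] [ChartedSpace (E n) N]

/-- `f` is a tame map with bad set `B`: it is continuous and surjective, smooth off the preimage of
`B`, its fibres over the points off `B` are universally embeddable, and its fibres over the points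
of `B` have neighbourhoods which embed in Euclidean space. -/
structure TMap (n : ℕ) {M N : Type} [TopologicalSpace M] [ChartedSpace (E n) M]
    [TopologicalSpace N] [ChartedSpace (E n) N] (f : M → N) (B : Set N) : Prop where
  cont : Continuous f
  surj : Surjective f
  closed : IsClosed B
  null : NullH n B
  smooth : ∀ x, f x ∉ B → ContMDiffAt (𝓡 n) (𝓡 n) ∞ f x
  tame : ∀ y, y ∉ B → UEmb n (f ⁻¹' {y})
  emb : ∀ y ∈ B, Emb n (f ⁻¹' {y})

/-- `f` is good over `y`: there is at most one preimage, and `f` is a local diffeomorphism there -/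
def Good (n : ℕ) {M N : Type} [TopologicalSpace M] [ChartedSpace (E n) M]
    [TopologicalSpace N] [ChartedSpace (E n) N] (f : M → N) (y : N) : Prop :=
  ∀ x, f x = y → LD n f x ∧ ∀ x', f x' = y → x' = x

theorem Good.ld {f : M → N} {x : M} (h : Good n f (f x)) : LD n f x := (h x rfl).1

theorem Good.eq {f : M → N} {x x' : M} (h : Good n f (f x)) (hx : f x' = f x) : x' = x :=
  (h x rfl).2 x' hx

/-- near a good point all points are good -/
theorem isOpen_good [CompactSpace M] [T2Space N] {f : M → N} (hf : Continuous f) :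
    IsOpen {y | Good n f y} := by
  rw [isOpen_iff_mem_nhds]
  intro y hy
  by_cases hex : ∃ x, f x = y
  · obtain ⟨x, rfl⟩ := hex
    obtain ⟨u, hu, hui⟩ := hy.ld.eventually_injOn
    have h1 : {z | z ∈ u ∧ LD n f z} ∈ 𝓝 x := inter_mem hu hy.ld.eventually
    obtain ⟨v, hvu, hvo, hxv⟩ := _root_.mem_nhds_iff.1 h1
    have hC : IsClosed (f '' vᶜ) := (hvo.isClosed_compl.isCompact.image hf).isClosed
    have hyC : f x ∉ f '' vᶜ := by
      rintro ⟨z, hz, hzx⟩
      rw [hy.eq hzx] at hz
      exact hz hxv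
    filter_upwards [hC.isOpen_compl.mem_nhds hyC] with y' hy' z hz
    have hzv : ∀ z, f z = y' → z ∈ v := by
      intro z hz
      by_contra hcon
      exact hy' ⟨z, hcon, hz⟩
    refine ⟨(hvu (hzv z hz)).2, fun z' hz' => ?_⟩
    exact hui (hvu (hzv z' hz')).1 (hvu (hzv z hz)).1 (by rw [hz, hz'])
  · have hC : IsClosed (range f) := (isCompact_range hf).isClosed
    filter_upwards [hC.isOpen_compl.mem_nhds hex] with y' hy' z hz
    exact absurd ⟨z, hz⟩ hy'

theorem Good.comp {f : M → N} {κ : N → N} (hκ : IsDf n κ) {y : N} (h : Good n f y) :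
    Good n (fun x => κ (f x)) (κ y) := by
  intro x hx
  have hx' : f x = y := hκ.1.1 hx
  subst hx'
  exact ⟨LD.comp_fun (hκ.2 _) h.ld, fun x' hx'' => h.eq (hκ.1.1 hx'')⟩

theorem Good.of_comp {f : M → N} {κ : N → N} (hκ : IsDf n κ) {y : N}
    (h : ∀ y', κ y' = y → Good n f y') : Good n (fun x => κ (f x)) y := by
  obtain ⟨y', rfl⟩ := hκ.1.2 y
  exact (h y' rfl).comp hκ

/-- composition of a tame map with a diffeomorphism -/
theorem TMap.comp {f : M → N} {B : Set N} (h : TMap n f B) {κ : N → N} (hκ : IsDf n κ) :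
    TMap n (fun x => κ (f x)) (κ '' B) := by
  have hfib : ∀ y, (fun x => κ (f x)) ⁻¹' {κ y} = f ⁻¹' {y} := by
    intro y
    ext x
    exact ⟨fun hx => hκ.1.1 hx, fun hx => congrArg κ hx⟩
  have hmem : ∀ y, κ y ∈ κ '' B ↔ y ∈ B := fun y => hκ.1.1.mem_set_image
  refine ⟨(Two.cont_of_ld hκ.2).comp h.cont, hκ.1.2.comp h.surj,
    (Two.toH hκ).isClosedMap _ h.closed, Two.NullH.image h.null hκ, ?_, ?_, ?_⟩
  · intro x hx
    rw [hmem] at hx
    exact ContMDiffAt.comp (g := κ) x (hκ.2 _).contMDiffAt (h.smooth x hx)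
  · intro y hy
    obtain ⟨y, rfl⟩ := hκ.1.2 y
    rw [hfib]
    exact h.tame y (fun hyB => hy ((hmem y).2 hyB))
  · intro y hy
    obtain ⟨y, rfl⟩ := hκ.1.2 y
    rw [hfib]
    exact h.emb y ((hmem y).1 hy)

theorem TMap.sm {f : M → N} {B : Set N} (h : TMap n f B) {x : M} (hx : f x ∉ B) : Sm n f x := by
  filter_upwards [h.cont.continuousAt.eventually_mem (h.closed.isOpen_compl.mem_nhds hx)] with y hy
  exact h.smooth y hy

end Pool.Agent.H827.TM
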