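import Pool.Agent.H827.TM.Basic
import Pool.Graph.R_pool_sql_team_seeded_63374d34.N550.KH.Zero
import Pool.Graph.R_pool_sql_team_seeded_63374d34.N550.KH.Shift
import Pool.Graph.R_pool_sql_team_seeded_63374d34.N550.KH.Supp
import Pool.Graph.R_pool_sql_team_seeded_63374d34.N550.KH.Null

/-!
# Preimages of open cells under tame maps
-/

set_option autoImplicit false
set_option linter.unusedSectionVars false

open Set Filter Topology Metric Function MeasureTheory
open scoped Manifold ContDiff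

noncomputable section

namespace Pool.Agent.H827.TM

open Pool.Agent.Y522 Pool.Agent.N550.KH Pool.Agent.H827.SF Pool.Agent.X175.SH

section

variable {n : ℕ} {M N : Type} [TopologicalSpace M] [CompactSpace M] [T2Space M]
  [ChartedSpace (E n) M] [IsManifold (𝓡 n) ∞ M] [TopologicalSpace N] [T2Space N]
  [ChartedSpace (E n) N] {f : M → N} {B : Set N}

/-- the preimage of a cell as an open submanifold -/
def cellO (hf : TMap n f B) {c : E n → N} (hl : ∀ z, LD n c z) : TopologicalSpace.Opens M :=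
  ⟨f ⁻¹' range c, (Two.open_range hl).preimage hf.cont⟩

/-- the coordinates -/
def cellH (hf : TMap n f B) {c : E n → N} (hl : ∀ z, LD n c z) : cellO hf hl → E n :=
  fun x => invFun c (f x)

variable (hf : TMap n f B) {c : E n → N} (hi : Injective c) (hl : ∀ z, LD n c z)

theorem cell_mem (x : cellO hf hl) : f x ∈ range c := x.2

theorem cell_app (x : cellO hf hl) : c (cellH hf hl x) = f x := Two.app_inv (cell_mem hf hl x)

include hi in
theorem cell_inv (x : cellO hf hl) : LD n (invFun c) (f x) := by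
  obtain ⟨z, hz⟩ := cell_mem hf hl x
  exact hz ▸ Two.ld_inv hi hl z

include hi in
theorem cell_iff (x : cellO hf hl) (z : E n) : cellH hf hl x = z ↔ f x = c z := by
  rw [← cell_app hf hl x]
  exact ⟨fun h => congrArg c h, fun h => hi h⟩

include hi in
theorem cell_cont : Continuous (cellH hf hl) := by
  rw [continuous_iff_continuousAt]
  intro x
  exact ContinuousAt.comp (g := invFun c) (f := fun x : cellO hf hl => f x)
    (cell_inv hf hi hl x).continuousAt (hf.cont.comp continuous_subtype_val).continuousAt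

include hi in
theorem cell_smooth (x : cellO hf hl) (hx : f x ∉ B) :
    ContMDiffAt (𝓡 n) (𝓡 n) ∞ (cellH hf hl) x := by
  refine ContMDiffAt.comp (g := invFun c) (f := fun x : cellO hf hl => f x) x
    (cell_inv hf hi hl x).contMDiffAt ?_
  exact ContMDiffAt.comp (g := f) x (hf.smooth x hx) (Pool.Agent.R769.LD_val _ x).contMDiffAt

include hi in
theorem cell_pre (K : Set (E n)) :
    (Subtype.val '' (cellH hf hl ⁻¹' K) : Set M) = f ⁻¹' (c '' K) := by
  ext x
  constructor
  · rintro ⟨s, hs, rfl⟩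
    exact ⟨_, hs, cell_app hf hl s⟩
  · rintro ⟨z, hz, hzx⟩
    have hx : x ∈ cellO hf hl := ⟨z, hzx⟩
    refine ⟨⟨x, hx⟩, ?_, rfl⟩
    rw [mem_preimage, (cell_iff hf hi hl ⟨x, hx⟩ z).2 hzx.symm]
    exact hz

include hi in
theorem cell_proper : IsProperMap (cellH hf hl) := by
  rw [isProperMap_iff_isCompact_preimage]
  refine ⟨cell_cont hf hi hl, fun K hK => ?_⟩
  rw [Subtype.isCompact_iff, cell_pre hf hi hl]
  exact ((hK.image (Two.cont_of_ld hl)).isClosed.preimage hf.cont).isCompact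

include hi in
theorem cell_surj : Surjective (cellH hf hl) := by
  intro z
  obtain ⟨x, hx⟩ := hf.surj (c z)
  have hx' : x ∈ cellO hf hl := ⟨z, hx.symm⟩
  exact ⟨⟨x, hx'⟩, (cell_iff hf hi hl _ z).2 hx⟩

include hi in
theorem cell_fib (z : E n) : cellH hf hl ⁻¹' {z} = Subtype.val ⁻¹' (f ⁻¹' {c z}) := by
  ext x
  exact cell_iff hf hi hl x z

include hi in
theorem cell_uemb (z : E n) (hz : c z ∉ B) : UEmb n (cellH hf hl ⁻¹' {z}) := by
  rw [cell_fib hf hi hl]
  refine (hf.tame _ hz).comap Subtype.val IsEmbedding.subtypeVal contMDiff_subtype_val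
    (fun u => (Pool.Agent.R769.LD_val _ u).mfderiv_injective) ?_
  intro x hx
  exact ⟨⟨x, ⟨z, hx.symm⟩⟩, rfl⟩

include hi in
theorem cell_emb (z : E n) (hz : c z ∈ B) : Emb n (cellH hf hl ⁻¹' {z}) := by
  rw [cell_fib hf hi hl]
  obtain ⟨U, q, hU, hFU, hq, hqL⟩ := hf.emb _ hz
  refine ⟨Subtype.val ⁻¹' U, fun x => q x, hU.preimage continuous_subtype_val,
    fun x hx => hFU hx, fun x hx y hy hxy => Subtype.ext (hq hx hy hxy), fun x hx => ?_⟩
  exact Pool.Agent.R769.LD_restrict _ (hqL _ hx)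

end

/-- **The preimage of an open cell is an open cell.** -/
theorem cell {m : ℕ} {M N : Type} [TopologicalSpace M] [CompactSpace M] [T2Space M]
    [ChartedSpace (E (m + 1)) M] [IsManifold (𝓡 (m + 1)) ∞ M] [TopologicalSpace N] [T2Space N]
    [ChartedSpace (E (m + 1)) N] (f : M → N) (B : Set N) (hf : TMap (m + 1) f B)
    (c : E (m + 1) → N) (hi : Injective c) (hl : ∀ z, LD (m + 1) c z) :
    ∃ c' : E (m + 1) → M, Injective c' ∧ (∀ z, LD (m + 1) c' z) ∧ range c' = f ⁻¹' range c := by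
  obtain ⟨-, ⟨Φ⟩⟩ := thinS (sft m) (cellH hf hl) (cell_proper hf hi hl) (cell_surj hf hi hl)
    (c ⁻¹' B) (hf.closed.preimage (Two.cont_of_ld hl)) (thin_of_null (hf.null c hi hl))
    (fun y hy => cell_uemb hf hi hl y hy)
    (fun x hx => cell_smooth hf hi hl x (by rw [← cell_app hf hl x]; exact hx))
    (fun y hy => cell_emb hf hi hl y hy)
  refine ⟨fun z => (Φ.symm z : M), Subtype.val_injective.comp Φ.symm.injective, fun z => ?_, ?_⟩
  · exact LD.comp_fun (g := (Subtype.val : cellO hf hl → M)) (Pool.Agent.R769.LD_val _ _)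
      (Φ.symm.isLocalDiffeomorph z)
  · ext x
    constructor
    · rintro ⟨z, rfl⟩
      exact cell_mem hf hl (Φ.symm z)
    · intro hx
      exact ⟨Φ ⟨x, hx⟩, by simp⟩

/-- **The map can be made good over a given closed ball.** -/
theorem zero_step {n : ℕ} (hn : 0 < n) {M N : Type} [TopologicalSpace M] [CompactSpace M]
    [T2Space M] [ChartedSpace (E n) M] [IsManifold (𝓡 n) ∞ M] [TopologicalSpace N] [T2Space N]
    [ChartedSpace (E n) N] [IsManifold (𝓡 n) ∞ N] (f : M → N) (B : Set N) (hf : TMap n f B)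
    (b : E n → N) (hi : Injective b) (hl : ∀ z, LD n b z) (R : ℝ) :
    ∃ (f' : M → N) (B' : Set N), TMap n f' B' ∧ ∀ y ∈ b '' closedBall 0 R, Good n f' y := by
  have hσ : SecondCountableTopology M := ChartedSpace.secondCountable_of_sigmaCompact (E n) M
  have hbc : Continuous b := Two.cont_of_ld hl
  obtain ⟨z, -, hz⟩ := Zero.exists_notMem hn (hf.null b hi hl)
  obtain ⟨z₀, hz₀, ε, hε, hball, hreg⟩ := regular_dense (cellH hf hl) (cell_proper hf hi hl)
    (b ⁻¹' B)ᶜ (hf.closed.preimage hbc).isOpen_compl ⟨z, hz⟩ (fun x hx =>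
      cell_smooth hf hi hl x (by rw [← cell_app hf hl x]; exact hx))
  have hgood : ∀ w ∈ ball z₀ ε, Good n f (b w) := by
    intro w hw x hx
    have hx' : x ∈ cellO hf hl := ⟨w, hx.symm⟩
    have hL : LD n (cellH hf hl) ⟨x, hx'⟩ := hreg w hw _ ((cell_iff hf hi hl _ w).2 hx)
    refine ⟨?_, fun x' hx'' => ?_⟩
    · have h1 : LD n (fun y : cellO hf hl => b (cellH hf hl y)) ⟨x, hx'⟩ :=
        LD.comp_fun (g := b) (hl _) hL
      have h2 : (fun y : cellO hf hl => b (cellH hf hl y)) = fun y : cellO hf hl => f y.1 :=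
        funext fun y => cell_app hf hl y
      rw [h2] at h1
      exact Pool.Agent.R769.LD_of_restrict _ h1
    · have h1 := fibre_singleton (cellH hf hl) w (cell_uemb hf hi hl w (hball hw))
        (fun x hx => hreg w hw x hx)
      have hx3 : x' ∈ cellO hf hl := ⟨w, hx''.symm⟩
      have h2 : (⟨x', hx3⟩ : cellO hf hl) = ⟨x, hx'⟩ :=
        h1 ((cell_iff hf hi hl _ w).2 hx'') ((cell_iff hf hi hl _ w).2 hx)
      exact congrArg Subtype.val h2
  obtain ⟨κ, hκ, hκs, hκb⟩ := Shift.main.2.2 n z₀ ε R hε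
  obtain ⟨K, hK, hKb, -⟩ := Supp.main n N b hi hl κ hκ hκs
  refine ⟨fun x => K (f x), K '' B, hf.comp hK, ?_⟩
  rintro _ ⟨y, hy, rfl⟩
  obtain ⟨w, hw, rfl⟩ := hκb hy
  rw [← hKb]
  exact (hgood w hw).comp hK

end Pool.Agent.H827.TM
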