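import Pool.Agent.H827.TM.Basic
import Pool.Graph.R_pool_sql_team_seeded_63374d34.N550.KH.Core

/-!
# The preimage of a disc under a tame map

Adaptation of the library module `N550.KH.Core` to maps whose fibres are universally embeddable.
-/

set_option autoImplicit false
set_option linter.unusedSectionVars false

open Set Filter Topology Metric Function MeasureTheory
open scoped Manifold ContDiff

noncomputable section

namespace Pool.Agent.H827.TM

open Pool.Agent.Y522 Pool.Agent.N550.KH Pool.Agent.H827.SF Pool.Agent.N550.KH.Core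

/-- codimension zero -/
theorem core_base {m : ℕ} {X : Type} [TopologicalSpace X] [T2Space X] [ChartedSpace (E m) X]
    [IsManifold (𝓡 m) ∞ X] (Z : Set X) (hZ : IsOpen Z) (t : X → E m)
    (ht : ∀ x ∈ Z, ContMDiffAt (𝓡 m) (𝓡 m) ∞ t x)
    (hc : ∀ K : Set (E m), IsCompact K → IsCompact (Z ∩ t ⁻¹' K))
    (hs : ∀ y, ∃ x ∈ Z, t x = y) (hu : ∀ y, UEmb m (Z ∩ t ⁻¹' {y})) :
    ∃ j : E m → X, IsEmbedding j ∧ ContMDiff (𝓡 m) (𝓡 m) ∞ j ∧
      (∀ s, Injective (mfderiv (𝓡 m) (𝓡 m) j s)) ∧ range j = Z := by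
  let U : TopologicalSpace.Opens X := ⟨Z, hZ⟩
  have hval : ∀ u : U, LD m (Subtype.val : U → X) u := fun u => Pool.Agent.R769.LD_val U u
  have hHs : ContMDiff (𝓡 m) (𝓡 m) ∞ (fun s : U => t s) := by
    intro s
    exact ContMDiffAt.comp (g := t) s (ht s s.2) (hval s).contMDiffAt
  have hHp : IsProperMap (fun s : U => t s) := by
    rw [isProperMap_iff_isCompact_preimage]
    refine ⟨hHs.continuous, fun K hK => ?_⟩
    rw [Subtype.isCompact_iff]
    have h1 : (Subtype.val '' ((fun s : U => t s) ⁻¹' K) : Set X) = Z ∩ t ⁻¹' K := by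
      ext x
      constructor
      · rintro ⟨s, hs, rfl⟩
        exact ⟨s.2, hs⟩
      · rintro ⟨hx, hxK⟩
        exact ⟨⟨x, hx⟩, hxK, rfl⟩
    rw [h1]
    exact hc K hK
  have hHsu : Surjective (fun s : U => t s) := by
    intro y
    obtain ⟨x, hx, hxy⟩ := hs y
    exact ⟨⟨x, hx⟩, hxy⟩
  obtain ⟨Φ⟩ := sft m U (fun s : U => t s) hHp hHsu hHs (fun y => by
    have h1 : (fun s : U => t s) ⁻¹' {y} = (Subtype.val : U → X) ⁻¹' (Z ∩ t ⁻¹' {y}) := by
      ext s
      exact ⟨fun h => ⟨s.2, h⟩, fun h => h.2⟩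
    rw [h1]
    refine (hu y).comap Subtype.val IsEmbedding.subtypeVal contMDiff_subtype_val
      (fun u => (hval u).mfderiv_injective) ?_
    rintro x ⟨hx, -⟩
    exact ⟨⟨x, hx⟩, rfl⟩)
  have hj : ∀ y, LD m (fun y => (Φ.symm y : X)) y := fun y =>
    LD.comp_fun (hval (Φ.symm y)) (Φ.symm.isLocalDiffeomorph y)
  refine ⟨fun y => (Φ.symm y : X), IsEmbedding.subtypeVal.comp Φ.symm.toHomeomorph.isEmbedding,
    fun y => (hj y).contMDiffAt, fun y => (hj y).mfderiv_injective, ?_⟩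
  have e1 : (fun y => ((Φ.symm y : U) : X)) = Subtype.val ∘ Φ.symm := rfl
  have e2 : range (Φ.symm : E m → U) = univ :=
    Set.eq_univ_of_forall fun y => ⟨Φ y, Φ.symm_apply_apply y⟩
  rw [e1, range_comp, e2, image_univ, Subtype.range_val]
  rfl

/-- the induction -/
theorem core_ind (m : ℕ) : ∀ (k n : ℕ), n = m + k → ∀ (X : Type) [TopologicalSpace X] [T2Space X]
    [ChartedSpace (E n) X] [IsManifold (𝓡 n) ∞ X] (v : X → E k) (Z : Set X), Hyp n k v Z →
    ∀ (t : X → E m), (∀ x ∈ Z, ContMDiffAt (𝓡 n) (𝓡 m) ∞ t x) →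
    (∀ K : Set (E m), IsCompact K → IsCompact (Z ∩ t ⁻¹' K)) →
    (∀ y, ∃ x ∈ Z, t x = y) → (∀ y, UEmb n (Z ∩ t ⁻¹' {y})) →
    ∃ j : E m → X, IsEmbedding j ∧ ContMDiff (𝓡 m) (𝓡 n) ∞ j ∧
      (∀ s, Injective (mfderiv (𝓡 m) (𝓡 n) j s)) ∧ range j = Z := by
  intro k
  induction k with
  | zero =>
    intro n hn X _ _ _ _ v Z h t ht hc hs hu
    obtain rfl : n = m := hn
    have hZ : IsOpen Z := by
      rw [isOpen_iff_mem_nhds]
      intro x hx
      filter_upwards [h.loc x hx] with y hy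
      exact hy.2 (Subsingleton.elim _ _)
    exact core_base Z hZ t ht hc hs hu
  | succ k ih =>
    intro n hn X _ _ _ _ v Z h t ht hc hs hu
    obtain rfl : n = (m + k) + 1 := hn
    obtain ⟨S, cs, hmf, hv1, hv2, hZS, h'⟩ := step v Z h
    have hpre : ∀ K : Set (E m), (Subtype.val : S → X) ⁻¹' Z ∩ (fun s : S => t s) ⁻¹' K =
        (Subtype.val : S → X) ⁻¹' (Z ∩ t ⁻¹' K) := fun K => rfl
    obtain ⟨j, hj1, hj2, hj3, hj4⟩ := ih (m + k) rfl S (fun s : S => (tl (v s) : E k))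
      ((Subtype.val : S → X) ⁻¹' Z) h' (fun s => t s) (fun s hs =>
        ContMDiffAt.comp (g := t) s (ht s hs) (hv1 s)) (fun K hK => by
          rw [hpre, Subtype.isCompact_iff, Subtype.image_preimage_coe,
            inter_eq_self_of_subset_right (inter_subset_left.trans hZS)]
          exact hc K hK) (fun y => by
          obtain ⟨x, hx, hxy⟩ := hs y
          exact ⟨⟨x, hZS hx⟩, hx, hxy⟩) (fun y => by
          rw [hpre]
          refine (hu y).comap Subtype.val IsEmbedding.subtypeVal hv1 hv2 ?_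
          rw [Subtype.range_val]
          exact inter_subset_left.trans hZS)
    refine ⟨fun y => (j y : X), IsEmbedding.subtypeVal.comp hj1, hv1.comp hj2, ?_, ?_⟩
    · intro s
      have h3 : mfderiv (𝓡 m) (𝓡 (m + k + 1)) (fun y => (j y : X)) s =
          (mfderiv (𝓡 (m + k)) (𝓡 (m + k + 1)) (Subtype.val : S → X) (j s)).comp
            (mfderiv (𝓡 m) (𝓡 (m + k)) j s) :=
        mfderiv_comp s (hv1.mdifferentiableAt (by simp)) (hj2.mdifferentiableAt (by simp))
      rw [h3]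
      exact (hv2 (j s)).comp (hj3 s)
    · have e1 : (fun y => ((j y : S) : X)) = Subtype.val ∘ j := rfl
      rw [e1, range_comp, hj4, Subtype.image_preimage_coe, inter_eq_self_of_subset_right hZS]

/-- **The preimage of the core disc of a handle is an embedded open disc.** -/
theorem core {m k : ℕ} {M N : Type} [TopologicalSpace M] [CompactSpace M] [T2Space M]
    [ChartedSpace (E (m + k)) M] [IsManifold (𝓡 (m + k)) ∞ M] [TopologicalSpace N] [T2Space N]
    [ChartedSpace (E (m + k)) N] (f : M → N) (B : Set N) (hf : TMap (m + k) f B)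
    (h : E (m + k) → N) (hi : Injective h) (hl : ∀ z, LD (m + k) h z)
    (h1 : ∀ x, f x ∈ range h → vp m k (invFun h (f x)) = 0 → ‖up m k (invFun h (f x))‖ < 2 →
      f x ∉ B ∧ Surjective (mfderiv (𝓡 (m + k)) (𝓡 k) (fun y => vp m k (invFun h (f y))) x)) :
    ∃ j : E m → M, IsEmbedding j ∧ ContMDiff (𝓡 m) (𝓡 (m + k)) ∞ j ∧
      (∀ s, Injective (mfderiv (𝓡 m) (𝓡 (m + k)) j s)) ∧
      range j = {x | f x ∈ range h ∧ vp m k (invFun h (f x)) = 0 ∧
        ‖up m k (invFun h (f x))‖ < 2} := by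
  set F : M → E (m + k) := fun x => invFun h (f x) with hF
  set Z : Set M := {x | f x ∈ range h ∧ vp m k (F x) = 0 ∧ ‖up m k (F x)‖ < 2} with hZdef
  have hro : IsOpen (range h) := Two.open_range hl
  have hFs : ∀ x, f x ∈ range h → f x ∉ B → ContMDiffAt (𝓡 (m + k)) (𝓡 (m + k)) ∞ F x := by
    intro x hx hxB
    obtain ⟨z, hz⟩ := hx
    have h2 : LD (m + k) (invFun h) (f x) := hz ▸ Two.ld_inv hi hl z
    exact ContMDiffAt.comp (g := invFun h) x h2.contMDiffAt (hf.smooth x hxB)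
  have hFc : ∀ x, f x ∈ range h → ContinuousAt F x := by
    intro x hx
    obtain ⟨z, hz⟩ := hx
    have h2 : LD (m + k) (invFun h) (f x) := hz ▸ Two.ld_inv hi hl z
    exact ContinuousAt.comp (g := invFun h) h2.continuousAt hf.cont.continuousAt
  have hev : ∀ x, f x ∈ range h → f x ∉ B → ∀ᶠ y in 𝓝 x, f y ∈ range h ∧ f y ∉ B := by
    intro x hx hxB
    exact hf.cont.continuousAt.eventually_mem
      (inter_mem (hro.mem_nhds hx) (hf.closed.isOpen_compl.mem_nhds hxB))
  have hvs : ∀ x ∈ Z, ∀ᶠ y in 𝓝 x, ContMDiffAt (𝓡 (m + k)) (𝓡 k) ∞ (fun y => vp m k (F y)) y := by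
    intro x hx
    filter_upwards [hev x hx.1 (h1 x hx.1 hx.2.1 hx.2.2).1] with y hy
    exact ContMDiffAt.comp (g := (vp m k : E (m + k) → E k)) y
      (vp m k).contMDiff.contMDiffAt (hFs y hy.1 hy.2)
  have hhyp : Hyp (m + k) k (fun y => vp m k (F y)) Z := by
    refine ⟨hvs, fun x hx => (h1 x hx.1 hx.2.1 hx.2.2).2, fun x hx => ?_⟩
    have hc : ContinuousAt F x := hFc x hx.1
    have h1 : ∀ᶠ y in 𝓝 x, ‖up m k (F y)‖ < 2 := by
      have hc' : ContinuousAt (fun y => ‖up m k (F y)‖) x :=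
        ((up m k).continuous.continuousAt.comp hc).norm
      exact hc'.eventually (gt_mem_nhds hx.2.2)
    filter_upwards [h1, hf.cont.continuousAt.eventually (hro.mem_nhds hx.1)] with y h2 h3
    exact ⟨fun h4 => h4.2.1, fun h4 => ⟨h3, h4, h2⟩⟩
  set B' : OpenPartialHomeomorph (E m) (E m) := OpenPartialHomeomorph.univUnitBall with hB'
  have hBs : B'.source = univ := OpenPartialHomeomorph.univUnitBall_source
  have hBt : B'.target = ball 0 1 := OpenPartialHomeomorph.univUnitBall_target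
  have hBlt : ∀ y, ‖B' y‖ < 1 := by
    intro y
    have := B'.map_source (x := y) (by rw [hBs]; exact mem_univ _)
    rw [hBt, mem_ball_zero_iff] at this
    exact this
  have hhalf : ∀ x ∈ Z, (1 / 2 : ℝ) • up m k (F x) ∈ ball (0 : E m) 1 := by
    intro x hx
    rw [mem_ball_zero_iff, norm_smul]
    have := hx.2.2
    norm_num
    linarith
  have hBc : Continuous B' := OpenPartialHomeomorph.contDiff_univUnitBall (n := 0).continuous
  -- the map into the space, in the parameters of the disc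
  set ψ : E m → N := fun y => h (jn m k ((2 : ℝ) • B' y) 0) with hψ
  have hψc : Continuous ψ :=
    (Two.cont_of_ld hl).comp ((continuous_jn m k).comp (hBc.const_smul (2 : ℝ)))
  have ht : ∀ x ∈ Z, ∀ y, B'.symm ((1 / 2 : ℝ) • up m k (F x)) = y ↔ f x = ψ y := by
    intro x hx y
    constructor
    · intro hxy
      rw [← hxy]
      show f x = h (jn m k ((2 : ℝ) • B' (B'.symm ((1 / 2 : ℝ) • up m k (F x)))) 0)
      rw [B'.right_inv (by rw [hBt]; exact hhalf x hx), smul_smul]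
      norm_num
      have h1 : jn m k (up m k (F x)) 0 = F x := by
        rw [← hx.2.1, jn_up_vp]
      rw [h1]
      exact (Two.app_inv hx.1).symm
    · intro hxy
      have h2 : F x = jn m k ((2 : ℝ) • B' y) 0 := by
        show invFun h (f x) = _
        rw [hxy, Two.inv_app hi]
      rw [h2, up_jn, smul_smul]
      norm_num
      exact B'.left_inv (by rw [hBs]; exact mem_univ _)
  have hψZ : ∀ x y, f x = ψ y → x ∈ Z := by
    intro x y hxy
    have h2 : F x = jn m k ((2 : ℝ) • B' y) 0 := by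
      show invFun h (f x) = _
      rw [hxy, Two.inv_app hi]
    refine ⟨?_, ?_, ?_⟩
    · rw [hxy]
      exact mem_range_self _
    · rw [h2, vp_jn]
    · rw [h2, up_jn, norm_smul]
      have := hBlt y
      norm_num
      linarith
  have hpre : ∀ K : Set (E m), Z ∩ (fun x => B'.symm ((1 / 2 : ℝ) • up m k (F x))) ⁻¹' K =
      f ⁻¹' (ψ '' K) := by
    intro K
    ext x
    constructor
    · rintro ⟨hx, hxK⟩
      exact ⟨_, hxK, ((ht x hx _).1 rfl).symm⟩
    · rintro ⟨y, hy, hyx⟩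
      have hx : x ∈ Z := hψZ x y hyx.symm
      refine ⟨hx, ?_⟩
      show B'.symm ((1 / 2 : ℝ) • up m k (F x)) ∈ K
      rw [(ht x hx y).2 hyx.symm]
      exact hy
  refine core_ind m k (m + k) rfl M (fun y => vp m k (F y)) Z hhyp
    (fun x => B'.symm ((1 / 2 : ℝ) • up m k (F x))) ?_ ?_ ?_ ?_
  · intro x hx
    have h1 : ContMDiffAt (𝓡 (m + k)) (𝓡 (m + k)) ∞ F x :=
      hFs x hx.1 (h1 x hx.1 hx.2.1 hx.2.2).1
    have h2 : ContMDiffAt (𝓡 (m + k)) (𝓡 m) ∞ (fun x => (1 / 2 : ℝ) • up m k (F x)) x :=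
      ContMDiffAt.comp (g := (((1 / 2 : ℝ) • up m k : E (m + k) →L[ℝ] E m) : E (m + k) → E m)) x
        (ContinuousLinearMap.contMDiff _).contMDiffAt h1
    have h3 : ContMDiffAt (𝓡 m) (𝓡 m) ∞ (B'.symm : E m → E m) ((1 / 2 : ℝ) • up m k (F x)) :=
      ((OpenPartialHomeomorph.contDiffOn_univUnitBall_symm (n := ⊤)).contDiffAt
        (isOpen_ball.mem_nhds (hhalf x hx))).contMDiffAt
    exact ContMDiffAt.comp (g := (B'.symm : E m → E m)) x h3 h2
  · intro K hK
    rw [hpre]
    exact ((hK.image hψc).isClosed.preimage hf.cont).isCompact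
  · intro y
    obtain ⟨x, hx⟩ := hf.surj (ψ y)
    exact ⟨x, hψZ x y hx, (ht x (hψZ x y hx) y).2 hx⟩
  · intro y
    rw [hpre, image_singleton]
    refine hf.tame _ ?_
    obtain ⟨x, hx⟩ := hf.surj (ψ y)
    have hxZ := hψZ x y hx
    rw [← hx]
    exact (h1 x hxZ.1 hxZ.2.1 hxZ.2.2).1

end Pool.Agent.H827.TM
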