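import Pool.Graph.R_pool_sql_team_seeded_63374d34.N550.TS.Int
import Pool.Graph.R_pool_sql_team_seeded_63374d34.N550.TS.Flat

/-!
# Interpolation between the identity and a family of maps with compact support

Adaptation of the library module `N550.TS.Int` to maps which need not be injective, in all
dimensions `m`. For every parameter the interpolating map is a bijection, or a rescaled copy of the
given map followed by a bijection.
-/

set_option autoImplicit false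

open Set Filter Topology Metric Function MeasureTheory
open scoped Manifold ContDiff

noncomputable section

namespace Pool.Agent.H827.TM

open Pool.Agent.Y522 Pool.Agent.N550.KH Pool.Agent.N550.TS.Int

/-- flattened rescaling -/
theorem flat {m k : ℕ} (u : E m → E k → E m) (ρ : ℝ)
    (hu : ContDiff ℝ ∞ (fun p : E m × E k => u p.1 p.2)) (h0 : ∀ x w, ρ ≤ ‖x‖ → u x w = 0) :
    ContDiff ℝ ∞ (fun p : E m × ℝ × E k =>
      expNegInvGlue p.2.1 • p.2.1 • u (p.2.1⁻¹ • p.1) p.2.2) := by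
  rw [contDiff_infty]
  intro n
  have h1 := Pool.Agent.N550.TS.Flat.contDiff_Ph n (E m) 0 (fun p : E m × E k => u p.1 p.2) hu ρ
    (fun x w hx => h0 x w hx)
  have h2 : (fun p : E m × ℝ × E k =>
      expNegInvGlue p.2.1 • p.2.1 • u (p.2.1⁻¹ • p.1) p.2.2) =
      fun p : E m × ℝ × E k =>
        p.2.1 • Pool.Agent.N550.TS.Flat.Ph 0 (fun p : E m × E k => u p.1 p.2) p := by
    ext1 p
    simp only [Pool.Agent.N550.TS.Flat.Ph, Pool.Agent.N550.TS.Flat.sc, pow_zero, one_mul]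
    rw [smul_comm]
  rw [h2]
  exact (contDiff_fst.comp contDiff_snd).smul h1

/-- the map `y ↦ A (y + s u (y / s))` glued with a radial map -/
theorem glue {V : Type*} [NormedAddCommGroup V] [NormedSpace ℝ V] (u : V → V) (ρ₁ ρ₂ s A : ℝ)
    (h1 : 0 < ρ₁) (h12 : ρ₁ < ρ₂) (hs0 : 0 < s) (hs1 : s ≤ 1) (hA0 : 0 < A) (hA1 : A ≤ 1)
    (hu : ∀ x, ρ₁ ≤ ‖x‖ → u x = 0) (hball : ∀ x, ‖x‖ ≤ ρ₁ → ‖x + u x‖ ≤ ρ₁) :
    ∃ R : V → V, Bijective R ∧ (∀ y, ρ₂ ≤ ‖y‖ → R y = y) ∧ ∀ y : V,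
      (A + (1 - A) * Real.smoothTransition ((‖y‖ ^ 2 - s ^ 2 * ρ₁ ^ 2) / (ρ₂ ^ 2 - ρ₁ ^ 2))) • y +
        (A * s) • u (s⁻¹ • y) = R (y + s • u (s⁻¹ • y)) := by
  have hden : 0 < ρ₂ ^ 2 - ρ₁ ^ 2 := by nlinarith
  set m : ℝ → ℝ := fun t =>
    A + (1 - A) * Real.smoothTransition ((t ^ 2 - s ^ 2 * ρ₁ ^ 2) / (ρ₂ ^ 2 - ρ₁ ^ 2)) with hm
  have hm1 : ∀ t, ρ₂ ≤ t → m t = 1 := by
    intro t ht
    simp only [hm]
    have h3 : 1 ≤ (t ^ 2 - s ^ 2 * ρ₁ ^ 2) / (ρ₂ ^ 2 - ρ₁ ^ 2) := by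
      rw [le_div_iff₀ hden]
      have h4 : ρ₂ ^ 2 ≤ t ^ 2 := pow_le_pow_left₀ (by linarith) ht 2
      have h5 : s ^ 2 * ρ₁ ^ 2 ≤ 1 * ρ₁ ^ 2 :=
        mul_le_mul_of_nonneg_right (pow_le_one₀ hs0.le hs1) (by positivity)
      linarith
    rw [Real.smoothTransition.one_of_one_le h3]
    ring
  -- the radial map
  have hR : Bijective fun y : V => m ‖y‖ • y := by
    refine rad_bij m ?_ ?_ ?_ ρ₂ hm1
    · have := Real.smoothTransition.continuous
      fun_prop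
    · intro t t' ht htt
      have h3 : Real.smoothTransition ((t ^ 2 - s ^ 2 * ρ₁ ^ 2) / (ρ₂ ^ 2 - ρ₁ ^ 2)) ≤
          Real.smoothTransition ((t' ^ 2 - s ^ 2 * ρ₁ ^ 2) / (ρ₂ ^ 2 - ρ₁ ^ 2)) := by
        apply Real.smoothTransition.monotone
        have h4 : t ^ 2 ≤ t' ^ 2 := pow_le_pow_left₀ ht htt 2
        exact div_le_div_of_nonneg_right (by linarith) hden.le
      have h5 : 0 ≤ 1 - A := by linarith
      have := mul_le_mul_of_nonneg_left h3 h5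
      simp only [hm]
      linarith
    · intro t ht
      have h3 := Real.smoothTransition.nonneg ((t ^ 2 - s ^ 2 * ρ₁ ^ 2) / (ρ₂ ^ 2 - ρ₁ ^ 2))
      have h4 : 0 ≤ 1 - A := by linarith
      have := mul_nonneg h4 h3
      simp only [hm]
      linarith
  have hmul : ∀ y : V, ‖y‖ ≤ s * ρ₁ → m ‖y‖ = A := by
    intro y hy
    simp only [hm]
    have h3 : (‖y‖ ^ 2 - s ^ 2 * ρ₁ ^ 2) / (ρ₂ ^ 2 - ρ₁ ^ 2) ≤ 0 := by
      apply div_nonpos_of_nonpos_of_nonneg _ hden.le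
      have h4 : ‖y‖ ^ 2 ≤ (s * ρ₁) ^ 2 := pow_le_pow_left₀ (norm_nonneg _) hy 2
      rw [mul_pow] at h4
      linarith
    rw [Real.smoothTransition.zero_of_nonpos h3]
    ring
  refine ⟨fun y => m ‖y‖ • y, hR, fun y hy => ?_, fun y => ?_⟩
  · simp only [hm1 _ hy, one_smul]
  · have hmy : A + (1 - A) *
        Real.smoothTransition ((‖y‖ ^ 2 - s ^ 2 * ρ₁ ^ 2) / (ρ₂ ^ 2 - ρ₁ ^ 2)) = m ‖y‖ := rfl
    rw [hmy]
    by_cases hy : ‖y‖ ≤ s * ρ₁
    · have h3 : ‖s⁻¹ • y‖ ≤ ρ₁ := by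
        rw [norm_smul, Real.norm_eq_abs, abs_of_pos (inv_pos.2 hs0), inv_mul_le_iff₀ hs0]
        exact hy
      have h4 := hball _ h3
      have h5 : y + s • u (s⁻¹ • y) = s • (s⁻¹ • y + u (s⁻¹ • y)) := by
        rw [smul_add, smul_smul, mul_inv_cancel₀ hs0.ne', one_smul]
      have h6 : ‖y + s • u (s⁻¹ • y)‖ ≤ s * ρ₁ := by
        rw [h5, norm_smul, Real.norm_eq_abs, abs_of_pos hs0]
        exact mul_le_mul_of_nonneg_left h4 hs0.le
      simp only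
      rw [hmul y hy, hmul _ h6, smul_add, smul_smul]
    · rw [not_le] at hy
      have h3 : ρ₁ ≤ ‖s⁻¹ • y‖ := by
        rw [norm_smul, Real.norm_eq_abs, abs_of_pos (inv_pos.2 hs0), ← div_eq_inv_mul,
          le_div_iff₀ hs0]
        linarith
      simp only
      rw [hu _ h3, smul_zero, smul_zero, add_zero, add_zero]

/-- the radial part alone -/
theorem rad {V : Type*} [NormedAddCommGroup V] [NormedSpace ℝ V] (ρ₁ ρ₂ A : ℝ)
    (h1 : 0 < ρ₁) (h12 : ρ₁ < ρ₂) (hA0 : 0 ≤ A) (hA1 : A ≤ 1) :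
    Bijective fun y : V =>
      (A + (1 - A) * Real.smoothTransition ((‖y‖ ^ 2 - (0 : ℝ) ^ 2 * ρ₁ ^ 2) /
        (ρ₂ ^ 2 - ρ₁ ^ 2))) • y := by
  have h := glue_bij (V := V) (fun _ => 0) ρ₁ ρ₂ 0 A h1 h12 le_rfl zero_le_one hA0 hA1
    (Or.inr rfl) (fun _ _ => rfl) (by
      have : (fun x : V => x + (0 : V)) = id := by
        funext x
        simp
      rw [this]
      exact bijective_id)
  have e : (fun y : V => (A + (1 - A) * Real.smoothTransition ((‖y‖ ^ 2 - (0 : ℝ) ^ 2 * ρ₁ ^ 2) /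
        (ρ₂ ^ 2 - ρ₁ ^ 2))) • y + (A * 0) • (fun _ : V => (0 : V)) ((0 : ℝ)⁻¹ • y)) =
      fun y : V => (A + (1 - A) * Real.smoothTransition ((‖y‖ ^ 2 - (0 : ℝ) ^ 2 * ρ₁ ^ 2) /
        (ρ₂ ^ 2 - ρ₁ ^ 2))) • y := by
    funext y
    simp
  rw [e] at h
  exact h

/-- **Interpolation.** -/
theorem interpolate {m k : ℕ} (u : E m → E k → E m) (ρ₁ ρ₂ ε : ℝ) (h1 : 0 < ρ₁) (h12 : ρ₁ < ρ₂)
    (hε : 0 < ε) (hu : ContDiff ℝ ∞ (fun p : E m × E k => u p.1 p.2))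
    (hu0 : ∀ x w, ρ₁ ≤ ‖x‖ → u x w = 0)
    (hball : ∀ w, ‖w‖ ≤ ε → ∀ x, ‖x‖ ≤ ρ₁ → ‖x + u x w‖ ≤ ρ₁) :
    ∃ (ψ : E m → E k → E m) (a : ℝ), 0 < a ∧ a < ε / 2 ∧
      ContDiff ℝ ∞ (fun p : E m × E k => ψ p.1 p.2) ∧
      (∀ w, ‖w‖ ≤ ε → (Bijective fun y => ψ y w) ∨ ∃ s : ℝ, 0 < s ∧ s ≤ 1 ∧ ∃ R : E m → E m,
        Bijective R ∧ (∀ y, ρ₂ ≤ ‖y‖ → R y = y) ∧ ∀ y, ψ y w = R (y + s • u (s⁻¹ • y) w)) ∧
      (∀ y w, ρ₂ ≤ ‖y‖ → ψ y w = y) ∧ (∀ y w, ‖w‖ ≤ a → ψ y w = y) ∧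
      ∀ y w, ε / 2 ≤ ‖w‖ → ψ y w = y + u y w := by
  have hden : 0 < ρ₂ ^ 2 - ρ₁ ^ 2 := by nlinarith
  -- the auxiliary functions
  set A₁ : E k → ℝ := fun w => 1 - cut k (ε / 16) (ε / 8) w with hA₁
  set σ : E k → ℝ := fun w => cut k (ε / 8) (ε / 4) w with hσ
  set κ : E k → ℝ := fun w => 1 + (Real.exp 1 - 1) * cut k (ε / 4) (ε / 2) w with hκ
  set A : E k → ℝ := fun w => A₁ w + expNegInvGlue (σ w) * κ w with hA
  set G : E m → E k → ℝ := fun y w =>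
    Real.smoothTransition ((‖y‖ ^ 2 - (σ w) ^ 2 * ρ₁ ^ 2) / (ρ₂ ^ 2 - ρ₁ ^ 2)) with hG
  have sA₁ : ContDiff ℝ ∞ A₁ := contDiff_const.sub (cut_smooth _ _ _)
  have sσ : ContDiff ℝ ∞ σ := cut_smooth _ _ _
  have sκ : ContDiff ℝ ∞ κ := contDiff_const.add (contDiff_const.mul (cut_smooth _ _ _))
  have sA : ContDiff ℝ ∞ A := sA₁.add ((expNegInvGlue.contDiff.comp sσ).mul sκ)
  have e8 : ε / 16 < ε / 8 := by linarith
  have e4 : ε / 8 < ε / 4 := by linarith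
  have e2 : ε / 4 < ε / 2 := by linarith
  have p16 : 0 < ε / 16 := by linarith
  have p8 : 0 < ε / 8 := by linarith
  have p4 : 0 < ε / 4 := by linarith
  have σ0 : ∀ w, ‖w‖ ≤ ε / 8 → σ w = 0 := fun w hw => cut_zero _ _ _ p8 e4 w hw
  have σ1 : ∀ w, ε / 4 ≤ ‖w‖ → σ w = 1 := fun w hw => cut_one _ _ _ p8 e4 w hw
  have σn : ∀ w, 0 ≤ σ w := fun w => cut_nonneg _ _ _ w
  have σl : ∀ w, σ w ≤ 1 := fun w => cut_le _ _ _ w
  have A₁0 : ∀ w, ε / 8 ≤ ‖w‖ → A₁ w = 0 := by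
    intro w hw
    simp only [hA₁]
    rw [cut_one _ _ _ p16 e8 w hw, sub_self]
  have A₁1 : ∀ w, ‖w‖ ≤ ε / 16 → A₁ w = 1 := by
    intro w hw
    simp only [hA₁]
    rw [cut_zero _ _ _ p16 e8 w hw, sub_zero]
  have hexp : (1 : ℝ) ≤ Real.exp 1 := Real.one_le_exp zero_le_one
  have κ1 : ∀ w, 1 ≤ κ w := by
    intro w
    have := mul_nonneg (by linarith : (0 : ℝ) ≤ Real.exp 1 - 1) (cut_nonneg k (ε / 4) (ε / 2) w)
    simp only [hκ]
    linarith
  have κe : ∀ w, κ w ≤ Real.exp 1 := by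
    intro w
    have := mul_le_mul_of_nonneg_left (cut_le k (ε / 4) (ε / 2) w)
      (by linarith : (0 : ℝ) ≤ Real.exp 1 - 1)
    simp only [hκ]
    linarith
  have κ2 : ∀ w, ε / 2 ≤ ‖w‖ → κ w = Real.exp 1 := by
    intro w hw
    simp only [hκ]
    rw [cut_one _ _ _ p4 e2 w hw]
    ring
  have ele : ∀ s : ℝ, s ≤ 1 → expNegInvGlue s ≤ Real.exp (-1) := by
    intro s hs
    rw [← e_one]
    exact expNegInvGlue.monotone hs
  have hee : Real.exp (-1) * Real.exp 1 = 1 := by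
    rw [← Real.exp_add]
    norm_num
  have hAle : ∀ w, 0 ≤ A w ∧ A w ≤ 1 := by
    intro w
    simp only [hA]
    rcases le_total ‖w‖ (ε / 8) with h | h
    · rw [σ0 w h, expNegInvGlue.zero, zero_mul, add_zero]
      constructor
      · simp only [hA₁]
        linarith [cut_le k (ε / 16) (ε / 8) w]
      · simp only [hA₁]
        linarith [cut_nonneg k (ε / 16) (ε / 8) w]
    · rw [A₁0 w h, zero_add]
      have h3 := κ1 w
      constructor
      · exact mul_nonneg (expNegInvGlue.nonneg _) (by linarith)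
      · rw [← hee]
        exact mul_le_mul (ele _ (σl w)) (κe w) (by linarith) (Real.exp_pos _).le
  have hAs : ∀ w, 0 < σ w → A w = expNegInvGlue (σ w) * κ w := by
    intro w hw
    simp only [hA]
    rcases le_total ‖w‖ (ε / 8) with h | h
    · rw [σ0 w h] at hw
      exact absurd hw (lt_irrefl _)
    · rw [A₁0 w h, zero_add]
  set ψ : E m → E k → E m := fun y w =>
    (A w + (1 - A w) * G y w) • y +
      κ w • (expNegInvGlue (σ w) • σ w • u ((σ w)⁻¹ • y) w) with hψ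
  refine ⟨ψ, ε / 16, p16, by linarith, ?_, ?_, ?_, ?_, ?_⟩
  · -- smoothness
    have s1 : ContDiff ℝ ∞ (fun p : E m × E k => A p.2) := sA.comp contDiff_snd
    have s2 : ContDiff ℝ ∞ (fun p : E m × E k => σ p.2) := sσ.comp contDiff_snd
    have s3 : ContDiff ℝ ∞ (fun p : E m × E k => κ p.2) := sκ.comp contDiff_snd
    have s4 : ContDiff ℝ ∞ (fun p : E m × E k => G p.1 p.2) := by
      simp only [hG]
      refine Real.smoothTransition.contDiff.comp ?_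
      refine ContDiff.div_const ?_ _
      exact ((contDiff_norm_sq ℝ).comp contDiff_fst).sub ((s2.pow 2).mul contDiff_const)
    have s5 : ContDiff ℝ ∞ (fun p : E m × E k =>
        expNegInvGlue (σ p.2) • σ p.2 • u ((σ p.2)⁻¹ • p.1) p.2) :=
      (flat u ρ₁ hu hu0).comp (contDiff_fst.prodMk (s2.prodMk contDiff_snd))
    exact ((s1.add ((contDiff_const.sub s1).mul s4)).smul contDiff_fst).add (s3.smul s5)
  · -- structure of the fibres
    intro w hw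
    rcases eq_or_lt_of_le (σn w) with h | h
    · left
      have h4 : (fun y => ψ y w) = fun y : E m =>
          (A w + (1 - A w) * Real.smoothTransition
            ((‖y‖ ^ 2 - (0 : ℝ) ^ 2 * ρ₁ ^ 2) / (ρ₂ ^ 2 - ρ₁ ^ 2))) • y := by
        funext y
        simp only [hψ, hG]
        rw [← h, expNegInvGlue.zero, zero_smul, smul_zero, add_zero]
      rw [h4]
      exact rad ρ₁ ρ₂ (A w) h1 h12 (hAle w).1 (hAle w).2
    · right
      have hApos : 0 < A w := by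
        rw [hAs w h]
        exact mul_pos (expNegInvGlue.pos_of_pos h) (by linarith [κ1 w])
      obtain ⟨R, hR1, hR2, hR3⟩ := glue (fun x => u x w) ρ₁ ρ₂ (σ w) (A w) h1 h12 h (σl w) hApos
        (hAle w).2 (fun x hx => hu0 x w hx) (fun x hx => hball w hw x hx)
      refine ⟨σ w, h, σl w, R, hR1, hR2, fun y => ?_⟩
      rw [← hR3 y]
      simp only [hψ, hG]
      congr 1
      rw [hAs w h, smul_smul, smul_smul]
      congr 1
      ring
  · -- far away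
    intro y w hy
    simp only [hψ, hG]
    have h3 : 1 ≤ (‖y‖ ^ 2 - (σ w) ^ 2 * ρ₁ ^ 2) / (ρ₂ ^ 2 - ρ₁ ^ 2) := by
      rw [le_div_iff₀ hden]
      have h4 : ρ₂ ^ 2 ≤ ‖y‖ ^ 2 := pow_le_pow_left₀ (by linarith) hy 2
      have h5 : (σ w) ^ 2 * ρ₁ ^ 2 ≤ 1 * ρ₁ ^ 2 :=
        mul_le_mul_of_nonneg_right (pow_le_one₀ (σn w) (σl w)) (by positivity)
      linarith
    rw [Real.smoothTransition.one_of_one_le h3]
    have h6 : κ w • (expNegInvGlue (σ w) • σ w • u ((σ w)⁻¹ • y) w) = 0 := by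
      rcases eq_or_lt_of_le (σn w) with h | h
      · rw [← h, expNegInvGlue.zero, zero_smul, smul_zero]
      · rw [hu0, smul_zero, smul_zero, smul_zero]
        rw [norm_smul, Real.norm_eq_abs, abs_of_pos (inv_pos.2 h)]
        have h7 : 1 ≤ (σ w)⁻¹ := (one_le_inv₀ h).2 (σl w)
        nlinarith [norm_nonneg y]
    rw [h6, add_zero]
    have h8 : A w + (1 - A w) * 1 = 1 := by ring
    rw [h8, one_smul]
  · -- small w
    intro y w hw
    have hs := σ0 w (by linarith)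
    have hA' : A w = 1 := by
      simp only [hA]
      rw [A₁1 w hw, hs, expNegInvGlue.zero, zero_mul, add_zero]
    simp only [hψ]
    rw [hA', hs, expNegInvGlue.zero, zero_smul, smul_zero, add_zero, sub_self, zero_mul, add_zero,
      one_smul]
  · -- large w
    intro y w hw
    have hs := σ1 w (by linarith)
    have hA' : A w = 1 := by
      rw [hAs w (by rw [hs]; exact one_pos), hs, κ2 w hw, e_one, hee]
    simp only [hψ]
    rw [hA', hs, κ2 w hw, e_one, inv_one, one_smul, one_smul, smul_smul, mul_comm (Real.exp 1), hee,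
      one_smul, sub_self, zero_mul, add_zero, one_smul]

end Pool.Agent.H827.TM
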