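import Pool.Agent.H827.TM.Core
import Pool.Graph.R_pool_sql_team_seeded_63374d34.N550.KH.Shift
import Pool.Graph.R_pool_sql_team_seeded_63374d34.N550.KH.Supp
import Pool.Graph.R_pool_sql_team_seeded_63374d34.N550.KH.Reg

/-!
# Handles in regular position with respect to a tame map

Adaptation of the library module `N550.KH.Two` to tame maps.
-/

set_option autoImplicit false
set_option linter.unusedSectionVars false

open Set Filter Topology Metric Function MeasureTheory
open scoped Manifold ContDiff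

noncomputable section

namespace Pool.Agent.H827.TM

open Pool.Agent.Y522 Pool.Agent.N550.KH Pool.Agent.H827.SF

/-- the handle `H` is in good position -/
def Pr (m k : ℕ) {M N : Type} [TopologicalSpace M] [ChartedSpace (E (m + k)) M]
    [TopologicalSpace N] [ChartedSpace (E (m + k)) N] (f : M → N) (B : Set N)
    (H : E (m + k) → N) : Prop :=
  ∀ x, f x ∈ range H → vp m k (invFun H (f x)) = 0 → ‖up m k (invFun H (f x))‖ < 2 →
    f x ∉ B ∧
    Surjective (mfderiv (𝓡 (m + k)) (𝓡 k) (fun y => vp m k (invFun H (f y))) x)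

theorem eq_of_up_vp {m k : ℕ} (z w : E (m + k)) (h : up m k z = up m k w)
    (h' : vp m k z = vp m k w) : z = w := by
  rw [← jn_up_vp m k z, ← jn_up_vp m k w, h, h']

/-- regular position of one handle -/
theorem position {m k : ℕ} (hk : 0 < k) {M N : Type}
    [TopologicalSpace M] [CompactSpace M] [T2Space M] [ChartedSpace (E (m + k)) M]
    [IsManifold (𝓡 (m + k)) ∞ M] [TopologicalSpace N] [T2Space N] [ChartedSpace (E (m + k)) N]
    (f : M → N) (B : Set N) (hf : TMap (m + k) f B) {H : E (m + k) → N} (hi : Injective H)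
    (hl : ∀ z, LD (m + k) H z) :
    ∃ κ : N → N, IsDf (m + k) κ ∧ (∀ x, x ∉ range H → κ x = x) ∧
      (∀ z, ∃ w, κ (H z) = H w ∧ up m k w = up m k z) ∧
      Pr m k (fun x => κ (f x)) (κ '' B) H := by
  have hVS : S_VS := Shift.main.2.1
  have hSU : S_SUPP := Supp.main
  have hRG : S_REG := Reg.main
  have hsc : SecondCountableTopology M :=
    ChartedSpace.secondCountable_of_sigmaCompact (E (m + k)) M
  obtain ⟨ρ, hρ, hκ⟩ := hVS m k
  obtain ⟨U, hU⟩ : ∃ U : TopologicalSpace.Opens M, ∀ x, x ∈ U ↔ f x ∈ range H :=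
    ⟨⟨f ⁻¹' range H, (Two.open_range hl).preimage hf.cont⟩, fun _ => Iff.rfl⟩
  have hsmF : ∀ x, f x ∈ range H → f x ∉ B →
      ContMDiffAt (𝓡 (m + k)) (𝓡 (m + k)) ∞ (fun y => invFun H (f y)) x := by
    intro x hx hs
    obtain ⟨z, hz⟩ := hx
    have h2 : LD (m + k) (invFun H) (f x) := hz ▸ Two.ld_inv hi hl z
    exact ContMDiffAt.comp (g := invFun H) x h2.contMDiffAt (hf.smooth x hs)
  have hvs : ∀ (g : M → E (m + k)) (x : M), ContMDiffAt (𝓡 (m + k)) (𝓡 (m + k)) ∞ g x →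
      ContMDiffAt (𝓡 (m + k)) (𝓡 k) ∞ (fun y => vp m k (g y)) x := by
    intro g x hg
    exact ContMDiffAt.comp (g := vp m k) x (vp m k).contDiff.contMDiff.contMDiffAt hg
  obtain ⟨y₀, hy₀, hreg⟩ := hRG m k U (fun x => vp m k (invFun H (f x.1)))
    {x : U | f x.1 ∉ B} hk (by
      exact (hf.closed.isOpen_compl.preimage hf.cont).preimage continuous_subtype_val)
      (fun x hx => by
      have h2 := hvs _ x.1 (hsmF x.1 ((hU _).mp x.2) hx)
      exact ContMDiffAt.comp (g := fun y => vp m k (invFun H (f y))) x h2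
        contMDiff_subtype_val.contMDiffAt) (fun j => by
      have hL : LipschitzWith 1 (fun z : E (m + k) => z (Fin.natAdd m j)) := by
        refine LipschitzWith.of_dist_le_mul fun u v => ?_
        rw [NNReal.coe_one, one_mul, Real.dist_eq, dist_eq_norm]
        exact PiLp.norm_apply_le (u - v) _
      have h2 := hL.hausdorffMeasure_image_le (d := 1) zero_le_one (H ⁻¹' B)
      rw [hf.null H hi hl, mul_zero, hausdorffMeasure_real] at h2
      refine measure_mono_null ?_ (le_antisymm h2 bot_le)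
      rintro _ ⟨x, hx, rfl⟩
      refine ⟨invFun H (f x.1), ?_, rfl⟩
      show H (invFun H (f x.1)) ∈ B
      rw [Two.app_inv ((hU _).mp x.2)]
      have hx' : ¬ (f x.1 ∉ B) := hx
      exact not_not.1 hx') (ball 0 (min ρ 1)) isOpen_ball
    ⟨0, mem_ball_self (lt_min hρ one_pos)⟩
  rw [mem_ball_zero_iff] at hy₀
  have hy1 : ‖y₀‖ < ρ := lt_of_lt_of_le hy₀ (min_le_left _ _)
  have hy2 : ‖y₀‖ < 1 := lt_of_lt_of_le hy₀ (min_le_right _ _)
  obtain ⟨κ, hκ1, hκ2, hκ3, hκ4⟩ := hκ (-y₀) (by rw [norm_neg]; exact hy1)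
  obtain ⟨K, hK1, hK2, hK3⟩ := hSU (m + k) N H hi hl κ hκ1 hκ2
  refine ⟨K, hK1, hK3, fun z => ⟨κ z, hK2 z, hκ3 z⟩, fun x hx h1 h2 => ?_⟩
  simp only at hx h1 h2
  -- the point lies in the handle
  have hfx : f x ∈ range H := by
    by_contra hcon
    rw [hK3 _ hcon] at hx
    exact hcon hx
  have hop : IsOpen (f ⁻¹' range H) := (Two.open_range hl).preimage hf.cont
  have hform : ∀ y, f y ∈ range H → invFun H (K (f y)) = κ (invFun H (f y)) := by
    intro y hy
    obtain ⟨z, hz⟩ := hy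
    rw [← hz, hK2, Two.inv_app hi, Two.inv_app hi]
  rw [hform x hfx] at h1 h2
  rw [hκ3] at h2
  have hz : vp m k (invFun H (f x)) = y₀ := by
    have h3 : κ (invFun H (f x)) = κ (jn m k (up m k (invFun H (f x))) y₀) := by
      refine eq_of_up_vp _ _ ?_ ?_
      · rw [hκ3, hκ3, up_jn]
      · rw [h1, hκ4 _ (by rw [up_jn]; exact h2.le) (by rw [vp_jn]; exact hy2.le), vp_jn,
          add_neg_cancel]
    have h4 := hκ1.1.1 h3
    rw [h4, vp_jn]
  obtain ⟨r1, r2⟩ := hreg ⟨x, (hU x).mpr hfx⟩ hz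
  have r1' : f x ∉ B := r1
  have hsF := hsmF x hfx r1
  have hev : (fun y => invFun H (K (f y))) =ᶠ[𝓝 x] fun y => κ (invFun H (f y)) := by
    filter_upwards [hop.mem_nhds hfx] with y hy
    exact hform y hy
  refine ⟨fun hcon => r1' ((hK1.1.1.mem_set_image).1 hcon), ?_⟩
  have hcF : ContinuousAt (fun y => invFun H (f y)) x := hsF.continuousAt
  have hev2 : (fun y => vp m k (invFun H (K (f y)))) =ᶠ[𝓝 x]
      fun y => vp m k (invFun H (f y)) + -y₀ := by
    have e1 : ∀ᶠ y in 𝓝 x, ‖up m k (invFun H (f y))‖ < 2 :=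
      ((up m k).continuous.continuousAt.comp (f := fun y => invFun H (f y)) hcF).norm.eventually_lt
        continuousAt_const h2
    have e2 : ∀ᶠ y in 𝓝 x, ‖vp m k (invFun H (f y))‖ < 1 :=
      ((vp m k).continuous.continuousAt.comp (f := fun y => invFun H (f y)) hcF).norm.eventually_lt
        continuousAt_const (by rw [Function.comp_apply, hz]; exact hy2)
    filter_upwards [hev, e1, e2] with y h3 h4 h5
    rw [h3, hκ4 _ h4.le h5.le]
  have hd : MDifferentiableAt (𝓡 (m + k)) (𝓡 k) (fun y => vp m k (invFun H (f y))) x :=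
    (hvs _ x hsF).mdifferentiableAt (by simp)
  rw [hev2.mfderiv_eq]
  have e3 : mfderiv (𝓡 (m + k)) (𝓡 k) (fun y => vp m k (invFun H (f y)) + -y₀) x =
      mfderiv (𝓡 (m + k)) (𝓡 k) (fun y => vp m k (invFun H (f y))) x := by
    have h6 := hd.hasMFDerivAt.add (hasMFDerivAt_const (I := 𝓡 (m + k)) (I' := 𝓡 k) (-y₀) x)
    exact h6.mfderiv.trans (add_zero _)
  rw [e3]
  have e4 : mfderiv (𝓡 (m + k)) (𝓡 k) (fun x : U => vp m k (invFun H (f x.1)))
      ⟨x, (hU x).mpr hfx⟩ = (mfderiv (𝓡 (m + k)) (𝓡 k) (fun y => vp m k (invFun H (f y))) x).comp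
        (mfderiv (𝓡 (m + k)) (𝓡 (m + k)) (Subtype.val : U → M) ⟨x, (hU x).mpr hfx⟩) :=
    mfderiv_comp (I := 𝓡 (m + k)) (I' := 𝓡 (m + k)) (I'' := 𝓡 k)
      (g := fun y => vp m k (invFun H (f y))) ⟨x, (hU x).mpr hfx⟩ hd
      (contMDiff_subtype_val.contMDiffAt.mdifferentiableAt (n := ∞) (by simp))
  rw [e4] at r2
  exact Surjective.of_comp r2

/-- **Regular position.** -/
theorem positioned {m k : ℕ} (hk : 0 < k) {M N : Type}
    [TopologicalSpace M] [CompactSpace M] [T2Space M] [ChartedSpace (E (m + k)) M]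
    [IsManifold (𝓡 (m + k)) ∞ M] [TopologicalSpace N] [T2Space N] [ChartedSpace (E (m + k)) N]
    (f : M → N) (B : Set N) (hf : TMap (m + k) f B) {H : E (m + k) → N} (hi : Injective H)
    (hl : ∀ z, LD (m + k) H z) (Y : Set N) (hY : ∀ z, H z ∈ Y ↔ 1 ≤ ‖up m k z‖)
    (hg : ∀ y ∈ Y, Good (m + k) f y) :
    ∃ (f' : M → N) (B' : Set N), TMap (m + k) f' B' ∧ Pr m k f' B' H ∧
      ∀ y ∈ Y, Good (m + k) f' y := by
  obtain ⟨κ, k1, k2, k3, k4⟩ := position hk f B hf hi hl
  refine ⟨fun x => κ (f x), κ '' B, hf.comp k1, k4, fun y hy => Good.of_comp k1 fun y' hy' => ?_⟩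
  refine hg y' ?_
  by_cases hc : y' ∈ range H
  · obtain ⟨z, rfl⟩ := hc
    obtain ⟨w, hw, hw'⟩ := k3 z
    rw [← hy', hw, hY, hw', ← hY] at hy
    exact hy
  · rw [k2 _ hc] at hy'
    rw [hy']
    exact hy

end Pool.Agent.H827.TM
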