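import Mathlib

/-!
# The interpolating maps: fibres
-/

set_option autoImplicit false

open Set Function

noncomputable section

namespace Pool.Agent.H827.TM

section

variable {V : Type*} [NormedAddCommGroup V] [NormedSpace ℝ V]

/-- the interpolating map `P` for one parameter, with the original map `y ↦ y + U y` -/
structure Inter (P U : V → V) (ρ ρ₂ : ℝ) : Prop where
  pos : 0 < ρ
  lt : ρ < ρ₂
  lt1 : ρ₂ < 1
  fix : ∀ y, ρ₂ ≤ ‖y‖ → P y = y
  zero : ∀ y, ρ ≤ ‖y‖ → U y = 0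
  ball : ∀ y, ‖y‖ ≤ ρ → ‖y + U y‖ ≤ ρ
  st : (Bijective P) ∨ ∃ s : ℝ, 0 < s ∧ s ≤ 1 ∧ ∃ R : V → V,
        Bijective R ∧ (∀ y, ρ₂ ≤ ‖y‖ → R y = y) ∧ ∀ y, P y = R (y + s • U (s⁻¹ • y))

variable {P U : V → V} {ρ ρ₂ : ℝ}

theorem Inter.le (h : Inter P U ρ ρ₂) {y : V} (hy : ‖y‖ ≤ 1) : ‖y + U y‖ ≤ 1 := by
  by_cases h1 : ‖y‖ ≤ ρ
  · have := h.ball y h1
    have h2 := h.lt
    have h3 := h.lt1
    linarith
  · rw [h.zero y (not_le.1 h1).le, add_zero]
    exact hy

/-- points whose image is far away are fixed -/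
theorem Inter.far (h : Inter P U ρ ρ₂) {y : V} (hy : ρ < ‖y + U y‖) : ρ < ‖y‖ ∧ y + U y = y := by
  have h1 : ρ < ‖y‖ := by
    by_contra hcon
    have := h.ball y (not_lt.1 hcon)
    linarith
  exact ⟨h1, by rw [h.zero y h1.le, add_zero]⟩

theorem scale_eq {s : ℝ} (hs : 0 < s) (y v : V) :
    y + s • U (s⁻¹ • y) = v ↔ s⁻¹ • y + U (s⁻¹ • y) = s⁻¹ • v := by
  constructor
  · intro h
    rw [← h, smul_add, smul_smul, inv_mul_cancel₀ hs.ne', one_smul]
  · intro h
    have h2 := congrArg (fun x => s • x) h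
    simp only [smul_add, smul_smul, mul_inv_cancel₀ hs.ne', one_smul] at h2
    exact h2

theorem norm_inv_smul {s : ℝ} (hs : 0 < s) (y : V) : ‖s⁻¹ • y‖ = s⁻¹ * ‖y‖ := by
  rw [norm_smul, Real.norm_of_nonneg (inv_pos.2 hs).le]

/-- the fibres of the interpolating map -/
theorem Inter.fib (h : Inter P U ρ ρ₂) {v : V} (hv : ‖v‖ ≤ 1) :
    (∃ y, ‖y‖ ≤ 1 ∧ ∀ y', P y' = v ↔ y' = y) ∨
    ∃ (s : ℝ) (v' : V), 0 < s ∧ s ≤ 1 ∧ ‖v'‖ ≤ 1 ∧
      ∀ y', P y' = v ↔ s⁻¹ • y' + U (s⁻¹ • y') = v' := by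
  have hlt := h.lt
  have hlt1 := h.lt1
  rcases h.st with hb | ⟨s, hs0, hs1, R, hR, hR2, hR3⟩
  · left
    obtain ⟨y, hy⟩ := hb.2 v
    refine ⟨y, ?_, fun y' => ⟨fun h' => hb.1 (h'.trans hy.symm), fun h' => by rw [h', hy]⟩⟩
    by_contra hcon
    push Not at hcon
    rw [h.fix y (by linarith)] at hy
    rw [hy] at hcon
    linarith
  · obtain ⟨v', hv'⟩ := hR.2 v
    have hv'1 : ‖v'‖ ≤ 1 := by
      by_contra hcon
      push Not at hcon
      rw [hR2 v' (by linarith)] at hv'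
      rw [hv'] at hcon
      linarith
    have key : ∀ y', P y' = v ↔ s⁻¹ • y' + U (s⁻¹ • y') = s⁻¹ • v' := by
      intro y'
      rw [hR3, ← scale_eq hs0]
      constructor
      · intro h'
        exact hR.1 (h'.trans hv'.symm)
      · intro h'
        rw [h', hv']
    by_cases hsv : ‖v'‖ ≤ s
    · right
      refine ⟨s, s⁻¹ • v', hs0, hs1, ?_, key⟩
      rw [norm_inv_smul hs0, ← div_eq_inv_mul, div_le_one hs0]
      exact hsv
    · left
      push Not at hsv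
      have hbig : 1 < ‖s⁻¹ • v'‖ := by
        rw [norm_inv_smul hs0, ← div_eq_inv_mul, one_lt_div hs0]
        exact hsv
      refine ⟨v', hv'1, fun y' => ?_⟩
      rw [key]
      constructor
      · intro h'
        have h1 := (h.far (y := s⁻¹ • y') (by rw [h']; linarith)).2
        rw [h1] at h'
        exact smul_right_injective V (inv_pos.2 hs0).ne' h'
      · intro h'
        rw [h', h.zero _ (by linarith), add_zero]

/-- boundary points -/
theorem Inter.bd (h : Inter P U ρ ρ₂) {v y : V} (hv : ‖v‖ = 1) (hy : P y = v) : y = v := by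
  have hlt := h.lt
  have hlt1 := h.lt1
  rcases h.st with hb | ⟨s, hs0, hs1, R, hR, hR2, hR3⟩
  · exact hb.1 (hy.trans (h.fix v (by rw [hv]; exact hlt1.le)).symm)
  · have h1 : R v = v := hR2 v (by rw [hv]; exact hlt1.le)
    rw [hR3] at hy
    have h2 : y + s • U (s⁻¹ • y) = v := hR.1 (hy.trans h1.symm)
    rw [scale_eq hs0] at h2
    have h3 : 1 ≤ ‖s⁻¹ • v‖ := by
      rw [norm_inv_smul hs0, hv, mul_one]
      exact (one_le_inv₀ hs0).2 hs1
    have h4 := (h.far (y := s⁻¹ • y) (by rw [h2]; linarith)).2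
    rw [h4] at h2
    exact smul_right_injective V (inv_pos.2 hs0).ne' h2

/-- the unit ball is mapped to itself -/
theorem Inter.maps (h : Inter P U ρ ρ₂) {y : V} (hy : ‖y‖ ≤ 1) : ‖P y‖ ≤ 1 := by
  have hlt := h.lt
  have hlt1 := h.lt1
  rcases h.st with hb | ⟨s, hs0, hs1, R, hR, hR2, hR3⟩
  · by_contra hcon
    push Not at hcon
    have h1 : P y = y := hb.1 (h.fix (P y) (by linarith))
    rw [h1] at hcon
    linarith
  · rw [hR3]
    have hq : ‖y + s • U (s⁻¹ • y)‖ ≤ 1 := by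
      by_cases h1 : ‖s⁻¹ • y‖ ≤ ρ
      · have h2 := h.ball _ h1
        have h3 : y + s • U (s⁻¹ • y) = s • (s⁻¹ • y + U (s⁻¹ • y)) := by
          rw [smul_add, smul_smul, mul_inv_cancel₀ hs0.ne', one_smul]
        rw [h3, norm_smul, Real.norm_of_nonneg hs0.le]
        have h4 : s * ‖s⁻¹ • y + U (s⁻¹ • y)‖ ≤ 1 * 1 :=
          mul_le_mul hs1 (by linarith) (norm_nonneg _) zero_le_one
        linarith
      · rw [h.zero _ (not_le.1 h1).le, smul_zero, add_zero]
        exact hy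
    by_contra hcon
    push Not at hcon
    have h1 : R (y + s • U (s⁻¹ • y)) = y + s • U (s⁻¹ • y) := hR.1 (hR2 _ (by linarith))
    rw [h1] at hcon
    linarith

end

end Pool.Agent.H827.TM
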