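import Pool.Agent.H827.TM.Str2
import Pool.Agent.H827.TM.Pos
import Pool.Agent.H827.TM.Psi
import Pool.Agent.H827.TM.Int

/-!
# The modification near the core disc of a handle
-/

set_option autoImplicit false
set_option linter.unusedSectionVars false

open Set Filter Topology Metric Function MeasureTheory
open scoped Manifold ContDiff

noncomputable section

namespace Pool.Agent.H827.TM

open Pool.Agent.Y522 Pool.Agent.N550.KH Pool.Agent.H827.SF

/-- **One handle.** -/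
theorem handle_mod {m k : ℕ} (hA : AM m) {M N : Type} [TopologicalSpace M] [CompactSpace M]
    [T2Space M] [ChartedSpace (E (m + k)) M] [IsManifold (𝓡 (m + k)) ∞ M] [TopologicalSpace N]
    [T2Space N] [ChartedSpace (E (m + k)) N] (f : M → N) (B : Set N) (hf : TMap (m + k) f B)
    (h : E (m + k) → N) (hi : Injective h) (hl : ∀ z, LD (m + k) h z)
    (hP : Pr m k f B h) (Y : Set N) (hY : ∀ z, h z ∈ Y ↔ 1 ≤ ‖up m k z‖)
    (hg : ∀ y ∈ Y, Good (m + k) f y) :
    ∃ f' : M → N, TMap (m + k) f' B ∧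
      ∀ y ∈ Y ∪ h '' {z | vp m k z = 0 ∧ ‖up m k z‖ ≤ 1}, Good (m + k) f' y := by
  classical
  obtain ⟨T, u, ρ, ε, W, hρ0, hρ1, hε, hWo, hWp, hWT, hWLD, hinj, hsurj, hu, hu0, hFu, hball,
    hreg⟩ := str hA f B hf h hi hl hP (fun z hz1 hz2 => hg _ ((hY z).2 hz2))
  obtain ⟨ρ₂, hρ₂⟩ : ∃ ρ₂ : ℝ, ρ₂ = (ρ + 1) / 2 := ⟨_, rfl⟩
  have hρ₂1 : ρ₂ < 1 := by rw [hρ₂]; linarith
  have hρρ₂ : ρ < ρ₂ := by rw [hρ₂]; linarith
  obtain ⟨ψ, a, ha0, haε, hψ, hψs, hψ1, hψ2, hψ3⟩ := interpolate u ρ ρ₂ ε hρ0 hρρ₂ hε hu hu0 hball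
  have hInt : ∀ w : E k, ‖w‖ ≤ ε → Inter (fun y => ψ y w) (fun y => u y w) ρ ρ₂ := fun w hw =>
    ⟨hρ0, hρρ₂, hρ₂1, fun y hy => hψ1 y w hy, fun y hy => hu0 y w hy, hball w hw, hψs w hw⟩
  obtain ⟨F, hF⟩ : ∃ F : M → E (m + k), F = fun x => invFun h (f x) := ⟨_, rfl⟩
  have hFa : ∀ x, F x = invFun h (f x) := fun x => by rw [hF]
  obtain ⟨v₁, hv₁⟩ : ∃ v₁ : M → E k, v₁ = fun x => vp m k (F x) := ⟨_, rfl⟩
  have hv₁a : ∀ x, v₁ x = vp m k (F x) := fun x => by rw [hv₁]
  simp only [← hFa, ← hv₁a] at hWLD hinj hsurj hFu hreg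
  have hhc : Continuous h := Two.cont_of_ld hl
  have hro : IsOpen (range h) := Two.open_range hl
  have hLi : ∀ x, f x ∈ range h → LD (m + k) (invFun h) (f x) := by
    intro x hx
    obtain ⟨z, hz⟩ := hx
    exact hz ▸ Two.ld_inv hi hl z
  have hFc : ∀ x, f x ∈ range h → ContinuousAt F x := fun x hx => by
    rw [hF]
    exact ContinuousAt.comp (g := invFun h) (hLi x hx).continuousAt hf.cont.continuousAt
  have hFs : ∀ x, f x ∈ range h → f x ∉ B → ContMDiffAt (𝓡 (m + k)) (𝓡 (m + k)) ∞ F x :=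
    fun x hx hxB => by
      rw [hF]
      exact ContMDiffAt.comp (g := invFun h) x (hLi x hx).contMDiffAt (hf.smooth x hxB)
  have hFh : ∀ x, f x ∈ range h → h (F x) = f x := fun x hx => by
    rw [hFa]
    exact Two.app_inv hx
  have hFh' : ∀ x, f x ∈ range h → h (jn m k (up m k (F x)) (v₁ x)) = f x := fun x hx => by
    rw [hv₁a, jn_up_vp, hFh x hx]
  have hFz : ∀ x z, f x = h z → F x = z := fun x z hxz => by
    rw [hFa, hxz, Two.inv_app hi]
  have hTc : ∀ x ∈ W, ContinuousAt (fun y => ‖T y‖) x := fun x hx =>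
    (hWT x hx).continuousAt.norm
  have hvc : ∀ x ∈ W, ContinuousAt (fun y => ‖v₁ y‖) x := fun x hx => by
    rw [hv₁]
    exact (vp m k).continuous.norm.continuousAt.comp (hFc x (hWp x hx).1)
  -- the region
  set Q : Set N := h '' {z | ‖up m k z‖ ≤ 1 ∧ ‖vp m k z‖ ≤ ε} with hQ
  have hQc : IsClosed Q := ((Hnd.isCompact_Q m k 1 ε).image hhc).isClosed
  have hZ1 : ∀ x, f x ∈ Q → x ∈ W ∧ ‖T x‖ ≤ 1 ∧ ‖v₁ x‖ ≤ ε := by
    rintro x ⟨z, ⟨hz1, hz2⟩, hzx⟩
    have e1 := hFz x z hzx.symm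
    have hr : f x ∈ range h := by
      rw [← hzx]
      exact mem_range_self _
    have e2 : ‖v₁ x‖ ≤ ε := by
      rw [hv₁a, e1]
      exact hz2
    obtain ⟨e3, e4⟩ := hreg x hr e2 (by rw [e1]; exact hz1)
    exact ⟨e3, e4, e2⟩
  have hup : ∀ x ∈ W, ‖T x‖ ≤ 1 → ‖v₁ x‖ ≤ ε → ‖up m k (F x)‖ ≤ 1 := by
    intro x hx h1 h2
    rw [hFu x hx h1 h2]
    exact (hInt _ h2).le h1
  have hZ2 : ∀ x ∈ W, ‖T x‖ ≤ 1 → ‖v₁ x‖ ≤ ε → f x ∈ Q := by
    intro x hx h1 h2
    exact ⟨F x, ⟨hup x hx h1 h2, by rw [← hv₁a]; exact h2⟩, hFh x (hWp x hx).1⟩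
  -- the compact set
  set C : Set M := {x | x ∈ W ∧ ‖T x‖ ≤ ρ₂ ∧ ‖v₁ x‖ ≤ ε / 2} with hC
  have hCZ : ∀ x ∈ C, x ∈ W ∧ ‖T x‖ ≤ 1 ∧ ‖v₁ x‖ ≤ ε := fun x hx =>
    ⟨hx.1, by linarith [hx.2.1], by linarith [hx.2.2]⟩
  have hCcl : IsClosed C := by
    have e1 : C = f ⁻¹' Q ∩ (fun x => (‖T x‖, ‖v₁ x‖)) ⁻¹' (Iic ρ₂ ×ˢ Iic (ε / 2)) := by
      ext x
      constructor
      · intro hx
        obtain ⟨c1, c2, c3⟩ := hCZ x hx
        exact ⟨hZ2 x c1 c2 c3, hx.2.1, hx.2.2⟩
      · rintro ⟨hx, hx1, hx2⟩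
        exact ⟨(hZ1 x hx).1, hx1, hx2⟩
    rw [e1]
    refine ContinuousOn.preimage_isClosed_of_isClosed ?_ (hQc.preimage hf.cont)
      (isClosed_Iic.prod isClosed_Iic)
    intro x hx
    exact ((hTc x (hZ1 x hx).1).prodMk (hvc x (hZ1 x hx).1)).continuousWithinAt
  -- the new map
  obtain ⟨f', hf'C, hf'n⟩ : ∃ f' : M → N,
      (∀ x ∈ C, f' x = h (jn m k (ψ (T x) (v₁ x)) (v₁ x))) ∧ ∀ x, x ∉ C → f' x = f x :=
    ⟨fun x => if x ∈ C then h (jn m k (ψ (T x) (v₁ x)) (v₁ x)) else f x,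
      fun x hx => if_pos hx, fun x hx => if_neg hx⟩
  have hval : ∀ x ∈ W, ‖T x‖ ≤ 1 → ‖v₁ x‖ ≤ ε →
      f' x = h (jn m k (ψ (T x) (v₁ x)) (v₁ x)) := by
    intro x hx h1 h2
    by_cases hxC : x ∈ C
    · exact hf'C x hxC
    · rw [hf'n x hxC, ← hFh' x (hWp x hx).1]
      congr 2
      rw [hFu x hx h1 h2]
      by_cases h3 : ε / 2 ≤ ‖v₁ x‖
      · rw [hψ3 _ _ h3]
      · have h4 : ρ₂ < ‖T x‖ := by
          by_contra hcon
          exact hxC ⟨hx, not_lt.1 hcon, (not_le.1 h3).le⟩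
        rw [hψ1 _ _ h4.le, hu0 _ _ (by linarith), add_zero]
  have hvalQ : ∀ x ∈ W, ‖T x‖ ≤ 1 → ‖v₁ x‖ ≤ ε → f' x ∈ Q := by
    intro x hx h1 h2
    rw [hval x hx h1 h2]
    refine ⟨_, ⟨?_, ?_⟩, rfl⟩
    · rw [up_jn]
      exact (hInt _ h2).maps h1
    · rw [vp_jn]
      exact h2
  have hnQ : ∀ x, f' x ∉ Q → f x = f' x := by
    intro x hx
    by_cases hxC : x ∈ C
    · obtain ⟨c1, c2, c3⟩ := hCZ x hxC
      exact absurd (hvalQ x c1 c2 c3) hx
    · exact (hf'n x hxC).symm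
  have hnQ' : ∀ x, f x ∉ Q → x ∉ C ∧ f' x = f x := by
    intro x hx
    have hxC : x ∉ C := fun hxC => by
      obtain ⟨c1, c2, c3⟩ := hCZ x hxC
      exact hx (hZ2 x c1 c2 c3)
    exact ⟨hxC, hf'n x hxC⟩
  have hfib1 : ∀ y, y ∉ Q → f' ⁻¹' {y} = f ⁻¹' {y} := by
    intro y hy
    ext x
    constructor
    · intro hx
      have hx' : f' x = y := hx
      show f x = y
      rw [hnQ x (by rw [hx']; exact hy), hx']
    · intro hx
      have hx' : f x = y := hx
      show f' x = y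
      rw [(hnQ' x (by rw [hx']; exact hy)).2, hx']
  have hfib2 : ∀ (v : E m) (w : E k), ‖v‖ ≤ 1 → ‖w‖ ≤ ε → ∀ x, f' x = h (jn m k v w) ↔
      (x ∈ W ∧ ‖T x‖ ≤ 1 ∧ v₁ x = w ∧ ψ (T x) w = v) := by
    intro v w hv hw x
    have hQm : h (jn m k v w) ∈ Q := ⟨_, ⟨by rw [up_jn]; exact hv, by rw [vp_jn]; exact hw⟩, rfl⟩
    constructor
    · intro hx
      have hfQ : f x ∈ Q := by
        by_contra hcon
        have h3 := (hnQ' x hcon).2
        rw [hx] at h3
        rw [← h3] at hcon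
        exact hcon hQm
      obtain ⟨c1, c2, c3⟩ := hZ1 x hfQ
      rw [hval x c1 c2 c3] at hx
      have h4 := hi hx
      have h5 := congrArg (up m k) h4
      have h6 := congrArg (vp m k) h4
      rw [up_jn, up_jn] at h5
      rw [vp_jn, vp_jn] at h6
      rw [h6] at h5
      exact ⟨c1, c2, h6, h5⟩
    · rintro ⟨c1, c2, c3, c4⟩
      rw [hval x c1 c2 (by rw [c3]; exact hw), c3, c4]
  have hofib : ∀ (v : E m) (w : E k), ‖v‖ ≤ 1 → ‖w‖ ≤ ε → ∀ x, f x = h (jn m k v w) ↔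
      (x ∈ W ∧ ‖T x‖ ≤ 1 ∧ v₁ x = w ∧ T x + u (T x) w = v) := by
    intro v w hv hw x
    have hQm : h (jn m k v w) ∈ Q := ⟨_, ⟨by rw [up_jn]; exact hv, by rw [vp_jn]; exact hw⟩, rfl⟩
    constructor
    · intro hx
      obtain ⟨c1, c2, c3⟩ := hZ1 x (by rw [hx]; exact hQm)
      have h4 := hFz x _ hx
      have h5 := congrArg (up m k) h4
      have h6 := congrArg (vp m k) h4
      rw [up_jn] at h5
      rw [vp_jn, ← hv₁a] at h6
      rw [hFu x c1 c2 c3, h6] at h5
      exact ⟨c1, c2, h6, h5⟩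
    · rintro ⟨c1, c2, c3, c4⟩
      rw [← hFh' x (hWp x c1).1, hFu x c1 c2 (by rw [c3]; exact hw), c3, c4]
  have hQB : ∀ y ∈ Q, y ∉ B := by
    intro y hy
    obtain ⟨x, hx⟩ := hf.surj y
    rw [← hx]
    exact (hWp x (hZ1 x (by rw [hx]; exact hy)).1).2
  -- local behaviour
  have hoff : ∀ x, x ∉ C → f' =ᶠ[𝓝 x] f := by
    intro x hx
    filter_upwards [hCcl.isOpen_compl.mem_nhds hx] with y hy
    exact hf'n y hy
  have hon : ∀ x ∈ W, ‖T x‖ < 1 → ‖v₁ x‖ < ε →
      f' =ᶠ[𝓝 x] fun y => h (jn m k (ψ (T y) (v₁ y)) (v₁ y)) := by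
    intro x hx h1 h2
    filter_upwards [hWo.mem_nhds hx, (hTc x hx).eventually_lt continuousAt_const h1,
      (hvc x hx).eventually_lt continuousAt_const h2] with y h3 h4 h5
    exact hval y h3 h4.le h5.le
  have hvs : ∀ x ∈ W, ContMDiffAt (𝓡 (m + k)) (𝓡 k) ∞ v₁ x := by
    intro x hx
    rw [hv₁]
    exact (vp m k).contMDiff.contMDiffAt.comp x (hFs x (hWp x hx).1 (hWp x hx).2)
  have hsmC : ∀ x ∈ C, ContMDiffAt (𝓡 (m + k)) (𝓡 (m + k)) ∞ f' x := by
    intro x hx
    have hxW := hx.1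
    have e1 := hon x hxW (by linarith [hx.2.1]) (by linarith [hx.2.2])
    have hTv := (hWT x hxW).prodMk_space (hvs x hxW)
    have hψy : ContMDiffAt (𝓡 (m + k)) (𝓡 m) ∞ (fun z => ψ (T z) (v₁ z)) x :=
      ContMDiffAt.comp x (g := fun p : E m × E k => ψ p.1 p.2) hψ.contMDiff.contMDiffAt hTv
    have hall := hψy.prodMk_space (hvs x hxW)
    have hG : ContMDiffAt (𝓡 (m + k)) (𝓡 (m + k)) ∞
        (fun z => jn m k (ψ (T z) (v₁ z)) (v₁ z)) x :=
      ContMDiffAt.comp x (g := fun p : E m × E k => Pool.Agent.N550.TS.Hnd2.JN m k p)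
        (Pool.Agent.N550.TS.Hnd2.JN m k).contMDiff.contMDiffAt hall
    exact (ContMDiffAt.comp (g := h) x (hl _).contMDiffAt hG).congr_of_eventuallyEq e1
  -- points with given coordinates
  have huniq : ∀ x ∈ W, ∀ x' ∈ W, T x' = T x → v₁ x' = v₁ x → x' = x := by
    intro x hx x' hx' h1 h2
    refine hinj hx' hx ?_
    simp only [h1, h2]
  -- the inverse of the coordinates
  obtain ⟨Ξ, hΞ⟩ : ∃ Ξ : M → E (m + k), Ξ = fun x => jn m k (T x) (v₁ x) := ⟨_, rfl⟩
  have hΞa : ∀ x, Ξ x = jn m k (T x) (v₁ x) := fun x => by rw [hΞ]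
  rw [← hΞ] at hinj
  have hΞL : ∀ x ∈ W, LD (m + k) Ξ x := fun x hx => by
    rw [hΞ]
    exact hWLD x hx
  have hΞV : IsOpen (Ξ '' W) := isOpen_image_of_LD (n := m + k) hWo hΞL
  have hnonempty : Nonempty M := by
    obtain ⟨x, -, -⟩ := hsurj 0 0 (by simp) (by rw [norm_zero]; exact hε.le)
    exact ⟨x⟩
  obtain ⟨Ψ, hΨ⟩ : ∃ Ψ : E (m + k) → M, ∀ x ∈ W, Ψ (Ξ x) = x :=
    ⟨invFunOn Ξ W, fun x hx => hinj.leftInvOn_invFunOn hx⟩
  have hΨL : ∀ x ∈ W, LD (m + k) Ψ (Ξ x) := fun x hx => LD.inverse hWo hΞL hΨ hx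
  refine ⟨f', ?_, ?_⟩
  · -- tameness
    refine ⟨?_, ?_, hf.closed, hf.null, ?_, ?_, ?_⟩
    · rw [continuous_iff_continuousAt]
      intro x
      by_cases hxC : x ∈ C
      · exact (hsmC x hxC).continuousAt
      · exact hf.cont.continuousAt.congr (hoff x hxC).symm
    · intro y
      by_cases hy : y ∈ Q
      · obtain ⟨z, ⟨hz1, hz2⟩, rfl⟩ := hy
        have e0 : z = jn m k (up m k z) (vp m k z) := (jn_up_vp m k z).symm
        rcases (hInt _ hz2).fib hz1 with ⟨y', hy'1, hy'2⟩ | ⟨s, v', hs0, hs1, hv', hfib⟩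
        · obtain ⟨x, hx, hx1, hx2⟩ := hsurj y' (vp m k z) hy'1 hz2
          refine ⟨x, ?_⟩
          rw [e0, hfib2 _ _ hz1 hz2]
          exact ⟨hx, by rw [hx1]; exact hy'1, hx2, by rw [hx1]; exact (hy'2 y').2 rfl⟩
        · obtain ⟨x₀, hx₀⟩ := hf.surj (h (jn m k v' (vp m k z)))
          obtain ⟨c1, c2, c3, c4⟩ := (hofib _ _ hv' hz2 x₀).1 hx₀
          have hsT : ‖s • T x₀‖ ≤ 1 := by
            rw [norm_smul, Real.norm_of_nonneg hs0.le]
            have := mul_le_mul hs1 c2 (norm_nonneg _) zero_le_one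
            linarith
          obtain ⟨x, hx, hx1, hx2⟩ := hsurj (s • T x₀) (vp m k z) hsT hz2
          refine ⟨x, ?_⟩
          rw [e0, hfib2 _ _ hz1 hz2]
          refine ⟨hx, by rw [hx1]; exact hsT, hx2, (hfib _).2 ?_⟩
          rw [hx1, smul_smul, inv_mul_cancel₀ hs0.ne', one_smul]
          exact c4
      · obtain ⟨x, hx⟩ := hf.surj y
        exact ⟨x, by rw [(hnQ' x (by rw [hx]; exact hy)).2, hx]⟩
    · intro x hx
      by_cases hxC : x ∈ C
      · exact hsmC x hxC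
      · rw [hf'n x hxC] at hx
        exact (hf.smooth x hx).congr_of_eventuallyEq (hoff x hxC)
    · intro y hyB
      by_cases hy : y ∈ Q
      · obtain ⟨z, ⟨hz1, hz2⟩, rfl⟩ := hy
        have e0 : z = jn m k (up m k z) (vp m k z) := (jn_up_vp m k z).symm
        rcases (hInt _ hz2).fib hz1 with ⟨y', hy'1, hy'2⟩ | ⟨s, v', hs0, hs1, hv', hfib⟩
        · obtain ⟨x, hx, hx1, hx2⟩ := hsurj y' (vp m k z) hy'1 hz2
          refine uemb_of_subsingleton x ?_
          ext x'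
          rw [mem_preimage, mem_singleton_iff, mem_singleton_iff, e0, hfib2 _ _ hz1 hz2]
          constructor
          · rintro ⟨c1, c2, c3, c4⟩
            exact huniq x hx x' c1 (by rw [hx1]; exact (hy'2 _).1 c4) (by rw [c3, hx2])
          · rintro rfl
            exact ⟨hx, by rw [hx1]; exact hy'1, hx2, by rw [hx1]; exact (hy'2 y').2 rfl⟩
        · -- rescaled fibres
          have hkey : ∀ x, f' x = h z ↔ (x ∈ W ∧ v₁ x = vp m k z ∧ ‖s⁻¹ • T x‖ ≤ 1 ∧
              s⁻¹ • T x + u (s⁻¹ • T x) (vp m k z) = v') := by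
            intro x
            rw [e0, hfib2 _ _ hz1 hz2, vp_jn]
            constructor
            · rintro ⟨c1, c2, c3, c4⟩
              have c5 := (hfib _).1 c4
              refine ⟨c1, c3, ?_, c5⟩
              by_contra hcon
              push Not at hcon
              rw [hu0 _ _ (by linarith), add_zero] at c5
              rw [c5] at hcon
              linarith
            · rintro ⟨c1, c3, c2, c5⟩
              refine ⟨c1, ?_, c3, (hfib _).2 c5⟩
              rw [norm_inv_smul hs0, ← div_eq_inv_mul, div_le_one hs0] at c2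
              linarith
          have hVs : Continuous fun z' : E (m + k) => jn m k (s⁻¹ • up m k z') (vp m k z') := by
            have d1 : Continuous fun z' : E (m + k) => (s⁻¹ • up m k z', vp m k z') := by fun_prop
            exact (continuous_jn m k).comp d1
          set S : E (m + k) → E (m + k) := fun z' => jn m k (s⁻¹ • up m k z') (vp m k z') with hS
          have hSi : Injective S := by
            intro z₁ z₂ hz
            have d1 := congrArg (up m k) hz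
            have d2 := congrArg (vp m k) hz
            simp only [hS, up_jn, vp_jn] at d1 d2
            exact eq_of_up_vp _ _ (smul_right_injective _ (inv_pos.2 hs0).ne' d1) d2
          have hSL : ∀ z', LD (m + k) S z' := by
            intro z'
            let A : E (m + k) →L[ℝ] E (m + k) := (Pool.Agent.N550.TS.Hnd2.JN m k).comp
              ((s⁻¹ • up m k).prod (vp m k))
            have hAS : ∀ z', A z' = S z' := fun z' => rfl
            have hAi : Injective A := fun z₁ z₂ hz => hSi (by rw [← hAS, ← hAS, hz])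
            have hAs : Surjective A :=
              (LinearMap.injective_iff_surjective (f := (A : E (m + k) →ₗ[ℝ] E (m + k)))).1 hAi
            have h3 := LD_linear (ContinuousLinearEquiv.ofBijective A (LinearMap.ker_eq_bot.2 hAi)
              (LinearMap.range_eq_top.2 hAs)) z'
            exact h3
          refine uemb_transfer (X' := M) (F' := f ⁻¹' {h (jn m k v' (vp m k z))})
            (W ∩ {x | S (Ξ x) ∈ Ξ '' W}) ?_ ?_ (fun x => Ψ (S (Ξ x))) ?_ ?_ ?_
            (hf.tame _ (hQB _ ⟨_, ⟨by rw [up_jn]; exact hv', by rw [vp_jn]; exact hz2⟩, rfl⟩))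
          · have c1 : ContinuousOn (fun x => S (Ξ x)) W := fun x hx =>
              (hVs.continuousAt.comp (hΞL x hx).continuousAt).continuousWithinAt
            exact c1.isOpen_inter_preimage hWo hΞV
          · intro x hx
            obtain ⟨c1, c2, c3, c4⟩ := (hkey x).1 hx
            refine ⟨c1, ?_⟩
            obtain ⟨x', hx', hx'1, hx'2⟩ := hsurj (s⁻¹ • T x) (vp m k z) c3 hz2
            refine ⟨x', hx', ?_⟩
            rw [hΞa, hΞa, hx'1, hx'2]
            simp only [hS, up_jn, vp_jn, c2]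
          · rintro x ⟨hx, x₁, hx₁, hx₁'⟩ y ⟨hy, y₁, hy₁, hy₁'⟩ hxy
            simp only at hxy
            rw [← hx₁', ← hy₁', hΨ _ hx₁, hΨ _ hy₁] at hxy
            rw [hxy] at hx₁'
            have d1 := hSi (hx₁'.symm.trans hy₁')
            exact hinj hx hy d1
          · rintro x ⟨hx, x₁, hx₁, hx₁'⟩
            refine LD.comp_fun (g := Ψ) (f := fun x => S (Ξ x)) ?_
              (LD.comp_fun (g := S) (hSL _) (hΞL x hx))
            rw [← hx₁']
            exact hΨL _ hx₁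
          · ext x'
            constructor
            · rintro ⟨x, hx, rfl⟩
              obtain ⟨c1, c2, c3, c4⟩ := (hkey x).1 hx
              obtain ⟨x', hx', hx'1, hx'2⟩ := hsurj (s⁻¹ • T x) (vp m k z) c3 hz2
              have d1 : Ψ (S (Ξ x)) = x' := by
                have d2 : S (Ξ x) = Ξ x' := by
                  rw [hΞa, hΞa, hx'1, hx'2]
                  simp only [hS, up_jn, vp_jn, c2]
                rw [d2, hΨ _ hx']
              simp only [d1]
              show f x' = _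
              rw [hofib _ _ hv' hz2]
              exact ⟨hx', by rw [hx'1]; exact c3, hx'2, by rw [hx'1]; exact c4⟩
            · intro hx'
              obtain ⟨c1, c2, c3, c4⟩ := (hofib _ _ hv' hz2 x').1 hx'
              have hsT : ‖s • T x'‖ ≤ 1 := by
                rw [norm_smul, Real.norm_of_nonneg hs0.le]
                have := mul_le_mul hs1 c2 (norm_nonneg _) zero_le_one
                linarith
              obtain ⟨x, hx, hx1, hx2⟩ := hsurj (s • T x') (vp m k z) hsT hz2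
              have hcan : s⁻¹ • T x = T x' := by
                rw [hx1, smul_smul, inv_mul_cancel₀ hs0.ne', one_smul]
              refine ⟨x, (hkey x).2 ⟨hx, hx2, by rw [hcan]; exact c2, by rw [hcan]; exact c4⟩, ?_⟩
              have d2 : S (Ξ x) = Ξ x' := by
                rw [hΞa, hΞa, c3]
                simp only [hS, up_jn, vp_jn, hcan, hx2]
              simp only [d2, hΨ _ c1]
      · rw [hfib1 y hy]
        exact hf.tame y hyB
    · intro y hyB
      rw [hfib1 y (fun hy => hQB y hy hyB)]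
      exact hf.emb y hyB
  · -- good points
    have hgY : ∀ y ∈ Y, Good (m + k) f' y := by
      intro y hyY x hx
      by_cases hy : y ∈ Q
      · obtain ⟨z, ⟨hz1, hz2⟩, rfl⟩ := hy
        have e0 : z = jn m k (up m k z) (vp m k z) := (jn_up_vp m k z).symm
        have hz3 : ‖up m k z‖ = 1 := le_antisymm hz1 ((hY z).1 hyY)
        have hpt : ∀ x, f' x = h z → x ∈ W ∧ T x = up m k z ∧ v₁ x = vp m k z := by
          intro x hx
          rw [e0] at hx
          obtain ⟨c1, c2, c3, c4⟩ := (hfib2 _ _ hz1 hz2 x).1 hx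
          exact ⟨c1, (hInt _ hz2).bd hz3 c4, c3⟩
        obtain ⟨c1, c2, c3⟩ := hpt x hx
        refine ⟨?_, fun x' hx' => ?_⟩
        · have hxC : x ∉ C := fun hxC => by
            have := hxC.2.1
            rw [c2, hz3] at this
            linarith
          have h4 : f x = h z := by rw [← hf'n x hxC, hx]
          exact LD.congr ((hg _ hyY) x h4).1 (hoff x hxC)
        · obtain ⟨d1, d2, d3⟩ := hpt x' hx'
          exact huniq x c1 x' d1 (by rw [c2, d2]) (by rw [c3, d3])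
      · have h1 : f x = y := by rw [hnQ x (by rw [hx]; exact hy), hx]
        obtain ⟨h2, h3⟩ := (hg y hyY) x h1
        refine ⟨LD.congr h2 (hoff x (hnQ' x (by rw [h1]; exact hy)).1), fun x' hx' => h3 x' ?_⟩
        rw [hnQ x' (by rw [hx']; exact hy), hx']
    rintro y (hy | ⟨z, ⟨hz1, hz2⟩, rfl⟩)
    · exact hgY y hy
    · by_cases hz3 : 1 ≤ ‖up m k z‖
      · exact hgY _ ((hY z).2 hz3)
      · push Not at hz3
        have e0 : z = jn m k (up m k z) 0 := by
          rw [← hz1]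
          exact (jn_up_vp m k z).symm
        have h0ε : ‖(0 : E k)‖ ≤ ε := by rw [norm_zero]; exact hε.le
        have hpt : ∀ x, f' x = h z → x ∈ W ∧ T x = up m k z ∧ v₁ x = 0 := by
          intro x hx
          rw [e0] at hx
          obtain ⟨c1, c2, c3, c4⟩ := (hfib2 _ _ hz2 h0ε x).1 hx
          rw [hψ2 _ _ (by rw [norm_zero]; exact ha0.le)] at c4
          exact ⟨c1, c4, c3⟩
        intro x hx
        obtain ⟨c1, c2, c3⟩ := hpt x hx
        refine ⟨?_, fun x' hx' => ?_⟩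
        · have e1 := hon x c1 (by rw [c2]; exact hz3) (by rw [c3, norm_zero]; exact hε)
          have e2 : ∀ᶠ y in 𝓝 x, ‖v₁ y‖ < a := (hvc x c1).eventually_lt continuousAt_const (by
            show ‖v₁ x‖ < a
            rw [c3, norm_zero]
            exact ha0)
          refine LD.congr (LD.comp_fun (g := h) (f := Ξ) (hl _) (hΞL x c1)) ?_
          filter_upwards [e1, e2] with y h3 h4
          rw [h3, hΞa, hψ2 _ _ h4.le]
        · obtain ⟨d1, d2, d3⟩ := hpt x' hx'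
          exact huniq x c1 x' d1 (by rw [c2, d2]) (by rw [c3, d3])

/-- **The handle step.** -/
theorem handle_step {m k : ℕ} (hA : AM m) (hk : 0 < k) {M N : Type} [TopologicalSpace M]
    [CompactSpace M] [T2Space M] [ChartedSpace (E (m + k)) M] [IsManifold (𝓡 (m + k)) ∞ M]
    [TopologicalSpace N] [T2Space N] [ChartedSpace (E (m + k)) N] (f : M → N) (B : Set N)
    (hf : TMap (m + k) f B) (h : E (m + k) → N) (hi : Injective h) (hl : ∀ z, LD (m + k) h z)
    (Y : Set N) (hY : ∀ z, h z ∈ Y ↔ 1 ≤ ‖up m k z‖) (hg : ∀ y ∈ Y, Good (m + k) f y) :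
    ∃ (f' : M → N) (B' : Set N), TMap (m + k) f' B' ∧
      ∀ y ∈ Y ∪ h '' {z | vp m k z = 0 ∧ ‖up m k z‖ ≤ 1}, Good (m + k) f' y := by
  obtain ⟨f₁, B₁, h1, h2, h3⟩ := positioned hk f B hf hi hl Y hY hg
  obtain ⟨f₂, h4, h5⟩ := handle_mod hA f₁ B₁ h1 h hi hl h2 Y hY h3
  exact ⟨f₂, B₁, h4, h5⟩

end Pool.Agent.H827.TM
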