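import Pool.Agent.H827.TM.Line
import Pool.Agent.H827.TM.Hnd
import Pool.Agent.H827.TM.Cell
import Pool.Graph.R_pool_sql_team_seeded_63374d34.N550.TS.All2

/-!
# Tame maps onto closed simply connected 4-manifolds
-/

set_option autoImplicit false
set_option linter.unusedSectionVars false

open Set Filter Topology Metric Function MeasureTheory
open scoped Manifold ContDiff

noncomputable section

namespace Pool.Agent.H827.TM

open Pool.Agent.Y522 Pool.Agent.N550.KH Pool.Agent.H827.SF Pool.Agent.N550.TS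

/-- several handles of the same index -/
theorem handles_step {m k : ℕ} (hA : AM m) (hk : 0 < k) {M N : Type} [TopologicalSpace M]
    [CompactSpace M] [T2Space M] [ChartedSpace (E (m + k)) M] [IsManifold (𝓡 (m + k)) ∞ M]
    [TopologicalSpace N] [T2Space N] [ChartedSpace (E (m + k)) N] (f : M → N) (B : Set N)
    (hf : TMap (m + k) f B) {a : ℕ} (h : Fin a → E (m + k) → N) (hi : ∀ i, Injective (h i))
    (hl : ∀ i z, LD (m + k) (h i) z) (Y : Set N) (hY : ∀ i z, h i z ∈ Y ↔ 1 ≤ ‖up m k z‖)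
    (hd : ∀ i j z w, i ≠ j → h i z ≠ h j w) (hg : ∀ y ∈ Y, Good (m + k) f y) :
    ∃ (f' : M → N) (B' : Set N), TMap (m + k) f' B' ∧
      ∀ y ∈ Y ∪ ⋃ i, h i '' {z | vp m k z = 0 ∧ ‖up m k z‖ ≤ 1}, Good (m + k) f' y := by
  have step : ∀ j : ℕ, j ≤ a → ∃ (f' : M → N) (B' : Set N), TMap (m + k) f' B' ∧
      ∀ y ∈ Y ∪ (⋃ (i : Fin a) (_ : (i : ℕ) < j),
        h i '' {z | vp m k z = 0 ∧ ‖up m k z‖ ≤ 1}), Good (m + k) f' y := by
    intro j
    induction j with
    | zero =>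
      intro _
      refine ⟨f, B, hf, fun y hy => ?_⟩
      rcases hy with hy | hy
      · exact hg y hy
      · simp at hy
    | succ j ih =>
      intro hj
      obtain ⟨f2, B2, hf2, hl2⟩ := ih (by omega)
      obtain ⟨f3, B3, hf3, hl3⟩ := handle_step hA hk f2 B2 hf2 (h ⟨j, by omega⟩) (hi _) (hl _) _
        (fun z => by
          rw [← hY ⟨j, by omega⟩ z]
          constructor
          · rintro (hz | hz)
            · exact hz
            · obtain ⟨i, hi, w, -, hw⟩ := mem_iUnion₂.1 hz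
              refine absurd hw.symm (hd _ _ z w ?_)
              intro hcon
              rw [← hcon] at hi
              exact absurd hi (by simp)
          · exact fun hz => Or.inl hz) hl2
      refine ⟨f3, B3, hf3, fun y hy => hl3 y ?_⟩
      rcases hy with hy | hy
      · exact Or.inl (Or.inl hy)
      · obtain ⟨i, hi, w, hw, hwx⟩ := mem_iUnion₂.1 hy
        rcases Nat.lt_succ_iff_lt_or_eq.1 hi with h1 | h1
        · exact Or.inl (Or.inr (mem_iUnion₂.2 ⟨i, h1, w, hw, hwx⟩))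
        · refine Or.inr ⟨w, hw, ?_⟩
          have : i = ⟨j, by omega⟩ := Fin.ext h1
          rw [← this]
          exact hwx
  obtain ⟨f2, B2, hf2, hl2⟩ := step a le_rfl
  refine ⟨f2, B2, hf2, fun y hy => hl2 y ?_⟩
  rcases hy with hy | hy
  · exact Or.inl hy
  · obtain ⟨i, hi⟩ := mem_iUnion.1 hy
    exact Or.inr (mem_iUnion₂.2 ⟨i, i.2, hi⟩)

/-- compression -/
theorem compress {n : ℕ} {M N : Type} [TopologicalSpace M] [CompactSpace M] [T2Space M]
    [ChartedSpace (E n) M] [IsManifold (𝓡 n) ∞ M] [TopologicalSpace N] [T2Space N]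
    [ChartedSpace (E n) N] (f : M → N) (B : Set N) (hf : TMap n f B) (X K : Set N)
    (hK : ∀ O : Set N, IsOpen O → X ⊆ O → ∃ κ : N → N, IsDf n κ ∧ K ⊆ κ '' O)
    (hg : ∀ y ∈ X, Good n f y) :
    ∃ (f' : M → N) (B' : Set N), TMap n f' B' ∧ ∀ y ∈ K, Good n f' y := by
  obtain ⟨κ, hκ, hKκ⟩ := hK {y | Good n f y} (isOpen_good hf.cont) hg
  refine ⟨fun x => κ (f x), κ '' B, hf.comp hκ, fun y hy => ?_⟩
  obtain ⟨y', hy', rfl⟩ := hKκ hy
  exact Good.comp hκ hy'

/-- **Theorem.** -/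
theorem fin (M N : Type) [TopologicalSpace M] [CompactSpace M] [T2Space M] [ChartedSpace (E 4) M]
    [IsManifold (𝓡 4) ∞ M] [TopologicalSpace N] [CompactSpace N] [T2Space N]
    [ChartedSpace (E 4) N] [IsManifold (𝓡 4) ∞ N] (a d : ℕ) (b : E 4 → N)
    (l : Fin a → E (1 + 3) → N) (K : Set N) (h : Fin d → E (2 + 2) → N) (c : E 4 → N)
    (H : Handles2 N a d b l K h c) (f : M → N) (B : Set N) (hf : TMap 4 f B) :
    ∃ G : M ≃ₜ N, ∃ x₀ : M, ∀ x, x ≠ x₀ → LD 4 G x := by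
  obtain ⟨f1, B1, hf1, hg1⟩ := zero_step (n := 4) (by norm_num) f B hf b H.b_inj H.b_ld 1
  obtain ⟨f2, B2, hf2, hg2⟩ := handles_step (m := 1) (k := 3) am_one (by norm_num) f1 B1 hf1 l
    H.l_inj H.l_ld (b '' closedBall 0 1) H.l_att H.l_dis hg1
  obtain ⟨f3, B3, hf3, hg3⟩ := compress (n := 4) f2 B2 hf2 _ K H.K_cmp hg2
  obtain ⟨f4, B4, hf4, hg4⟩ := handles_step (m := 2) (k := 2) am_two (by norm_num) f3 B3 hf3 h
    H.h_inj H.h_ld K H.h_att H.h_dis hg3
  obtain ⟨f5, B5, hf5, hg5⟩ := compress (n := 4) f4 B4 hf4 _ (range c)ᶜ H.c_cmp hg4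
  obtain ⟨c', hci, hcl, hcr⟩ := cell (m := 3) f5 B5 hf5 c H.c_inj H.c_ld
  refine Asm.main End.main 4 M N (f5 ⁻¹' (range c)ᶜ) (range c)ᶜ c' c f5 (by norm_num) ?_
    hci hcl ?_ H.c_inj H.c_ld (compl_compl _).symm (fun x hx => (hg5 _ hx).ld) ?_
    (image_preimage_eq _ hf5.surj)
  · have hne : ((range c)ᶜ).Nonempty := by
      rw [nonempty_compl]
      exact Fin2.range_ne_univ c H.c_inj H.c_ld
    obtain ⟨y, hy⟩ := hne
    obtain ⟨x, rfl⟩ := hf5.surj y
    exact ⟨x, hy⟩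
  · rw [hcr, preimage_compl, compl_compl]
  · intro x hx y hy hxy
    exact (hg5 _ hy).eq hxy

end Pool.Agent.H827.TM
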