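import Pool.Agent.H827.TM.Plane

/-!
# Tame maps of intervals
-/

set_option autoImplicit false
set_option linter.unusedSectionVars false

open Set Filter Topology Metric Function MeasureTheory
open scoped Manifold ContDiff

noncomputable section

namespace Pool.Agent.H827.TM

open Pool.Agent.Y522 Pool.Agent.N550.KH Pool.Agent.H827.SF

/-- blending on the left side -/
theorem blend {g L β : ℝ → ℝ} {p p₁ l t : ℝ} (hL : ∀ x, HasDerivAt L l x) (hl : 0 < l)
    (hg : 0 < deriv g t) (hgd : DifferentiableAt ℝ g t) (hβ : ContDiff ℝ ∞ β) (hm : Monotone β)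
    (hβ0 : ∀ x, 0 ≤ β x) (hβ1 : ∀ x, β x ≤ 1) (hβp : ∀ x, x ≤ p → β x = 0)
    (hle : ∀ x, p ≤ x → x ≤ p₁ → g x ≤ L x) (ht : t ≤ p₁) :
    0 < deriv (fun x => g x + β x * (L x - g x)) t := by
  have hβd : HasDerivAt β (deriv β t) t :=
    (hβ.differentiable (by simp)).differentiableAt.hasDerivAt
  have hd := hgd.hasDerivAt.add (hβd.mul ((hL t).sub hgd.hasDerivAt))
  have hd' : HasDerivAt (fun x => g x + β x * (L x - g x))
      (deriv g t + (deriv β t * (L t - g t) + β t * (l - deriv g t))) t := hd
  rw [hd'.deriv]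
  have h1 : 0 ≤ deriv β t * (L t - g t) := by
    rcases lt_or_ge t p with h | h
    · have h2 : β =ᶠ[𝓝 t] fun _ => 0 := by
        filter_upwards [Iio_mem_nhds h] with x hx
        exact hβp x (le_of_lt hx)
      rw [h2.deriv_eq]
      simp
    · exact mul_nonneg hm.deriv_nonneg (sub_nonneg.2 (hle t h ht))
  have h2 : 0 < (1 - β t) * deriv g t + β t * l := by
    rcases eq_or_lt_of_le (hβ0 t) with h | h
    · rw [← h]
      simpa using hg
    · have h3 := mul_nonneg (sub_nonneg.2 (hβ1 t)) hg.le
      have h4 := mul_pos h hl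
      linarith
  nlinarith

/-- blending, the two-sided version -/
theorem real_case (g : ℝ → ℝ) (hg : StrictMono g) (_hc : Continuous g)
    (hr : range g = Ioo (-2) 2) (r₀ r₁ : ℝ) (h0 : 0 < r₀) (h01 : r₀ < r₁) (h12 : r₁ < 2)
    (hs : ∀ t, r₀ < |g t| → ContDiffAt ℝ ∞ g t ∧ deriv g t ≠ 0) :
    ∃ θ : ℝ → ℝ, ContDiff ℝ ∞ θ ∧ (∀ t, 0 < deriv θ t) ∧ range θ = Ioo (-2) 2 ∧
      ∀ t, r₁ ≤ |g t| → θ t = g t := by
  classical
  obtain ⟨r, hr0, hr1⟩ := exists_between h01
  obtain ⟨s, hs0, hs1⟩ := exists_between hr0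
  have hmem : ∀ x : ℝ, |x| < 2 → ∃ t, g t = x := by
    intro x hx
    have h1 : x ∈ range g := by
      rw [hr]
      exact abs_lt.1 hx
    exact h1
  obtain ⟨p, hp⟩ := hmem (-r) (by rw [abs_neg, abs_of_pos (by linarith)]; linarith)
  obtain ⟨q, hq⟩ := hmem r (by rw [abs_of_pos (by linarith)]; linarith)
  obtain ⟨p₁, hp₁⟩ := hmem (-s) (by rw [abs_neg, abs_of_pos (by linarith)]; linarith)
  obtain ⟨q₁, hq₁⟩ := hmem s (by rw [abs_of_pos (by linarith)]; linarith)
  have hpp : p < p₁ := hg.lt_iff_lt.1 (by rw [hp, hp₁]; linarith)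
  have hpq : p₁ < q₁ := hg.lt_iff_lt.1 (by rw [hp₁, hq₁]; linarith)
  have hqq : q₁ < q := hg.lt_iff_lt.1 (by rw [hq, hq₁]; linarith)
  -- derivatives
  have hpos : ∀ t, r₀ < |g t| → 0 < deriv g t := fun t ht =>
    lt_of_le_of_ne hg.monotone.deriv_nonneg (hs t ht).2.symm
  have habs1 : ∀ t, t ≤ p₁ → r₀ < |g t| := by
    intro t ht
    have h1 : g t ≤ -s := by rw [← hp₁]; exact hg.monotone ht
    rw [abs_of_neg (by linarith)]
    linarith
  have habs2 : ∀ t, q₁ ≤ t → r₀ < |g t| := by
    intro t ht
    have h1 : s ≤ g t := by rw [← hq₁]; exact hg.monotone ht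
    rw [abs_of_pos (by linarith)]
    linarith
  -- the affine function
  set l : ℝ := 2 * s / (q - p) with hl
  have hl0 : 0 < l := div_pos (by linarith) (by linarith)
  set L : ℝ → ℝ := fun t => -s + l * (t - p) with hL
  have hLd : ∀ x, HasDerivAt L l x := by
    intro x
    have h1 := ((((hasDerivAt_id x).sub_const p).const_mul l).const_add (-s))
    exact h1.congr_deriv (by simp)
  have hLp : L p = -s := by simp only [hL]; ring
  have hLq : L q = s := by
    simp only [hL, hl]
    have : q - p ≠ 0 := by linarith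
    field_simp
    ring
  have hLm : Monotone L := by
    intro x y hxy
    simp only [hL]
    have := mul_le_mul_of_nonneg_left (sub_le_sub_right hxy p) hl0.le
    linarith
  have hLs : ContDiff ℝ ∞ L := by
    simp only [hL]
    fun_prop
  -- the cutoff functions
  set β₁ : ℝ → ℝ := fun t => Real.smoothTransition ((t - p) / (p₁ - p)) with hβ₁
  set β₂ : ℝ → ℝ := fun t => Real.smoothTransition ((q - t) / (q - q₁)) with hβ₂
  have hβ₁s : ContDiff ℝ ∞ β₁ := Real.smoothTransition.contDiff.comp (by fun_prop)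
  have hβ₂s : ContDiff ℝ ∞ β₂ := Real.smoothTransition.contDiff.comp (by fun_prop)
  have hβ₁0 : ∀ x, x ≤ p → β₁ x = 0 := fun x hx =>
    Real.smoothTransition.zero_of_nonpos (div_nonpos_of_nonpos_of_nonneg (by linarith) (by linarith))
  have hβ₁1 : ∀ x, p₁ ≤ x → β₁ x = 1 := fun x hx =>
    Real.smoothTransition.one_of_one_le ((one_le_div (by linarith)).2 (by linarith))
  have hβ₂0 : ∀ x, q ≤ x → β₂ x = 0 := fun x hx =>
    Real.smoothTransition.zero_of_nonpos (div_nonpos_of_nonpos_of_nonneg (by linarith) (by linarith))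
  have hβ₂1 : ∀ x, x ≤ q₁ → β₂ x = 1 := fun x hx =>
    Real.smoothTransition.one_of_one_le ((one_le_div (by linarith)).2 (by linarith))
  have hβ₁m : Monotone β₁ := by
    intro x y hxy
    exact Real.smoothTransition.monotone (div_le_div_of_nonneg_right (by linarith) (by linarith))
  -- the function
  set θ : ℝ → ℝ := fun t => g t + β₁ t * β₂ t * (L t - g t) with hθ
  have hmid : ∀ t, p₁ ≤ t → t ≤ q₁ → θ t = L t := by
    intro t h1 h2
    simp only [hθ, hβ₁1 t h1, hβ₂1 t h2]
    ring
  have hleft : ∀ t, t < q₁ → θ =ᶠ[𝓝 t] fun x => g x + β₁ x * (L x - g x) := by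
    intro t ht
    filter_upwards [Iio_mem_nhds ht] with x hx
    simp only [hθ, hβ₂1 x (le_of_lt hx), mul_one]
  have hright : ∀ t, p₁ < t → θ =ᶠ[𝓝 t] fun x => g x + β₂ x * (L x - g x) := by
    intro t ht
    filter_upwards [Ioi_mem_nhds ht] with x hx
    simp only [hθ, hβ₁1 x (le_of_lt hx), one_mul]
  have hcent : ∀ t, p₁ < t → t < q₁ → θ =ᶠ[𝓝 t] L := by
    intro t h1 h2
    filter_upwards [Ioo_mem_nhds h1 h2] with x hx
    exact hmid x hx.1.le hx.2.le
  have hθs : ContDiff ℝ ∞ θ := by
    rw [contDiff_iff_contDiffAt]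
    intro t
    by_cases h1 : r₀ < |g t|
    · exact (hs t h1).1.add ((hβ₁s.contDiffAt.mul hβ₂s.contDiffAt).mul
        (hLs.contDiffAt.sub (hs t h1).1))
    · have h2 : p₁ < t := by
        by_contra hcon
        exact h1 (habs1 t (not_lt.1 hcon))
      have h3 : t < q₁ := by
        by_contra hcon
        exact h1 (habs2 t (not_lt.1 hcon))
      exact hLs.contDiffAt.congr_of_eventuallyEq (hcent t h2 h3)
  have hθd : ∀ t, 0 < deriv θ t := by
    intro t
    rcases le_or_gt t p₁ with h1 | h1
    · rw [(hleft t (by linarith)).deriv_eq]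
      refine blend hLd hl0 (hpos t (habs1 t h1))
        ((hs t (habs1 t h1)).1.differentiableAt (by simp)) hβ₁s hβ₁m
        (fun x => Real.smoothTransition.nonneg _) (fun x => Real.smoothTransition.le_one _) hβ₁0
        (fun x hx1 hx2 => ?_) h1
      have h2 : g x ≤ -s := by rw [← hp₁]; exact hg.monotone hx2
      have h3 : -s ≤ L x := by rw [← hLp]; exact hLm hx1
      linarith
    · rcases lt_or_ge t q₁ with h2 | h2
      · rw [(hcent t h1 h2).deriv_eq, (hLd t).deriv]
        exact hl0
      · -- reflection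
        rw [(hright t h1).deriv_eq]
        have hgt := (hs t (habs2 t h2)).1.differentiableAt (by simp : (∞ : WithTop ℕ∞) ≠ 0)
        have key := blend (g := fun x => -g (-x)) (L := fun x => -L (-x)) (β := fun x => β₂ (-x))
          (p := -q) (p₁ := -q₁) (l := l) (t := -t) (fun x => by
            have h3 := ((hLd (-x)).scomp x ((hasDerivAt_id x).neg)).neg
            refine h3.congr_deriv ?_
            simp) hl0 (by
            have h3 : HasDerivAt (fun x => -g (-x)) (deriv g t) (-t) := by
              have h4 : HasDerivAt g (deriv g t) (- -t) := by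
                rw [neg_neg]
                exact hgt.hasDerivAt
              have h5 := (h4.scomp (-t) ((hasDerivAt_id (-t)).neg)).neg
              refine h5.congr_deriv ?_
              simp
            rw [h3.deriv]
            exact hpos t (habs2 t h2)) (by
            have h4 : DifferentiableAt ℝ g (- -t) := by
              rw [neg_neg]
              exact hgt
            exact (h4.comp (-t) (differentiableAt_id.neg)).neg) (hβ₂s.comp contDiff_neg) (by
            intro x y hxy
            exact Real.smoothTransition.monotone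
              (div_le_div_of_nonneg_right (by linarith) (by linarith)))
          (fun x => Real.smoothTransition.nonneg _) (fun x => Real.smoothTransition.le_one _)
          (fun x hx => hβ₂0 _ (by linarith)) (fun x hx1 hx2 => by
            have h5 : s ≤ g (-x) := by rw [← hq₁]; exact hg.monotone (by linarith)
            have h6 : L (-x) ≤ s := by rw [← hLq]; exact hLm (by linarith)
            linarith) (by linarith)
        have e1 : (fun x => -g (-x) + β₂ (-x) * (-L (-x) - -g (-x))) =
            fun x => -((fun x => g x + β₂ x * (L x - g x)) (-x)) := by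
          funext x
          ring
        rw [e1] at key
        have hFd : DifferentiableAt ℝ (fun x => g x + β₂ x * (L x - g x)) t :=
          hgt.add (((hβ₂s.differentiable (by simp)).differentiableAt).mul
            ((hLs.differentiable (by simp)).differentiableAt.sub hgt))
        have h7 : HasDerivAt (fun x => -((fun x => g x + β₂ x * (L x - g x)) (-x)))
            (deriv (fun x => g x + β₂ x * (L x - g x)) t) (-t) := by
          have h4 : HasDerivAt (fun x => g x + β₂ x * (L x - g x))
              (deriv (fun x => g x + β₂ x * (L x - g x)) t) (- -t) := by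
            rw [neg_neg]
            exact hFd.hasDerivAt
          have h5 := (h4.scomp (-t) ((hasDerivAt_id (-t)).neg)).neg
          refine h5.congr_deriv ?_
          simp
        rwa [h7.deriv] at key
  have hθm : StrictMono θ := strictMono_of_deriv_pos hθd
  have hθp : ∀ t, t ≤ p → θ t = g t := by
    intro t ht
    simp only [hθ, hβ₁0 t ht]
    ring
  have hθq : ∀ t, q ≤ t → θ t = g t := by
    intro t ht
    simp only [hθ, hβ₂0 t ht]
    ring
  refine ⟨θ, hθs, hθd, ?_, ?_⟩
  · ext x
    constructor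
    · rintro ⟨t, rfl⟩
      have hgm : ∀ t, g t ∈ Ioo (-2 : ℝ) 2 := fun t => by
        rw [← hr]
        exact mem_range_self t
      constructor
      · have h1 : θ (min t p) ≤ θ t := hθm.monotone (min_le_left _ _)
        rw [hθp _ (min_le_right _ _)] at h1
        linarith [(hgm (min t p)).1]
      · have h1 : θ t ≤ θ (max t q) := hθm.monotone (le_max_left _ _)
        rw [hθq _ (le_max_right _ _)] at h1
        linarith [(hgm (max t q)).2]
    · intro hx
      obtain ⟨y, hy⟩ := hmem x (abs_lt.2 hx)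
      rcases le_total y p with h1 | h1
      · exact ⟨y, by rw [hθp y h1, hy]⟩
      · rcases le_total q y with h2 | h2
        · exact ⟨y, by rw [hθq y h2, hy]⟩
        · have h3 : x ∈ Icc (θ p) (θ q) := by
            rw [hθp p le_rfl, hθq q le_rfl, ← hy]
            exact ⟨hg.monotone h1, hg.monotone h2⟩
          obtain ⟨z, -, hz⟩ := intermediate_value_Icc (by linarith) hθs.continuous.continuousOn h3
          exact ⟨z, hz⟩
  · intro t ht
    rcases le_abs.1 ht with h1 | h1
    · refine hθq t (hg.le_iff_le.1 ?_)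
      rw [hq]
      linarith
    · refine hθp t (hg.le_iff_le.1 ?_)
      rw [hp]
      linarith

/-- the point with coordinate `t` -/
def pt (t : ℝ) : E 1 := EuclideanSpace.single 0 t

theorem pt_zero (t : ℝ) : pt t 0 = t := by simp [pt]

theorem pt_coord (z : E 1) : pt (z 0) = z := by
  ext i
  rw [Subsingleton.elim i 0, pt_zero]

theorem norm_pt (z : E 1) : ‖z‖ = |z 0| := by
  rw [EuclideanSpace.norm_eq]
  simp [Real.sqrt_sq_eq_abs]

theorem pt_smooth : ContDiff ℝ ∞ pt := by
  rw [contDiff_euclidean]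
  intro i
  have : (fun x => pt x i) = fun x => x := by
    funext x
    rw [Subsingleton.elim i 0, pt_zero]
  rw [this]
  exact contDiff_id

/-- the coordinate -/
def co : E 1 →L[ℝ] ℝ := EuclideanSpace.proj 0

theorem co_apply (z : E 1) : co z = z 0 := rfl

theorem pt_inj {s t : ℝ} (h : pt s = pt t) : s = t := by
  have := congrArg (fun z : E 1 => z 0) h
  simpa [pt_zero] using this

/-- from functions of one variable to maps -/
theorem LD_of_real {θ : ℝ → ℝ} (hθ : ContDiff ℝ ∞ θ) (hd : ∀ t, deriv θ t ≠ 0) (z : E 1) :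
    LD 1 (fun z : E 1 => pt (θ (z 0))) z := by
  have hs : ContDiff ℝ ∞ (fun z : E 1 => pt (θ (z 0))) :=
    pt_smooth.comp (hθ.comp co.contDiff)
  refine LD_of_inj hs ?_
  rw [injective_iff_map_eq_zero]
  intro v hv
  have h1 : HasFDerivAt (fun z : E 1 => θ (z 0)) ((deriv θ (z 0)) • co) z := by
    have h2 : HasDerivAt θ (deriv θ (z 0)) (co z) :=
      ((hθ.differentiable (by simp)) _).hasDerivAt
    exact h2.comp_hasFDerivAt z co.hasFDerivAt
  have h3 : HasFDerivAt (fun z : E 1 => co (pt (θ (z 0))))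
      (co.comp (fderiv ℝ (fun z : E 1 => pt (θ (z 0))) z)) z :=
    co.hasFDerivAt.comp z ((hs.differentiable (by simp)) z).hasFDerivAt
  have h4 : (fun z : E 1 => co (pt (θ (z 0)))) = fun z => θ (z 0) := by
    funext z
    rw [co_apply, pt_zero]
  rw [h4] at h3
  have h5 := congrArg (fun A : E 1 →L[ℝ] ℝ => A v) (h1.unique h3)
  simp only [ContinuousLinearMap.comp_apply, hv, map_zero] at h5
  have h6 : deriv θ (z 0) * v 0 = 0 := h5
  have h7 : v 0 = 0 := (mul_eq_zero.1 h6).resolve_left (hd _)
  rw [← pt_coord v, h7]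
  ext i
  simp [pt]

/-- derivatives of coordinates of local diffeomorphisms -/
theorem real_of_LD {H : E 1 → E 1} {t : ℝ} (h : LD 1 H (pt t)) :
    ContDiffAt ℝ ∞ (fun t => H (pt t) 0) t ∧ deriv (fun t => H (pt t) 0) t ≠ 0 := by
  have h1 : ContDiffAt ℝ ∞ H (pt t) := h.contDiffAt
  have h2 : ContDiffAt ℝ ∞ (fun t => H (pt t)) t := h1.comp t pt_smooth.contDiffAt
  have h3 : ContDiffAt ℝ ∞ (fun t => co (H (pt t))) t := co.contDiff.contDiffAt.comp t h2
  refine ⟨h3, ?_⟩
  obtain ⟨q, hq1, hq2, hq3, hq4⟩ := h.exists_inverse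
  have hq : ContDiffAt ℝ ∞ q (H (pt t)) := LD.contDiffAt hq1
  intro h0
  -- the composition is the identity
  have e1 : HasDerivAt (fun t => H (pt t) 0) 0 t := by
    rw [← h0]
    exact (h3.differentiableAt (by simp)).hasDerivAt
  have e2 : DifferentiableAt ℝ (fun s => q (pt s) 0) (H (pt t) 0) := by
    have h5 : ContDiffAt ℝ ∞ (fun s => co (q (pt s))) (H (pt t) 0) := by
      refine co.contDiff.contDiffAt.comp _ (ContDiffAt.comp _ ?_ pt_smooth.contDiffAt)
      rw [pt_coord]
      exact hq
    exact h5.differentiableAt (by simp)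
  have e3 := e2.hasDerivAt.scomp t e1
  have e4 : (fun t => t) =ᶠ[𝓝 t] ((fun s => q (pt s) 0) ∘ fun t => H (pt t) 0) := by
    have h6 : ∀ᶠ z in 𝓝 (pt t), q (H z) = z := hq3
    filter_upwards [pt_smooth.continuous.continuousAt.eventually h6] with s hs
    show s = q (pt (H (pt s) 0)) 0
    rw [pt_coord, hs, pt_zero]
  have e5 := (e3.congr_of_eventuallyEq e4).unique (hasDerivAt_id t)
  simp at e5

theorem am1_homeo (H : E 1 → E 1) (r₀ r₁ : ℝ) (h0 : 0 < r₀) (h01 : r₀ < r₁) (h12 : r₁ < 2)
    (hH : IsOpenEmbedding H) (hr : range H = ball 0 2) (hL : ∀ z, r₀ < ‖H z‖ → LD 1 H z) :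
    ∃ Θ : E 1 → E 1, Injective Θ ∧ (∀ z, LD 1 Θ z) ∧ range Θ = ball 0 2 ∧
      ∀ z, r₁ ≤ ‖H z‖ → Θ z = H z := by
  set g : ℝ → ℝ := fun t => H (pt t) 0 with hg
  have hgc : Continuous g := co.continuous.comp (hH.continuous.comp pt_smooth.continuous)
  have hHg : ∀ z, H z = pt (g (z 0)) := by
    intro z
    simp only [hg]
    rw [pt_coord, pt_coord]
  have hgn : ∀ z, ‖H z‖ = |g (z 0)| := by
    intro z
    rw [hHg, norm_pt, pt_zero]
  have hgi : Injective g := by
    intro s t hst
    have h1 : H (pt s) = H (pt t) := by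
      rw [hHg, hHg, pt_zero, pt_zero, hst]
    exact pt_inj (hH.injective h1)
  have hgr : range g = Ioo (-2) 2 := by
    ext x
    constructor
    · rintro ⟨t, rfl⟩
      have h1 : H (pt t) ∈ ball (0 : E 1) 2 := by
        rw [← hr]
        exact mem_range_self _
      rw [mem_ball_zero_iff, hgn, pt_zero] at h1
      exact abs_lt.1 h1
    · intro hx
      have h1 : pt x ∈ range H := by
        rw [hr, mem_ball_zero_iff, norm_pt, pt_zero]
        exact abs_lt.2 hx
      obtain ⟨z, hz⟩ := h1
      refine ⟨z 0, ?_⟩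
      rw [hHg] at hz
      exact pt_inj hz
  have hgs : ∀ t, r₀ < |g t| → ContDiffAt ℝ ∞ g t ∧ deriv g t ≠ 0 := by
    intro t ht
    refine real_of_LD (hL _ ?_)
    rw [hgn, pt_zero]
    exact ht
  -- the increasing case
  have key : ∃ θ : ℝ → ℝ, ContDiff ℝ ∞ θ ∧ (∀ t, deriv θ t ≠ 0) ∧ Injective θ ∧
      range θ = Ioo (-2) 2 ∧ ∀ t, r₁ ≤ |g t| → θ t = g t := by
    rcases hgc.strictMono_of_inj hgi with hm | hm
    · obtain ⟨θ, h1, h2, h3, h4⟩ := real_case g hm hgc hgr r₀ r₁ h0 h01 h12 hgs
      exact ⟨θ, h1, fun t => (h2 t).ne', (strictMono_of_deriv_pos h2).injective, h3, h4⟩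
    · obtain ⟨θ, h1, h2, h3, h4⟩ := real_case (fun t => -g t) (fun s t hst => neg_lt_neg (hm hst))
        hgc.neg (by
          ext x
          constructor
          · rintro ⟨t, rfl⟩
            have : g t ∈ Ioo (-2 : ℝ) 2 := by rw [← hgr]; exact mem_range_self t
            exact ⟨by linarith [this.2], by linarith [this.1]⟩
          · intro hx
            have : -x ∈ range g := by
              rw [hgr]
              exact ⟨by linarith [hx.2], by linarith [hx.1]⟩
            obtain ⟨t, ht⟩ := this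
            exact ⟨t, by simp only [ht, neg_neg]⟩) r₀ r₁ h0 h01 h12 (fun t ht => by
          rw [abs_neg] at ht
          obtain ⟨h1, h2⟩ := hgs t ht
          refine ⟨h1.neg, ?_⟩
          rw [deriv.fun_neg]
          exact neg_ne_zero.2 h2)
      refine ⟨fun t => -θ t, h1.neg, fun t => ?_, fun s t hst => ?_, ?_, fun t ht => ?_⟩
      · rw [deriv.fun_neg]
        exact neg_ne_zero.2 (h2 t).ne'
      · exact (strictMono_of_deriv_pos h2).injective (neg_injective hst)
      · ext x
        constructor
        · rintro ⟨t, rfl⟩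
          have : θ t ∈ Ioo (-2 : ℝ) 2 := by rw [← h3]; exact mem_range_self t
          exact ⟨by linarith [this.2], by linarith [this.1]⟩
        · intro hx
          have : -x ∈ range θ := by
            rw [h3]
            exact ⟨by linarith [hx.2], by linarith [hx.1]⟩
          obtain ⟨t, ht⟩ := this
          exact ⟨t, by simp only [ht, neg_neg]⟩
      · show -θ t = g t
        rw [h4 t (by rw [abs_neg]; exact ht), neg_neg]
  obtain ⟨θ, h1, h2, h3, h4, h5⟩ := key
  refine ⟨fun z => pt (θ (z 0)), ?_, fun z => LD_of_real h1 h2 z, ?_, ?_⟩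
  · intro z z' hzz
    have h6 := h3 (pt_inj hzz)
    rw [← pt_coord z, ← pt_coord z', h6]
  · ext w
    rw [mem_ball_zero_iff, norm_pt]
    constructor
    · rintro ⟨z, rfl⟩
      rw [pt_zero]
      refine abs_lt.2 ?_
      have : θ (z 0) ∈ Ioo (-2 : ℝ) 2 := by rw [← h4]; exact mem_range_self _
      exact this
    · intro hw
      have : w 0 ∈ range θ := by
        rw [h4]
        exact abs_lt.1 hw
      obtain ⟨t, ht⟩ := this
      refine ⟨pt t, ?_⟩
      simp only [pt_zero, ht, pt_coord]
  · intro z hz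
    rw [hgn] at hz
    show pt (θ (z 0)) = H z
    rw [hHg, h5 _ hz]

/-- **The line.** -/
theorem am_one : AM 1 := am_of_homeo (by norm_num) am1_homeo

end Pool.Agent.H827.TM
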