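import Pool.Agent.H827.TM.Str
import Pool.Graph.R_pool_sql_team_seeded_63374d34.N550.KH.All

/-!
# Tame maps of discs of dimension two
-/

set_option autoImplicit false
set_option linter.unusedSectionVars false

open Set Filter Topology Metric Function MeasureTheory
open scoped Manifold ContDiff

noncomputable section

namespace Pool.Agent.H827.TM

open Pool.Agent.Y522 Pool.Agent.N550.KH Pool.Agent.H827.SF

/-- a smooth map with injective derivative is a local diffeomorphism -/
theorem LD_of_inj {n : ℕ} {f : E n → E n} {z : E n} (hf : ContDiff ℝ ∞ f)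
    (hi : Injective (fderiv ℝ f z)) : LD n f z := by
  have hs : Surjective (fderiv ℝ f z) :=
    (LinearMap.injective_iff_surjective (f := (fderiv ℝ f z : E n →ₗ[ℝ] E n))).1 hi
  refine LD_of_contDiffAt (Eventually.of_forall fun y => hf.contDiffAt)
    (ContinuousLinearEquiv.ofBijective (fderiv ℝ f z) (LinearMap.ker_eq_bot.2 hi)
      (LinearMap.range_eq_top.2 hs)) ?_
  rw [ContinuousLinearEquiv.coe_ofBijective]
  exact (hf.contDiffAt.differentiableAt (by simp)).hasFDerivAt

/-- the homeomorphism case implies the tame case, in all dimensions -/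
theorem am_of_homeo {n : ℕ} (hn : 0 < n)
    (hA : ∀ (H : E n → E n) (r₀ r₁ : ℝ), 0 < r₀ → r₀ < r₁ → r₁ < 2 → IsOpenEmbedding H →
      range H = ball 0 2 → (∀ z, r₀ < ‖H z‖ → LD n H z) →
      ∃ Θ : E n → E n, Injective Θ ∧ (∀ z, LD n Θ z) ∧ range Θ = ball 0 2 ∧
        ∀ z, r₁ ≤ ‖H z‖ → Θ z = H z) : AM n := by
  classical
  intro H r₀ r₁ h0 h01 h12 hHs hHp hHr hHu hHg
  have hr1 : 0 < r₁ := h0.trans h01
  have hHc : Continuous H := hHs.continuous
  set b : E n → E n := End.jb r₁ with hb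
  have hbi : Injective b := End.jb_inj r₁ hr1
  have hbL : ∀ z, LD n b z := End.jb_LD r₁ hr1
  have hbn : ∀ z, ‖b z‖ < r₁ := End.jb_norm r₁ hr1
  have hbs : ∀ w, ‖w‖ < r₁ → ∃ z, b z = w := End.jb_surj r₁ hr1
  have hbc : Continuous b := Two.cont_of_ld hbL
  set Z : Set (E n) := {z | ‖H z‖ < r₁} with hZ
  have hZo : IsOpen Z := isOpen_lt hHc.norm continuous_const
  set t : E n → E n := fun z => invFun b (H z) with ht
  have hbt : ∀ z ∈ Z, b (t z) = H z := by
    intro z hz
    obtain ⟨w, hw⟩ := hbs (H z) hz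
    exact Two.app_inv ⟨w, hw⟩
  have hpL : ∀ z ∈ Z, LD n (invFun b) (H z) := by
    intro z hz
    obtain ⟨w, hw⟩ := hbs (H z) hz
    rw [← hw]
    exact Two.ld_inv hbi hbL w
  have key : ∀ z y, H z = b y ↔ z ∈ Z ∧ t z = y := by
    intro z y
    constructor
    · intro h
      refine ⟨?_, ?_⟩
      · show ‖H z‖ < r₁
        rw [h]
        exact hbn y
      · show invFun b (H z) = y
        rw [h, Two.inv_app hbi]
    · rintro ⟨hz, rfl⟩
      exact (hbt z hz).symm
  have hpre : ∀ K : Set (E n), Z ∩ t ⁻¹' K = H ⁻¹' (b '' K) := by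
    intro K
    ext z
    constructor
    · rintro ⟨hz, hzK⟩
      exact ⟨t z, hzK, hbt z hz⟩
    · rintro ⟨y, hy, hyz⟩
      obtain ⟨h1, h2⟩ := (key z y).1 hyz.symm
      exact ⟨h1, by rw [mem_preimage, h2]; exact hy⟩
  have hcK : ∀ K : Set (E n), IsCompact K → IsCompact (Z ∩ t ⁻¹' K) := by
    intro K hK
    rw [hpre]
    refine hHp _ (hK.image hbc) ?_
    rintro _ ⟨y, -, rfl⟩
    rw [mem_ball_zero_iff]
    exact (hbn y).trans h12
  obtain ⟨j, hje, hjc, hjd, hjr⟩ := core_base (m := n) Z hZo t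
    (fun z hz => ContMDiffAt.comp (g := invFun b) z (hpL z hz).contMDiffAt
      hHs.contMDiff.contMDiffAt) hcK
    (fun y => by
      have h1 : b y ∈ range H := by
        rw [hHr, mem_ball_zero_iff]
        exact (hbn y).trans h12
      obtain ⟨z, hz⟩ := h1
      obtain ⟨h2, h3⟩ := (key z y).1 hz
      exact ⟨z, h2, h3⟩)
    (fun y => by
      rw [hpre, image_singleton]
      refine hHu _ ?_
      rw [mem_ball_zero_iff]
      exact (hbn y).trans h12)
  have hjs : ContDiff ℝ ∞ j := contMDiff_iff_contDiff.1 hjc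
  have hji : Injective j := hje.injective
  have hjL : ∀ y, LD n j y := fun y => by
    refine LD_of_inj hjs ?_
    have h1 := hjd y
    rwa [mfderiv_eq_fderiv] at h1
  have hjZ : ∀ y, j y ∈ Z := fun y => by
    rw [← hjr]
    exact mem_range_self y
  have hjp : ∀ y, invFun j (j y) = y := leftInverse_invFun hji
  set e : E n → E n := fun y => t (j y) with he
  have hbe : ∀ y, b (e y) = H (j y) := fun y => hbt _ (hjZ y)
  have heL : ∀ y, r₀ < ‖H (j y)‖ → LD n e y := by
    intro y hy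
    refine LD.comp_fun (g := invFun b) (f := fun y => H (j y)) (hpL _ (hjZ y)) ?_
    exact LD.comp_fun (g := H) (hHg _ hy).1 (hjL y)
  have hec : Continuous e := by
    rw [continuous_iff_continuousAt]
    intro y
    exact ContinuousAt.comp (g := invFun b) (hpL _ (hjZ y)).continuousAt
      (hHc.comp hje.continuous).continuousAt
  have hecp : ∀ K : Set (E n), IsCompact K → IsCompact (e ⁻¹' K) := by
    intro K hK
    have h1 : e ⁻¹' K = j ⁻¹' (Z ∩ t ⁻¹' K) := by
      ext y
      exact ⟨fun h => ⟨hjZ y, h⟩, fun h => h.2⟩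
    rw [h1]
    refine hje.isInducing.isCompact_preimage' (hcK K hK) ?_
    rw [hjr]
    exact inter_subset_left
  obtain ⟨R, hR⟩ : ∃ R : ℝ, ∀ y, R < ‖y‖ → r₀ < ‖H (j y)‖ := by
    have h1 : IsCompact (j ⁻¹' (H ⁻¹' closedBall 0 r₀)) := by
      refine hje.isInducing.isCompact_preimage' (hHp _ (isCompact_closedBall _ _) ?_) ?_
      · exact closedBall_subset_ball (h01.trans h12)
      · rw [hjr]
        intro z hz
        rw [mem_preimage, mem_closedBall_zero_iff] at hz
        exact lt_of_le_of_lt hz h01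
    obtain ⟨R, hR⟩ := h1.isBounded.exists_norm_le
    refine ⟨R, fun y hy => ?_⟩
    by_contra hcon
    have h2 := hR y (by
      rw [mem_preimage, mem_preimage, mem_closedBall_zero_iff]
      exact not_lt.1 hcon)
    linarith
  have hes : Surjective e := by
    intro w
    have h1 : b w ∈ range H := by
      rw [hHr, mem_ball_zero_iff]
      exact (hbn w).trans h12
    obtain ⟨z, hz⟩ := h1
    obtain ⟨h2, h3⟩ := (key z w).1 hz
    rw [← hjr] at h2
    obtain ⟨y, rfl⟩ := h2
    exact ⟨y, h3⟩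
  obtain ⟨G, hGL, A, hGA⟩ := End.main n e R hn (by
    intro y hy y' hy' hyy
    have h1 : H (j y) = H (j y') := by rw [← hbe, ← hbe, hyy]
    exact hji ((hHg _ (hR y' hy')).2 _ h1)) (fun y hy => heL y (hR y hy)) (by
    rw [hasBasis_cocompact.tendsto_right_iff]
    intro K hK
    exact (hecp K hK).compl_mem_cocompact) (by
    intro R₁
    obtain ⟨A, hA⟩ := ((isCompact_closedBall (0 : E n) R₁).image hec).isBounded.exists_norm_le
    refine ⟨A, fun w hw => ?_⟩
    obtain ⟨z, hz⟩ := hes w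
    refine ⟨z, ?_, hz⟩
    by_contra hcon
    have := hA w ⟨z, by rw [mem_closedBall_zero_iff]; exact not_lt.1 hcon, hz⟩
    linarith)
  -- the homeomorphism
  obtain ⟨H', hH'Z, hH'n⟩ : ∃ H' : E n → E n, (∀ y, H' (j y) = b (G y)) ∧
      ∀ z, z ∉ Z → H' z = H z := by
    refine ⟨fun z => if z ∈ Z then b (G (invFun j z)) else H z, fun y => ?_, fun z hz => if_neg hz⟩
    simp only [hjZ y, if_true, hjp]
  have hnear : ∀ z, z ∉ Z → H' =ᶠ[𝓝 z] H := by
    intro z hz
    have hcl : IsClosed (j '' closedBall 0 A) :=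
      ((isCompact_closedBall (0 : E n) A).image hje.continuous).isClosed
    have hzn : z ∈ (j '' closedBall 0 A)ᶜ := by
      rintro ⟨y, -, rfl⟩
      exact hz (hjZ y)
    filter_upwards [hcl.isOpen_compl.mem_nhds hzn] with z' hz'
    by_cases h1 : z' ∈ Z
    · rw [← hjr] at h1
      obtain ⟨y, rfl⟩ := h1
      have h2 : A < ‖y‖ := by
        by_contra hcon
        exact hz' ⟨y, by rw [mem_closedBall_zero_iff]; exact not_lt.1 hcon, rfl⟩
      rw [hH'Z, hGA y h2, hbe]
    · exact hH'n z' h1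
  have hnearZ : ∀ y, H' =ᶠ[𝓝 (j y)] fun z => b (G (invFun j z)) := by
    intro y
    filter_upwards [hZo.mem_nhds (hjZ y)] with z hz
    rw [← hjr] at hz
    obtain ⟨y', rfl⟩ := hz
    rw [hH'Z, hjp]
  have hiL : ∀ y, LD n (invFun j) (j y) := fun y => Two.ld_inv hji hjL y
  have hnot : ∀ z, z ∉ Z → r₀ < ‖H z‖ := fun z hz => lt_of_lt_of_le h01 (not_lt.1 hz)
  have hH'c : Continuous H' := by
    rw [continuous_iff_continuousAt]
    intro z
    by_cases hz : z ∈ Z
    · rw [← hjr] at hz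
      obtain ⟨y, rfl⟩ := hz
      have h1 : ContinuousAt (fun z => b (G (invFun j z))) (j y) :=
        hbc.continuousAt.comp (G.continuous.continuousAt.comp (hiL y).continuousAt)
      exact h1.congr (hnearZ y).symm
    · exact hHc.continuousAt.congr (hnear z hz).symm
  have hH'i : Injective H' := by
    have mix : ∀ y z, z ∉ Z → H' (j y) ≠ H' z := by
      intro y z hz hyz
      rw [hH'Z, hH'n z hz] at hyz
      apply hz
      show ‖H z‖ < r₁
      rw [← hyz]
      exact hbn _
    intro z z' hzz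
    by_cases hz : z ∈ Z
    · rw [← hjr] at hz
      obtain ⟨y, rfl⟩ := hz
      by_cases hz' : z' ∈ Z
      · rw [← hjr] at hz'
        obtain ⟨y', rfl⟩ := hz'
        rw [hH'Z, hH'Z] at hzz
        rw [G.injective (hbi hzz)]
      · exact absurd hzz (mix y z' hz')
    · by_cases hz' : z' ∈ Z
      · rw [← hjr] at hz'
        obtain ⟨y', rfl⟩ := hz'
        exact absurd hzz.symm (mix y' z hz)
      · rw [hH'n z hz, hH'n z' hz'] at hzz
        exact (hHg z' (hnot z' hz')).2 z hzz
  have hH'r : range H' = ball 0 2 := by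
    ext w
    rw [mem_ball_zero_iff]
    constructor
    · rintro ⟨z, rfl⟩
      by_cases hz : z ∈ Z
      · rw [← hjr] at hz
        obtain ⟨y, rfl⟩ := hz
        rw [hH'Z]
        exact (hbn _).trans h12
      · rw [hH'n z hz, ← mem_ball_zero_iff, ← hHr]
        exact mem_range_self z
    · intro hw
      by_cases h1 : ‖w‖ < r₁
      · obtain ⟨y, rfl⟩ := hbs w h1
        obtain ⟨y', rfl⟩ := G.surjective y
        exact ⟨j y', hH'Z y'⟩
      · rw [← mem_ball_zero_iff, ← hHr] at hw
        obtain ⟨z, rfl⟩ := hw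
        exact ⟨z, hH'n z h1⟩
  have hH'o : IsOpenMap H' := by
    rw [isOpenMap_iff_nhds_le]
    intro z s hs
    rw [mem_map] at hs
    refine mem_of_superset ?_ (image_preimage_subset H' s)
    by_cases hz : z ∈ Z
    · rw [← hjr] at hz
      obtain ⟨y, rfl⟩ := hz
      have h1 : j ⁻¹' (H' ⁻¹' s) ∈ 𝓝 y := hje.continuous.continuousAt.preimage_mem_nhds hs
      have h2 : G '' (j ⁻¹' (H' ⁻¹' s)) ∈ 𝓝 (G y) := G.isOpenMap.image_mem_nhds h1
      have h3 : b '' (G '' (j ⁻¹' (H' ⁻¹' s))) ∈ 𝓝 (b (G y)) := (hbL _).image_mem_nhds h2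
      rw [hH'Z]
      refine mem_of_superset h3 ?_
      rintro _ ⟨_, ⟨y', hy', rfl⟩, rfl⟩
      exact ⟨j y', hy', hH'Z y'⟩
    · exact (LD.congr (hHg z (hnot z hz)).1 (hnear z hz)).image_mem_nhds hs
  have hH'e : IsOpenEmbedding H' :=
    IsOpenEmbedding.of_continuous_injective_isOpenMap hH'c hH'i hH'o
  have hz1 : ‖H' (j 0)‖ < r₁ := by
    rw [hH'Z]
    exact hbn _
  obtain ⟨Θ, hΘ1, hΘ2, hΘ3, hΘ4⟩ := hA H' (max r₀ ‖H' (j 0)‖) r₁ (lt_max_of_lt_left h0)
    (max_lt h01 hz1) h12 hH'e hH'r (by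
      intro z hz
      by_cases hzZ : z ∈ Z
      · rw [← hjr] at hzZ
        obtain ⟨y, rfl⟩ := hzZ
        have hy : y ≠ 0 := by
          rintro rfl
          exact absurd (le_max_right r₀ ‖H' (j 0)‖) (not_le.2 hz)
        refine LD.congr ?_ (hnearZ y)
        refine LD.comp_fun (g := b) (f := fun z => G (invFun j z)) (hbL _) ?_
        refine LD.comp_fun (g := G) (f := invFun j) ?_ (hiL y)
        rw [hjp]
        exact hGL y hy
      · exact LD.congr (hHg z (hnot z hzZ)).1 (hnear z hzZ))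
  refine ⟨Θ, hΘ1, hΘ2, hΘ3, fun z hz => ?_⟩
  have hzn : z ∉ Z := not_lt.2 hz
  rw [← hH'n z hzn]
  exact hΘ4 z (by rw [hH'n z hzn]; exact hz)

/-- **The plane.** -/
theorem am_two : AM 2 := am_of_homeo (by norm_num) a2

end Pool.Agent.H827.TM
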