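import Pool.Agent.H827.TM.Core
import Pool.Graph.R_pool_sql_team_seeded_63374d34.N550.KH.Hnd
import Pool.Graph.R_pool_sql_team_seeded_63374d34.N550.TS.Hnd2

/-!
# Good coordinates near the preimage of the core disc of a handle

Adaptation of the library module `N550.TS.Str` to tame maps.
-/

set_option autoImplicit false
set_option linter.unusedSectionVars false

open Set Filter Topology Metric Function MeasureTheory
open scoped Manifold ContDiff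

noncomputable section

namespace Pool.Agent.H827.TM

open Pool.Agent.Y522 Pool.Agent.N550.KH Pool.Agent.H827.SF

/-- A tame map of discs which is good near the boundary can be replaced by a diffeomorphism. -/
def AM (m : ℕ) : Prop :=
  ∀ (H : E m → E m) (r₀ r₁ : ℝ), 0 < r₀ → r₀ < r₁ → r₁ < 2 → ContDiff ℝ ∞ H →
    (∀ K : Set (E m), IsCompact K → K ⊆ ball 0 2 → IsCompact (H ⁻¹' K)) → range H = ball 0 2 →
    (∀ y ∈ ball (0 : E m) 2, UEmb m (H ⁻¹' {y})) →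
    (∀ z, r₀ < ‖H z‖ → LD m H z ∧ ∀ z', H z' = H z → z' = z) →
    ∃ Θ : E m → E m, Injective Θ ∧ (∀ z, LD m Θ z) ∧ range Θ = ball 0 2 ∧
      ∀ z, r₁ ≤ ‖H z‖ → Θ z = H z

theorem contDiff_jn (m k : ℕ) : ContDiff ℝ ∞ (fun p : E m × E k => jn m k p.1 p.2) :=
  (Pool.Agent.N550.TS.Hnd2.JN m k).contDiff

theorem continuous_jn (m k : ℕ) : Continuous (fun p : E m × E k => jn m k p.1 p.2) :=
  (contDiff_jn m k).continuous

section eu

variable {m k : ℕ} {V : Set (E (m + k))} {P : E (m + k) → E (m + k)} {r₂ ρ : ℝ}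

/-- the uniform neighbourhood of the disc -/
theorem tube (h2ρ : r₂ < ρ) (hρ1 : ρ < 1) (hV : IsOpen V) (hPs : ∀ z ∈ V, ContDiffAt ℝ ∞ P z)
    (hc : ∀ y : E m, ‖y‖ ≤ 1 → jn m k y 0 ∈ V ∧ (ρ ≤ ‖y‖ → up m k (P (jn m k y 0)) = y) ∧
      (‖y‖ ≤ ρ → ‖up m k (P (jn m k y 0))‖ ≤ ρ)) :
    ∃ δ : ℝ, 0 < δ ∧ ∀ w : E k, ‖w‖ < δ → ∀ y : E m, ‖y‖ ≤ 1 → jn m k y w ∈ V ∧
      (ρ ≤ ‖y‖ → r₂ < ‖up m k (P (jn m k y w))‖) ∧ (‖y‖ ≤ ρ → ‖up m k (P (jn m k y w))‖ < 1) := by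
  have hsw : Continuous (fun z : E k × E m => jn m k z.2 z.1) :=
    (continuous_jn m k).comp (continuous_snd.prodMk continuous_fst)
  have key : ∀ᶠ w in 𝓝 (0 : E k), ∀ y ∈ closedBall (0 : E m) 1, jn m k y w ∈ V ∧
      (ρ ≤ ‖y‖ → r₂ < ‖up m k (P (jn m k y w))‖) ∧
      (‖y‖ ≤ ρ → ‖up m k (P (jn m k y w))‖ < 1) := by
    refine (isCompact_closedBall (0 : E m) 1).eventually_forall_of_forall_eventually
      (P := fun w y => jn m k y w ∈ V ∧ (ρ ≤ ‖y‖ → r₂ < ‖up m k (P (jn m k y w))‖) ∧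
        (‖y‖ ≤ ρ → ‖up m k (P (jn m k y w))‖ < 1)) ?_
    intro y hy
    rw [mem_closedBall_zero_iff] at hy
    obtain ⟨c1, c2, c3⟩ := hc y hy
    have hcont : ContinuousAt (fun z : E k × E m => ‖up m k (P (jn m k z.2 z.1))‖) (0, y) := by
      have h1 : ContinuousAt (fun z : E k × E m => P (jn m k z.2 z.1)) (0, y) := by
        have h2 : ContinuousAt P (jn m k y 0) := (hPs _ c1).continuousAt
        exact ContinuousAt.comp (f := fun z : E k × E m => jn m k z.2 z.1) (x := ((0 : E k), y)) h2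
          hsw.continuousAt
      exact ((up m k).continuous.norm.continuousAt).comp h1
    have hn : Continuous (fun z : E k × E m => ‖z.2‖) := continuous_snd.norm
    have e1 : ∀ᶠ z : E k × E m in 𝓝 (0, y), jn m k z.2 z.1 ∈ V :=
      hsw.continuousAt.eventually (hV.mem_nhds c1)
    have e2 : ∀ᶠ z : E k × E m in 𝓝 (0, y), ρ ≤ ‖z.2‖ → r₂ < ‖up m k (P (jn m k z.2 z.1))‖ := by
      by_cases h : ρ ≤ ‖y‖
      · have h3 : r₂ < ‖up m k (P (jn m k y 0))‖ := by rw [c2 h]; linarith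
        filter_upwards [continuousAt_const.eventually_lt hcont h3] with z hz _
        exact hz
      · push Not at h
        filter_upwards [hn.continuousAt.eventually_lt continuousAt_const h] with z hz hz2
        exact absurd hz (not_lt.2 hz2)
    have e3 : ∀ᶠ z : E k × E m in 𝓝 (0, y), ‖z.2‖ ≤ ρ → ‖up m k (P (jn m k z.2 z.1))‖ < 1 := by
      by_cases h : ‖y‖ ≤ ρ
      · have h3 : ‖up m k (P (jn m k y 0))‖ < 1 := lt_of_le_of_lt (c3 h) hρ1
        filter_upwards [hcont.eventually_lt continuousAt_const h3] with z hz _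
        exact hz
      · push Not at h
        filter_upwards [continuousAt_const.eventually_lt hn.continuousAt h] with z hz hz2
        exact absurd hz (not_lt.2 hz2)
    filter_upwards [e1, e2, e3] with z h1 h2 h3
    exact ⟨h1, h2, h3⟩
  obtain ⟨δ, hδ, hball⟩ := Metric.eventually_nhds_iff.1 key
  exact ⟨δ, hδ, fun w hw y hy => hball (by rw [dist_zero_right]; exact hw) y
    (by rw [mem_closedBall_zero_iff]; exact hy)⟩

/-- the Euclidean part -/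
theorem eu (h0 : 0 < r₂) (h1 : r₂ < 1) (hV : IsOpen V) (hPs : ∀ z ∈ V, ContDiffAt ℝ ∞ P z)
    (hPv : ∀ z ∈ V, vp m k (P z) = vp m k z)
    (hPr : ∀ z ∈ V, r₂ ≤ ‖up m k (P z)‖ → up m k (P z) = up m k z) {δ₀ : ℝ} (hδ₀ : 0 < δ₀)
    (hinj : ∀ z ∈ V, ∀ z' ∈ V, ‖vp m k z‖ < δ₀ → r₂ ≤ ‖up m k (P z)‖ → ‖up m k (P z)‖ ≤ 1 →
      P z' = P z → z' = z)
    (hc : ∀ y : E m, ‖y‖ ≤ 1 → jn m k y 0 ∈ V ∧ ‖up m k (P (jn m k y 0))‖ ≤ 1 ∧
      (r₂ ≤ ‖y‖ → up m k (P (jn m k y 0)) = y)) :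
    ∃ (u : E m → E k → E m) (ρ ε : ℝ), 0 < ρ ∧ ρ < 1 ∧ 0 < ε ∧
      ContDiff ℝ ∞ (fun p : E m × E k => u p.1 p.2) ∧ (∀ y w, ρ ≤ ‖y‖ → u y w = 0) ∧
      (∀ y w, ‖y‖ ≤ 1 → ‖w‖ ≤ ε → jn m k y w ∈ V ∧ up m k (P (jn m k y w)) = y + u y w) ∧
      ∀ w, ‖w‖ ≤ ε → ∀ y, ‖y‖ ≤ ρ → ‖y + u y w‖ ≤ ρ := by
  classical
  obtain ⟨ρ, hρ⟩ : ∃ ρ : ℝ, ρ = (r₂ + 1) / 2 := ⟨_, rfl⟩
  have h2ρ : r₂ < ρ := by rw [hρ]; linarith
  have hρ1 : ρ < 1 := by rw [hρ]; linarith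
  have hρ0 : 0 < ρ := by linarith
  have hinj' : ∀ (a b : E m) (w : E k), ‖w‖ < δ₀ → jn m k a w ∈ V → jn m k b w ∈ V →
      r₂ ≤ ‖up m k (P (jn m k a w))‖ → ‖up m k (P (jn m k a w))‖ ≤ 1 →
      up m k (P (jn m k b w)) = up m k (P (jn m k a w)) → b = a := by
    intro a b w hw ha hb h3 h4 hab
    have h5 : P (jn m k b w) = P (jn m k a w) := by
      rw [← jn_up_vp m k (P (jn m k a w)), ← jn_up_vp m k (P (jn m k b w)), hab, hPv _ ha, hPv _ hb,
        vp_jn, vp_jn]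
    have h6 := congrArg (up m k) (hinj _ ha _ hb (by rw [vp_jn]; exact hw) h3 h4 h5)
    rwa [up_jn, up_jn] at h6
  have hcρ : ∀ y : E m, ‖y‖ ≤ 1 → jn m k y 0 ∈ V ∧ (ρ ≤ ‖y‖ → up m k (P (jn m k y 0)) = y) ∧
      (‖y‖ ≤ ρ → ‖up m k (P (jn m k y 0))‖ ≤ ρ) := by
    intro y hy
    obtain ⟨c1, c2, c3⟩ := hc y hy
    refine ⟨c1, fun h => c3 (by linarith), fun h => ?_⟩
    by_contra hcon
    push Not at hcon
    obtain ⟨d1, d2, d3⟩ := hc _ c2
    have h3 := d3 (by linarith)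
    have h4 := hinj' _ _ 0 (by rw [norm_zero]; exact hδ₀) d1 c1 (by rw [h3]; linarith)
      (by rw [h3]; exact c2) h3.symm
    rw [← h4] at hcon
    linarith
  obtain ⟨δ₁, hδ₁, htube₁⟩ := tube h2ρ hρ1 hV hPs hcρ
  obtain ⟨δ, hδ, hδle, htube⟩ : ∃ δ : ℝ, 0 < δ ∧ δ ≤ δ₀ ∧ ∀ w : E k, ‖w‖ < δ → ∀ y : E m,
      ‖y‖ ≤ 1 → jn m k y w ∈ V ∧ (ρ ≤ ‖y‖ → r₂ < ‖up m k (P (jn m k y w))‖) ∧
        (‖y‖ ≤ ρ → ‖up m k (P (jn m k y w))‖ < 1) :=
    ⟨min δ₁ δ₀, lt_min hδ₁ hδ₀, min_le_right _ _, fun w hw =>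
      htube₁ w (lt_of_lt_of_le hw (min_le_left _ _))⟩
  have hfix : ∀ (w : E k) (y : E m), ‖w‖ < δ → ‖y‖ ≤ 1 → ρ ≤ ‖y‖ →
      up m k (P (jn m k y w)) = y := by
    intro w y hw hy hy2
    obtain ⟨t1, t2, -⟩ := htube w hw y hy
    rw [hPr _ t1 (t2 hy2).le, up_jn]
  let χ : ContDiffBump (0 : E k) := ⟨δ / 2, 3 / 4 * δ, by linarith, by linarith⟩
  have hχc : ContDiff ℝ ∞ χ := χ.contDiff
  have hχ1 : ∀ w : E k, ‖w‖ ≤ δ / 2 → χ w = 1 := fun w hw =>
    χ.one_of_mem_closedBall (by rw [mem_closedBall_zero_iff]; exact hw)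
  have hχ0 : ∀ w : E k, 3 / 4 * δ ≤ ‖w‖ → χ w = 0 := fun w hw =>
    χ.zero_of_le_dist (by rw [dist_zero_right]; exact hw)
  obtain ⟨u, hu⟩ : ∃ u : E m → E k → E m, u = fun y w =>
      if ‖y‖ < 1 ∧ ‖w‖ < δ then χ w • (up m k (P (jn m k y w)) - y) else 0 := ⟨_, rfl⟩
  have hu1 : ∀ y w, ‖y‖ < 1 → ‖w‖ < δ → u y w = χ w • (up m k (P (jn m k y w)) - y) := by
    intro y w h3 h4
    rw [hu]
    simp only [h3, h4, and_self, if_true]
  have hu0 : ∀ y w, ¬ (‖y‖ < 1 ∧ ‖w‖ < δ) → u y w = 0 := by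
    intro y w h3
    rw [hu]
    simp only [h3, if_false]
  have huρ : ∀ y w, ρ ≤ ‖y‖ → u y w = 0 := by
    intro y w hy
    by_cases h3 : ‖y‖ < 1 ∧ ‖w‖ < δ
    · rw [hu1 y w h3.1 h3.2, hfix w y h3.2 h3.1.le hy, sub_self, smul_zero]
    · exact hu0 y w h3
  have huw : ∀ y w, 3 / 4 * δ ≤ ‖w‖ → u y w = 0 := by
    intro y w hw
    by_cases h3 : ‖y‖ < 1 ∧ ‖w‖ < δ
    · rw [hu1 y w h3.1 h3.2, hχ0 w hw, zero_smul]
    · exact hu0 y w h3
  have huP : ∀ y w, ‖y‖ ≤ 1 → ‖w‖ ≤ δ / 2 → up m k (P (jn m k y w)) = y + u y w := by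
    intro y w hy hw
    by_cases h3 : ρ ≤ ‖y‖
    · rw [huρ y w h3, add_zero]
      exact hfix w y (by linarith) hy h3
    · push Not at h3
      rw [hu1 y w (by linarith) (by linarith), hχ1 w hw, one_smul]
      abel
  have husm : ContDiff ℝ ∞ (fun p : E m × E k => u p.1 p.2) := by
    rw [contDiff_iff_contDiffAt]
    rintro ⟨y, w⟩
    by_cases h3 : ‖y‖ < 1
    · by_cases h4 : ‖w‖ < δ
      · have h5 : (fun p : E m × E k => u p.1 p.2) =ᶠ[𝓝 (y, w)]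
            fun p => χ p.2 • (up m k (P (jn m k p.1 p.2)) - p.1) := by
          have e1 : ∀ᶠ p : E m × E k in 𝓝 (y, w), ‖p.1‖ < 1 :=
            continuous_fst.norm.continuousAt.eventually_lt continuousAt_const h3
          have e2 : ∀ᶠ p : E m × E k in 𝓝 (y, w), ‖p.2‖ < δ :=
            continuous_snd.norm.continuousAt.eventually_lt continuousAt_const h4
          filter_upwards [e1, e2] with p hp1 hp2
          exact hu1 p.1 p.2 hp1 hp2
        refine ContDiffAt.congr_of_eventuallyEq ?_ h5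
        have h6 : ContDiffAt ℝ ∞ (fun p : E m × E k => P (jn m k p.1 p.2)) (y, w) := by
          have h7 := hPs _ (htube w h4 y h3.le).1
          exact ContDiffAt.comp (f := fun p : E m × E k => jn m k p.1 p.2) (y, w) h7
            (contDiff_jn m k).contDiffAt
        have h8 : ContDiffAt ℝ ∞ (fun p : E m × E k => up m k (P (jn m k p.1 p.2))) (y, w) :=
          (up m k).contDiff.contDiffAt.comp _ h6
        have h9 : ContDiffAt ℝ ∞ (fun p : E m × E k => χ p.2) (y, w) :=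
          (hχc.comp contDiff_snd).contDiffAt
        exact h9.smul (h8.sub contDiff_fst.contDiffAt)
      · push Not at h4
        have h5 : (fun p : E m × E k => u p.1 p.2) =ᶠ[𝓝 (y, w)] fun _ => 0 := by
          have e2 : ∀ᶠ p : E m × E k in 𝓝 (y, w), 3 / 4 * δ < ‖p.2‖ :=
            continuousAt_const.eventually_lt continuous_snd.norm.continuousAt
              (by change 3 / 4 * δ < ‖w‖; linarith)
          filter_upwards [e2] with p hp
          exact huw p.1 p.2 hp.le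
        exact contDiffAt_const.congr_of_eventuallyEq h5
    · push Not at h3
      have h5 : (fun p : E m × E k => u p.1 p.2) =ᶠ[𝓝 (y, w)] fun _ => 0 := by
        have e2 : ∀ᶠ p : E m × E k in 𝓝 (y, w), ρ < ‖p.1‖ :=
          continuousAt_const.eventually_lt continuous_fst.norm.continuousAt
            (by change ρ < ‖y‖; linarith)
        filter_upwards [e2] with p hp
        exact huρ p.1 p.2 hp.le
      exact contDiffAt_const.congr_of_eventuallyEq h5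
  refine ⟨u, ρ, δ / 2, hρ0, hρ1, by linarith, husm, huρ, fun y w hy hw =>
    ⟨(htube w (by linarith) y hy).1, huP y w hy hw⟩, fun w hw y hy => ?_⟩
  have hwδ : ‖w‖ < δ := by linarith
  have hy1 : ‖y‖ ≤ 1 := by linarith
  rw [← huP y w hy1 hw]
  by_contra hcon
  push Not at hcon
  obtain ⟨t1, -, t3⟩ := htube w hwδ y hy1
  have h3 := t3 hy
  obtain ⟨s1, s2, -⟩ := htube w hwδ (up m k (P (jn m k y w))) h3.le
  have h4 := hfix w (up m k (P (jn m k y w))) hwδ h3.le hcon.le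
  have h5 := hinj' (up m k (P (jn m k y w))) y w (by linarith) s1 t1 (by rw [h4]; linarith)
    (by rw [h4]; exact h3.le) h4.symm
  rw [← h5] at hcon
  linarith

end eu

section good

variable {m k : ℕ} {N : Type} [TopologicalSpace N]

/-- a collar of the attaching region of the core disc -/
theorem exists_r0 {h : E (m + k) → N} (hh : Continuous h) {G : Set N} (hG : IsOpen G)
    (h2 : ∀ z, vp m k z = 0 → 1 ≤ ‖up m k z‖ → h z ∈ G) :
    ∃ r₀ : ℝ, 0 < r₀ ∧ r₀ < 1 ∧ ∀ z, vp m k z = 0 → r₀ < ‖up m k z‖ → h z ∈ G := by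
  set C : Set (E (m + k)) := {z | ‖up m k z‖ ≤ 1 ∧ ‖vp m k z‖ ≤ 0} ∩ h ⁻¹' Gᶜ with hC
  have hCc : IsCompact C :=
    (Hnd.isCompact_Q m k 1 0).inter_right (hG.isClosed_compl.preimage hh)
  rcases C.eq_empty_or_nonempty with h0 | h0
  · refine ⟨1 / 2, by norm_num, by norm_num, fun z hz hr => ?_⟩
    by_cases h1 : 1 ≤ ‖up m k z‖
    · exact h2 z hz h1
    · by_contra hcon
      have : z ∈ C := ⟨⟨(not_le.1 h1).le, by rw [hz, norm_zero]⟩, hcon⟩
      rw [h0] at this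
      exact this
  · obtain ⟨z₀, hz₀, hmax⟩ := hCc.exists_isMaxOn h0 (up m k).continuous.norm.continuousOn
    have hlt : ‖up m k z₀‖ < 1 := by
      by_contra hcon
      exact hz₀.2 (h2 z₀ (norm_le_zero_iff.1 hz₀.1.2) (not_lt.1 hcon))
    refine ⟨max (1 / 2) ‖up m k z₀‖, lt_max_of_lt_left (by norm_num), max_lt (by norm_num) hlt,
      fun z hz hr => ?_⟩
    by_cases h1 : 1 ≤ ‖up m k z‖
    · exact h2 z hz h1
    · by_contra hcon
      have h3 : z ∈ C := ⟨⟨(not_le.1 h1).le, by rw [hz, norm_zero]⟩, hcon⟩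
      have h4 : ‖up m k z‖ ≤ ‖up m k z₀‖ := hmax h3
      have h5 := le_max_right (1 / 2) ‖up m k z₀‖
      linarith

/-- a uniform collar -/
theorem exists_d0 {h : E (m + k) → N} (hh : Continuous h) {G : Set N} (hG : IsOpen G) {r : ℝ}
    (h2 : ∀ z, vp m k z = 0 → r ≤ ‖up m k z‖ → ‖up m k z‖ ≤ 1 → h z ∈ G) :
    ∃ δ : ℝ, 0 < δ ∧ ∀ z, ‖vp m k z‖ < δ → r ≤ ‖up m k z‖ → ‖up m k z‖ ≤ 1 → h z ∈ G := by
  set C : Set (E (m + k)) := {z | ‖up m k z‖ ≤ 1 ∧ ‖vp m k z‖ ≤ 1} ∩ ({z | r ≤ ‖up m k z‖} ∩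
    h ⁻¹' Gᶜ) with hC
  have hCc : IsCompact C :=
    (Hnd.isCompact_Q m k 1 1).inter_right ((isClosed_le continuous_const
      (up m k).continuous.norm).inter (hG.isClosed_compl.preimage hh))
  rcases C.eq_empty_or_nonempty with h0 | h0
  · refine ⟨1, one_pos, fun z hz hr h1 => ?_⟩
    by_contra hcon
    have : z ∈ C := ⟨⟨h1, hz.le⟩, hr, hcon⟩
    rw [h0] at this
    exact this
  · obtain ⟨z₀, hz₀, hmin⟩ := hCc.exists_isMinOn h0 (vp m k).continuous.norm.continuousOn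
    have hpos : 0 < ‖vp m k z₀‖ := by
      by_contra hcon
      have h3 : vp m k z₀ = 0 := norm_le_zero_iff.1 (not_lt.1 hcon)
      exact hz₀.2.2 (h2 z₀ h3 hz₀.2.1 hz₀.1.1)
    refine ⟨min 1 ‖vp m k z₀‖, lt_min one_pos hpos, fun z hz hr h1 => ?_⟩
    by_contra hcon
    have h3 : z ∈ C := ⟨⟨h1, (lt_of_lt_of_le hz (min_le_left _ _)).le⟩, hr, hcon⟩
    have h4 : ‖vp m k z₀‖ ≤ ‖vp m k z‖ := hmin h3
    have h5 := lt_of_lt_of_le hz (min_le_right _ _)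
    linarith

end good

end Pool.Agent.H827.TM
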