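import Pool.Agent.H827.TM.Str
import Pool.Graph.R_pool_sql_team_seeded_63374d34.N550.KH.Ext
import Pool.Graph.R_pool_sql_team_seeded_63374d34.N550.KH.Jn

/-!
# Good coordinates near the preimage of the core disc of a handle: the theorem
-/

set_option autoImplicit false
set_option linter.unusedSectionVars false

open Set Filter Topology Metric Function MeasureTheory
open scoped Manifold ContDiff

noncomputable section

namespace Pool.Agent.H827.TM

open Pool.Agent.Y522 Pool.Agent.N550.KH Pool.Agent.H827.SF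

theorem str {m k : ℕ} (hA : AM m) {M N : Type} [TopologicalSpace M] [CompactSpace M] [T2Space M]
    [ChartedSpace (E (m + k)) M] [IsManifold (𝓡 (m + k)) ∞ M] [TopologicalSpace N] [T2Space N]
    [ChartedSpace (E (m + k)) N] (f : M → N) (B : Set N) (hf : TMap (m + k) f B)
    (h : E (m + k) → N) (hi : Injective h) (hl : ∀ z, LD (m + k) h z)
    (h1 : ∀ x, f x ∈ range h → vp m k (invFun h (f x)) = 0 → ‖up m k (invFun h (f x))‖ < 2 →
      f x ∉ B ∧ Surjective (mfderiv (𝓡 (m + k)) (𝓡 k) (fun y => vp m k (invFun h (f y))) x))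
    (h2 : ∀ z, vp m k z = 0 → 1 ≤ ‖up m k z‖ → Good (m + k) f (h z)) :
    ∃ (T : M → E m) (u : E m → E k → E m) (ρ ε : ℝ) (W : Set M), 0 < ρ ∧ ρ < 1 ∧ 0 < ε ∧
      IsOpen W ∧ (∀ x ∈ W, f x ∈ range h ∧ f x ∉ B) ∧
      (∀ x ∈ W, ContMDiffAt (𝓡 (m + k)) (𝓡 m) ∞ T x) ∧
      (∀ x ∈ W, LD (m + k) (fun y => jn m k (T y) (vp m k (invFun h (f y)))) x) ∧
      InjOn (fun y => jn m k (T y) (vp m k (invFun h (f y)))) W ∧
      (∀ y w, ‖y‖ ≤ 1 → ‖w‖ ≤ ε → ∃ x ∈ W, T x = y ∧ vp m k (invFun h (f x)) = w) ∧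
      ContDiff ℝ ∞ (fun p : E m × E k => u p.1 p.2) ∧ (∀ y w, ρ ≤ ‖y‖ → u y w = 0) ∧
      (∀ x ∈ W, ‖T x‖ ≤ 1 → ‖vp m k (invFun h (f x))‖ ≤ ε →
        up m k (invFun h (f x)) = T x + u (T x) (vp m k (invFun h (f x)))) ∧
      (∀ w, ‖w‖ ≤ ε → ∀ y, ‖y‖ ≤ ρ → ‖y + u y w‖ ≤ ρ) ∧
      ∀ x, f x ∈ range h → ‖vp m k (invFun h (f x))‖ ≤ ε → ‖up m k (invFun h (f x))‖ ≤ 1 →
        x ∈ W ∧ ‖T x‖ ≤ 1 := by
  classical
  obtain ⟨j, hje, hjc, hjd, hjr⟩ := core f B hf h hi hl h1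
  set F : M → E (m + k) := fun x => invFun h (f x) with hF
  have hhc : Continuous h := Two.cont_of_ld hl
  have hro : IsOpen (range h) := Two.open_range hl
  have hGo : IsOpen {y | Good (m + k) f y} := isOpen_good hf.cont
  obtain ⟨r₀, hr0, hr01, hr⟩ := exists_r0 hhc hGo h2
  have hLi : ∀ x, f x ∈ range h → LD (m + k) (invFun h) (f x) := by
    intro x hx
    obtain ⟨z, hz⟩ := hx
    exact hz ▸ Two.ld_inv hi hl z
  have hFc : ∀ x, f x ∈ range h → ContinuousAt F x := fun x hx =>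
    ContinuousAt.comp (g := invFun h) (hLi x hx).continuousAt hf.cont.continuousAt
  have hFs : ∀ x, f x ∈ range h → f x ∉ B → ContMDiffAt (𝓡 (m + k)) (𝓡 (m + k)) ∞ F x :=
    fun x hx hxB => ContMDiffAt.comp (g := invFun h) x (hLi x hx).contMDiffAt (hf.smooth x hxB)
  have hFh : ∀ x, f x ∈ range h → h (F x) = f x := fun x hx => Two.app_inv hx
  have hgood : ∀ x, f x ∈ range h → Good (m + k) f (h (F x)) → LD (m + k) F x := by
    intro x hx hg
    rw [hFh x hx] at hg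
    exact LD.comp_fun (g := invFun h) (hLi x hx) hg.ld
  have hjs : ∀ s, f (j s) ∈ range h ∧ vp m k (F (j s)) = 0 ∧ ‖up m k (F (j s))‖ < 2 := fun s => by
    have : j s ∈ range j := ⟨s, rfl⟩
    rw [hjr] at this
    exact this
  have hjB : ∀ s, f (j s) ∉ B := fun s => (h1 _ (hjs s).1 (hjs s).2.1 (hjs s).2.2).1
  -- the map `H`
  set H : E m → E m := fun s => up m k (F (j s)) with hH
  have hFH : ∀ s, F (j s) = jn m k (H s) 0 := fun s => by
    rw [← (hjs s).2.1, hH, jn_up_vp]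
  have hfj : ∀ s, f (j s) = h (jn m k (H s) 0) := fun s => by
    rw [← hFH, hFh _ (hjs s).1]
  have hHs : ContDiff ℝ ∞ H := by
    rw [contDiff_iff_contDiffAt]
    intro s
    have e1 : ContMDiffAt (𝓡 m) (𝓡 (m + k)) ∞ (fun s => F (j s)) s :=
      ContMDiffAt.comp (g := F) s (hFs _ (hjs s).1 (hjB s)) hjc.contMDiffAt
    exact contMDiffAt_iff_contDiffAt.1
      (ContMDiffAt.comp (g := up m k) s (up m k).contMDiff.contMDiffAt e1)
  have hHc : Continuous H := hHs.continuous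
  have hjnc : Continuous fun w : E m => jn m k w (0 : E k) :=
    (continuous_jn m k).comp (continuous_id.prodMk continuous_const)
  have hpre : ∀ K : Set (E m), K ⊆ ball 0 2 →
      H ⁻¹' K = j ⁻¹' (f ⁻¹' ((fun w : E m => h (jn m k w 0)) '' K)) := by
    intro K hK
    ext s
    constructor
    · intro hs
      exact ⟨H s, hs, (hfj s).symm⟩
    · rintro ⟨w, hw, hws⟩
      have e1 : h (jn m k w 0) = h (jn m k (H s) 0) := hws.trans (hfj s)
      have e2 := congrArg (up m k) (hi e1)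
      rw [up_jn, up_jn] at e2
      show H s ∈ K
      rw [← e2]
      exact hw
  have hsub : ∀ K : Set (E m), K ⊆ ball 0 2 →
      f ⁻¹' ((fun w : E m => h (jn m k w 0)) '' K) ⊆ range j := by
    rintro K hK x ⟨w, hw, hwx⟩
    have hwx' : h (jn m k w 0) = f x := hwx
    have hw2 := hK hw
    rw [mem_ball_zero_iff] at hw2
    rw [hjr]
    have e1 : F x = jn m k w 0 := by
      show invFun h (f x) = _
      rw [← hwx', Two.inv_app hi]
    refine ⟨?_, ?_, ?_⟩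
    · rw [← hwx']
      exact mem_range_self _
    · show vp m k (F x) = 0
      rw [e1, vp_jn]
    · show ‖up m k (F x)‖ < 2
      rw [e1, up_jn]
      exact hw2
  have hHp : ∀ K : Set (E m), IsCompact K → K ⊆ ball 0 2 → IsCompact (H ⁻¹' K) := by
    intro K hK hK2
    rw [hpre K hK2]
    refine hje.isInducing.isCompact_preimage' ?_ (hsub K hK2)
    exact ((hK.image (hhc.comp hjnc)).isClosed.preimage hf.cont).isCompact
  have hHr : range H = ball 0 2 := by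
    ext w
    rw [mem_ball_zero_iff]
    constructor
    · rintro ⟨s, rfl⟩
      exact (hjs s).2.2
    · intro hw
      obtain ⟨x, hx⟩ := hf.surj (h (jn m k w 0))
      have h4 : x ∈ range j := hsub {w} (by
        intro y hy
        rw [mem_singleton_iff.1 hy, mem_ball_zero_iff]
        exact hw) ⟨w, mem_singleton w, hx.symm⟩
      obtain ⟨s, rfl⟩ := h4
      refine ⟨s, ?_⟩
      have e2 := congrArg (up m k) (hi ((hfj s).symm.trans hx))
      rwa [up_jn, up_jn] at e2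
  have hHu : ∀ y ∈ ball (0 : E m) 2, UEmb m (H ⁻¹' {y}) := by
    intro y hy
    have hys : ({y} : Set (E m)) ⊆ ball 0 2 := by
      intro z hz
      rw [mem_singleton_iff.1 hz]
      exact hy
    rw [hpre {y} hys]
    have e1 := hsub {y} hys
    rw [image_singleton] at e1 ⊢
    refine (hf.tame _ ?_).comap j hje hjc hjd e1
    obtain ⟨x, hx⟩ := hf.surj (h (jn m k y 0))
    obtain ⟨s, rfl⟩ := e1 (show x ∈ f ⁻¹' {h (jn m k y 0)} from hx)
    rw [← hx]
    exact hjB s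
  have hHg : ∀ z, r₀ < ‖H z‖ → LD m H z ∧ ∀ z', H z' = H z → z' = z := by
    intro z hz
    have e1 : Good (m + k) f (h (F (j z))) := hr _ (hjs z).2.1 hz
    refine ⟨Hnd.ld_H F j z hjc (hjd z) (hgood _ (hjs z).1 e1) fun t => (hjs t).2.1, ?_⟩
    intro z' hz'
    rw [hFh _ (hjs z).1] at e1
    exact hje.injective (e1.eq (by rw [hfj, hfj, hz']))
  -- the diffeomorphism `Θ`
  set r₁ : ℝ := (r₀ + 1) / 2 with hr₁
  have hr₁1 : r₁ < 1 := by rw [hr₁]; linarith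
  have hr₀₁ : r₀ < r₁ := by rw [hr₁]; linarith
  obtain ⟨Θ, hΘi, hΘd, hΘr, hΘH⟩ := hA H r₀ r₁ hr0 hr₀₁ (by linarith) hHs hHp hHr hHu hHg
  have hΘc : ContDiff ℝ ∞ Θ := contDiff_iff_contDiffAt.2 fun z => (hΘd z).contDiffAt
  have hback : ∀ s, r₁ ≤ ‖Θ s‖ → H s = Θ s := by
    intro s hs
    have h3 : Θ s ∈ range H := by
      rw [hHr, ← hΘr]
      exact ⟨s, rfl⟩
    obtain ⟨s', hs'⟩ := h3
    have h4 : Θ s' = H s' := hΘH s' (by rw [hs']; exact hs)
    have h5 : s' = s := hΘi (h4.trans hs')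
    rw [← h5, h4]
  have hiff : ∀ s, ‖H s‖ ≤ 1 ↔ ‖Θ s‖ ≤ 1 := by
    intro s
    constructor
    · intro h
      by_contra hcon
      push Not at hcon
      rw [hback s (by linarith)] at h
      linarith
    · intro h
      by_contra hcon
      push Not at hcon
      rw [hΘH s (by linarith)] at h
      linarith
  -- extension of `Θ`
  obtain ⟨R, hR⟩ : ∃ R : ℝ, ∀ s, ‖H s‖ ≤ 3 / 2 → ‖s‖ ≤ R := by
    have h3 : IsCompact (H ⁻¹' closedBall 0 (3 / 2)) :=
      hHp _ (isCompact_closedBall _ _) (closedBall_subset_ball (by norm_num))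
    obtain ⟨R, hR⟩ := h3.isBounded.exists_norm_le
    exact ⟨R, fun s hs => hR s (by
      rw [mem_preimage, mem_closedBall_zero_iff]
      exact hs)⟩
  obtain ⟨τ, hτc, hτ⟩ := Ext.main m k M j hje.injective hjc hjd Θ hΘc R
  -- the cutoff function
  set r₂ : ℝ := (r₁ + 1) / 2 with hr₂
  have hr₂1 : r₂ < 1 := by rw [hr₂]; linarith
  have hr₁₂ : r₁ < r₂ := by rw [hr₂]; linarith
  have hr₂0 : 0 < r₂ := by linarith
  let φ : ContDiffBump (0 : E m) := ⟨r₁, r₂, by linarith, hr₁₂⟩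
  have hφc : ContDiff ℝ ∞ φ := φ.contDiff
  have hφ1 : ∀ w : E m, ‖w‖ ≤ r₁ → φ w = 1 := fun w hw =>
    φ.one_of_mem_closedBall (by rw [mem_closedBall_zero_iff]; exact hw)
  have hφ0 : ∀ w : E m, r₂ ≤ ‖w‖ → φ w = 0 := fun w hw =>
    φ.zero_of_le_dist (by rw [dist_zero_right]; exact hw)
  -- the formula
  obtain ⟨T, hTdef⟩ : ∃ T : M → E m, T = fun x =>
      φ (up m k (F x)) • τ x + (1 - φ (up m k (F x))) • up m k (F x) := ⟨_, rfl⟩
  have hTj : ∀ s, ‖H s‖ ≤ 3 / 2 → T (j s) = Θ s := by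
    intro s hs
    have h3 : T (j s) = φ (H s) • Θ s + (1 - φ (H s)) • H s := by
      rw [hTdef, ← hτ s (hR s hs)]
    rw [h3]
    by_cases h4 : r₁ ≤ ‖H s‖
    · rw [hΘH s h4, ← add_smul]
      simp
    · push Not at h4
      rw [hφ1 _ h4.le]
      simp
  have hTF : ∀ x, r₂ ≤ ‖up m k (F x)‖ → T x = up m k (F x) := by
    intro x hx
    rw [hTdef]
    simp only
    rw [hφ0 _ hx]
    simp
  obtain ⟨Ξ, hΞ⟩ : ∃ Ξ : M → E (m + k), Ξ = fun x => jn m k (T x) (vp m k (F x)) := ⟨_, rfl⟩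
  have hΞa : ∀ x, Ξ x = jn m k (T x) (vp m k (F x)) := fun x => by rw [hΞ]
  have hΞj : ∀ s, ‖H s‖ ≤ 1 → Ξ (j s) = jn m k (Θ s) 0 := by
    intro s hs
    rw [hΞa, hTj s (by linarith), (hjs s).2.1]
  -- the core disc
  have hQ : ∀ (a b : ℝ), IsCompact {x : M | f x ∈ range h ∧ ‖up m k (F x)‖ ≤ a ∧
      ‖vp m k (F x)‖ ≤ b} := by
    intro a b
    have e1 : {x : M | f x ∈ range h ∧ ‖up m k (F x)‖ ≤ a ∧ ‖vp m k (F x)‖ ≤ b} =
        f ⁻¹' (h '' {z : E (m + k) | ‖up m k z‖ ≤ a ∧ ‖vp m k z‖ ≤ b}) := by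
      ext x
      constructor
      · rintro ⟨hx1, hx2⟩
        exact ⟨F x, hx2, hFh x hx1⟩
      · rintro ⟨z, hz, hzx⟩
        have e2 : F x = z := by
          show invFun h (f x) = z
          rw [← hzx, Two.inv_app hi]
        refine ⟨?_, ?_⟩
        · rw [← hzx]
          exact mem_range_self _
        · rw [e2]
          exact hz
    rw [e1]
    exact (((Hnd.isCompact_Q m k a b).image hhc).isClosed.preimage hf.cont).isCompact
  set D : Set M := {x : M | f x ∈ range h ∧ ‖up m k (F x)‖ ≤ 1 ∧ ‖vp m k (F x)‖ ≤ 0} with hD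
  have hDc : IsCompact D := hQ 1 0
  have hDj : ∀ x ∈ D, ∃ s, j s = x ∧ ‖H s‖ ≤ 1 := by
    rintro x ⟨hx1, hx2, hx3⟩
    have h4 : x ∈ range j := by
      rw [hjr]
      exact ⟨hx1, norm_le_zero_iff.1 hx3, by
        show ‖up m k (F x)‖ < 2
        linarith⟩
    obtain ⟨s, rfl⟩ := h4
    exact ⟨s, rfl, hx2⟩
  have hTsm : ∀ x, f x ∈ range h → f x ∉ B → ContMDiffAt (𝓡 (m + k)) (𝓡 m) ∞ T x := by
    intro x hx hxB
    have hy1 : ContMDiffAt (𝓡 (m + k)) (𝓡 m) ∞ (fun y => up m k (F y)) x :=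
      (up m k).contMDiff.contMDiffAt.comp x (hFs x hx hxB)
    have hy2 : ContMDiffAt (𝓡 (m + k)) 𝓘(ℝ, ℝ) ∞ (fun y => φ (up m k (F y))) x :=
      hφc.contMDiff.contMDiffAt.comp x hy1
    rw [hTdef]
    exact (hy2.smul hτc.contMDiffAt).add ((contMDiffAt_const.sub hy2).smul hy1)
  have hev : ∀ x, f x ∈ range h → f x ∉ B → ∀ᶠ y in 𝓝 x, f y ∈ range h ∧ f y ∉ B := by
    intro x hx hxB
    exact hf.cont.continuousAt.eventually_mem
      (inter_mem (hro.mem_nhds hx) (hf.closed.isOpen_compl.mem_nhds hxB))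
  have hΞld : ∀ x ∈ D, LD (m + k) Ξ x := by
    intro x hx
    obtain ⟨s, rfl, hs⟩ := hDj x hx
    have hev' := hev (j s) (hjs s).1 (hjB s)
    rw [hΞ]
    refine Jn.main m k M j s T (fun x => vp m k (F x)) Θ hjc.contMDiffAt ?_ ?_
      (h1 (j s) (hjs s).1 (hjs s).2.1 (hjs s).2.2).2 (Eventually.of_forall fun t => (hjs t).2.1)
      ?_ (hΘd s)
    · filter_upwards [hev'] with y hy
      exact hTsm y hy.1 hy.2
    · filter_upwards [hev'] with y hy
      exact (vp m k).contMDiff.contMDiffAt.comp y (hFs y hy.1 hy.2)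
    · have h5 : ∀ᶠ t in 𝓝 s, ‖H t‖ < 3 / 2 :=
        hHc.norm.continuousAt.eventually_lt continuousAt_const (by
          change ‖H s‖ < 3 / 2
          linarith)
      filter_upwards [h5] with t ht
      exact hTj t ht.le
  have hΞinj : InjOn Ξ D := by
    intro x hx y hy hxy
    obtain ⟨s, rfl, hs⟩ := hDj x hx
    obtain ⟨t, rfl, ht⟩ := hDj y hy
    rw [hΞj s hs, hΞj t ht] at hxy
    have h3 := congrArg (up m k) hxy
    rw [up_jn, up_jn] at h3
    rw [hΘi h3]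
  obtain ⟨O, hO, hDO, hOinj⟩ := hΞinj.exists_isOpen_superset hDc
    (fun x hx => (hΞld x hx).continuousAt) (fun x hx => (hΞld x hx).eventually_injOn)
  -- the neighbourhood `W`
  obtain ⟨W, hWdef⟩ : ∃ W : Set M, W = O ∩ interior {x | f x ∈ range h ∧ f x ∉ B ∧
      LD (m + k) Ξ x} := ⟨_, rfl⟩
  have hWo : IsOpen W := by rw [hWdef]; exact hO.inter isOpen_interior
  have hWp : ∀ x ∈ W, f x ∈ range h ∧ f x ∉ B ∧ LD (m + k) Ξ x := by
    intro x hx
    rw [hWdef] at hx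
    have h3 : x ∈ {x | f x ∈ range h ∧ f x ∉ B ∧ LD (m + k) Ξ x} := interior_subset hx.2
    exact h3
  have hWi : InjOn Ξ W := hOinj.mono (by rw [hWdef]; exact inter_subset_left)
  have hDW : D ⊆ W := by
    intro x hx
    rw [hWdef]
    refine ⟨hDO hx, ?_⟩
    rw [mem_interior_iff_mem_nhds]
    have hld := hΞld x hx
    obtain ⟨s, rfl, hs⟩ := hDj x hx
    filter_upwards [hev (j s) (hjs s).1 (hjB s), hld.eventually] with y a1 a2
    exact ⟨a1.1, a1.2, a2⟩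
  have hDmem : ∀ s, ‖H s‖ ≤ 1 → j s ∈ D := fun s hs =>
    ⟨(hjs s).1, hs, by rw [(hjs s).2.1, norm_zero]⟩
  -- the map `P`
  have : Nonempty M := ⟨j 0⟩
  obtain ⟨Ψ, hΨ⟩ : ∃ Ψ : E (m + k) → M, ∀ x ∈ W, Ψ (Ξ x) = x :=
    ⟨invFunOn Ξ W, fun x hx => hWi.leftInvOn_invFunOn hx⟩
  have hΨd : ∀ x ∈ W, LD (m + k) Ψ (Ξ x) := fun x hx =>
    LD.inverse hWo (fun y hy => (hWp y hy).2.2) hΨ hx
  have hVo : IsOpen (Ξ '' W) := isOpen_image_of_LD (n := m + k) hWo fun y hy => (hWp y hy).2.2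
  obtain ⟨δ₀, hδ₀, hδg⟩ := exists_d0 hhc hGo (r := r₂) (fun z hz hz2 _ =>
    hr z hz (by linarith))
  obtain ⟨u, ρ, ε, e1, e2, e3, e4, e5, e6, e7⟩ := eu (m := m) (k := k) (V := Ξ '' W)
    (P := fun z => F (Ψ z)) (r₂ := r₂) hr₂0 hr₂1 hVo
    (by
      rintro _ ⟨x, hx, rfl⟩
      have h3 : ContMDiffAt (𝓡 (m + k)) (𝓡 (m + k)) ∞ F (Ψ (Ξ x)) := by
        rw [hΨ x hx]
        exact hFs x (hWp x hx).1 (hWp x hx).2.1
      exact contMDiffAt_iff_contDiffAt.1 (h3.comp _ (hΨd x hx).contMDiffAt))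
    (by
      rintro _ ⟨x, hx, rfl⟩
      simp only [hΨ x hx]
      rw [hΞa, vp_jn])
    (by
      rintro _ ⟨x, hx, rfl⟩ h3
      simp only [hΨ x hx] at h3 ⊢
      rw [hΞa, up_jn, hTF x h3]) hδ₀
    (by
      rintro _ ⟨x, hx, rfl⟩ _ ⟨y, hy, rfl⟩ h3 h4 h5 hxy
      simp only [hΨ x hx, hΨ y hy] at h4 h5 hxy
      rw [hΞa, vp_jn] at h3
      have h6 := hδg (F x) h3 h4 h5
      have h7 : Good (m + k) f (h (F x)) := h6
      rw [hFh x (hWp x hx).1] at h7
      have h8 : f y = f x := by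
        rw [← hFh x (hWp x hx).1, ← hFh y (hWp y hy).1, hxy]
      rw [h7.eq h8])
    (by
      intro y hy
      have h3 : y ∈ range Θ := by
        rw [hΘr, mem_ball_zero_iff]
        linarith
      obtain ⟨s, rfl⟩ := h3
      have h4 : ‖H s‖ ≤ 1 := (hiff s).2 hy
      have h5 : j s ∈ W := hDW (hDmem s h4)
      have h6 : Ψ (jn m k (Θ s) 0) = j s := by rw [← hΞj s h4]; exact hΨ _ h5
      refine ⟨⟨j s, h5, hΞj s h4⟩, ?_, ?_⟩
      · rw [h6]
        exact h4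
      · intro h7
        rw [h6]
        exact hback s (by linarith))
  -- the preimage of a small neighbourhood of the disc
  obtain ⟨ε', hε', hreg⟩ : ∃ ε' : ℝ, 0 < ε' ∧ ∀ x, f x ∈ range h → ‖vp m k (F x)‖ ≤ ε' →
      ‖up m k (F x)‖ ≤ 1 → x ∈ W ∧ ‖T x‖ ≤ 1 := by
    set U : Set M := {x | x ∈ W ∧ (‖T x‖ < 1 ∨ r₂ < ‖up m k (F x)‖)} with hU
    have hUo : IsOpen U := by
      rw [isOpen_iff_mem_nhds]
      rintro x ⟨hx, hx'⟩
      have c1 : ContinuousAt (fun y => ‖T y‖) x :=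
        (hTsm x (hWp x hx).1 (hWp x hx).2.1).continuousAt.norm
      have c2 : ContinuousAt (fun y => ‖up m k (F y)‖) x :=
        (up m k).continuous.norm.continuousAt.comp (hFc x (hWp x hx).1)
      rcases hx' with hx' | hx'
      · filter_upwards [hWo.mem_nhds hx, c1.eventually (gt_mem_nhds hx')] with y hy1 hy2
        exact ⟨hy1, Or.inl hy2⟩
      · filter_upwards [hWo.mem_nhds hx, c2.eventually (lt_mem_nhds hx')] with y hy1 hy2
        exact ⟨hy1, Or.inr hy2⟩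
    have hDU : D ⊆ U := by
      intro x hx
      refine ⟨hDW hx, ?_⟩
      obtain ⟨s, rfl, hs⟩ := hDj x hx
      by_cases h3 : r₂ < ‖up m k (F (j s))‖
      · exact Or.inr h3
      · left
        rw [hTj s (by linarith)]
        by_contra hcon
        have h4 : H s = Θ s := hback s (by linarith)
        have h5 : ‖H s‖ ≤ r₂ := not_lt.1 h3
        rw [h4] at h5
        linarith
    have hC : IsCompact ({x : M | f x ∈ range h ∧ ‖up m k (F x)‖ ≤ 1 ∧ ‖vp m k (F x)‖ ≤ 1} ∩ Uᶜ) :=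
      (hQ 1 1).inter_right hUo.isClosed_compl
    have hfin : ∃ ε' : ℝ, 0 < ε' ∧ ∀ x, f x ∈ range h → ‖vp m k (F x)‖ ≤ ε' →
        ‖up m k (F x)‖ ≤ 1 → x ∈ U := by
      rcases ({x : M | f x ∈ range h ∧ ‖up m k (F x)‖ ≤ 1 ∧
        ‖vp m k (F x)‖ ≤ 1} ∩ Uᶜ).eq_empty_or_nonempty with h0 | h0
      · refine ⟨1, one_pos, fun x hx1 hx2 hx3 => ?_⟩
        by_contra hcon
        have : x ∈ ({x : M | f x ∈ range h ∧ ‖up m k (F x)‖ ≤ 1 ∧
          ‖vp m k (F x)‖ ≤ 1} ∩ Uᶜ) := ⟨⟨hx1, hx3, hx2⟩, hcon⟩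
        rw [h0] at this
        exact this
      · have hcont : ContinuousOn (fun x => ‖vp m k (F x)‖)
            ({x : M | f x ∈ range h ∧ ‖up m k (F x)‖ ≤ 1 ∧ ‖vp m k (F x)‖ ≤ 1} ∩ Uᶜ) := by
          intro x hx
          exact ((vp m k).continuous.norm.continuousAt.comp (hFc x hx.1.1)).continuousWithinAt
        obtain ⟨x₀, hx₀, hmin⟩ := hC.exists_isMinOn h0 hcont
        have hpos : 0 < ‖vp m k (F x₀)‖ := by
          by_contra hcon
          exact hx₀.2 (hDU ⟨hx₀.1.1, hx₀.1.2.1, not_lt.1 hcon⟩)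
        refine ⟨min 1 (‖vp m k (F x₀)‖ / 2), lt_min one_pos (by linarith), fun x hx1 hx2 hx3 => ?_⟩
        by_contra hcon
        have h4 : ‖vp m k (F x₀)‖ ≤ ‖vp m k (F x)‖ :=
          hmin ⟨⟨hx1, hx3, hx2.trans (min_le_left _ _)⟩, hcon⟩
        have h5 := hx2.trans (min_le_right _ _)
        linarith
    obtain ⟨ε', hε', hfin'⟩ := hfin
    refine ⟨ε', hε', fun x hx1 hx2 hx3 => ?_⟩
    obtain ⟨h3, h4⟩ := hfin' x hx1 hx2 hx3
    refine ⟨h3, ?_⟩
    rcases h4 with h4 | h4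
    · exact h4.le
    · rw [hTF x h4.le]
      exact hx3
  refine ⟨T, u, ρ, min ε ε', W, e1, e2, lt_min e3 hε', hWo, fun x hx =>
    ⟨(hWp x hx).1, (hWp x hx).2.1⟩, fun x hx => hTsm x (hWp x hx).1 (hWp x hx).2.1,
    ?_, ?_, ?_, e4, e5, ?_, fun w hw => e7 w (hw.trans (min_le_left _ _)), ?_⟩
  · intro x hx
    have h3 := (hWp x hx).2.2
    rw [hΞ] at h3
    exact h3
  · rw [hΞ] at hWi
    exact hWi
  · intro y w hy hw
    obtain ⟨x, hx, hxy⟩ := (e6 y w hy (hw.trans (min_le_left _ _))).1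
    rw [hΞa] at hxy
    refine ⟨x, hx, ?_, ?_⟩
    · have := congrArg (up m k) hxy
      rwa [up_jn, up_jn] at this
    · have := congrArg (vp m k) hxy
      rwa [vp_jn, vp_jn] at this
  · intro x hx hTx hvx
    have h3 := (e6 (T x) (vp m k (F x)) hTx (hvx.trans (min_le_left _ _))).2
    rw [← hΞa, hΨ x hx] at h3
    exact h3
  · intro x hx hv hu
    exact hreg x hx (hv.trans (min_le_right _ _)) hu

end Pool.Agent.H827.TM
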